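import Pool.Agent.Work.MP_62a643_lc.TimeB

/-!
The approximation scheme for the tree search problem runs in polynomial time: the algorithm.
-/

set_option autoImplicit false

namespace Pool.Agent.Work.MP_62a643_lc

open Pool.Agent.Work.PolyTime

variable {α β : Type} [Code α] [Code β]

theorem ptime_lmax {l : α → List ℕ} (hl : PTime l) : PTime (fun a => (l a).foldl max 0) := by
  refine PTime.foldlGrow (l := l) (s := fun _ => 0) (f := fun y : α × ℕ × ℕ => max y.2.1 y.2.2)
    hl (PTime.const 0) (PTime.natMax (by fun_prop) (by fun_prop)) (G := fun a => sz (l a))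
    hl.sz_le ?_
  intro a b hb s
  have h := sz_mem hb
  simp only [sz_nat] at *
  omega

theorem ptime_nblk {x : α → Inst} (hx : PTime x) : PTime (fun a => nblk (x a)) := by
  unfold nblk
  refine PTime.succ (PTime.natAdd (PTime.fst.comp hx) (PTime.listSum ?_))
  exact PTime.map (f := fun _ (c : List Bool) => c.length) (l := fun a => (x a).2.2.2)
    (by fun_prop) (PTime.length PTime.snd)

theorem ptime_glab (M B : ℕ) {x : α → Inst} {sols : α → List (List ℕ)} {o : α → ℕ}
    (hx : PTime x) (hs : PTime sols) (ho : PTime o) :
    PTime (fun a => glab M B (x a) (sols a) (o a)) := by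
  refine PTime.map (l := fun a => List.range (x a).1) (f := fun a v =>
    ((List.range (nblk (x a))).map fun r =>
      bif decide (((sols a).getD (o a + r * B) []).getD v 0 = 0) then 0
        else (o a + r * B) * M + ((sols a).getD (o a + r * B) []).getD v 0).foldl max 0)
    (PTime.range (PTime.fst.comp hx)) (ptime_lmax ?_)
  refine PTime.map (l := fun y : α × ℕ => List.range (nblk (x y.1))) (f := fun y r =>
      bif decide (((sols y.1).getD (o y.1 + r * B) []).getD y.2 0 = 0) then 0
        else (o y.1 + r * B) * M + ((sols y.1).getD (o y.1 + r * B) []).getD y.2 0)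
    (PTime.range (ptime_nblk (hx.comp PTime.fst))) ?_
  have h0 : PTime (fun z : (α × ℕ) × ℕ => z.1.1) := by fun_prop
  have h1 : PTime (fun z : (α × ℕ) × ℕ => o z.1.1 + z.2 * B) :=
    PTime.natAdd (ho.comp h0) (PTime.natMul PTime.snd (PTime.const B))
  have h2 : PTime (fun z : (α × ℕ) × ℕ => ((sols z.1.1).getD (o z.1.1 + z.2 * B) []).getD
      z.1.2 0) :=
    PTime.nth (PTime.nth (hs.comp h0) h1 (PTime.const [])) (by fun_prop) (PTime.const 0)
  exact PTime.cond (PTime.eq h2 (PTime.const 0)) (PTime.const 0)
    (PTime.natAdd (PTime.natMul h1 (PTime.const M)) h2)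

theorem ptime_ordL {x : α → Inst} {lab : α → List ℕ} {S : α → ℕ} (hx : PTime x)
    (hl : PTime lab) (hS : PTime S) : PTime (fun a => ordL (x a) (lab a) (S a)) := by
  refine PTime.flatMap (l := fun a => List.range (S a + 1)) (f := fun a s =>
    (List.range (x a).1).filter fun v => decide ((lab a).getD v 0 = s))
    (PTime.range (PTime.succ hS)) ?_
  refine PTime.filter (l := fun y : α × ℕ => List.range (x y.1).1)
    (p := fun y v => decide ((lab y.1).getD v 0 = y.2))
    (PTime.range (PTime.fst.comp (hx.comp PTime.fst))) ?_
  have h0 : PTime (fun z : (α × ℕ) × ℕ => z.1.1) := by fun_prop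
  exact PTime.eq (PTime.nth (hl.comp h0) PTime.snd (PTime.const 0)) (by fun_prop)

/-- Comparison of the costs of two labellings. -/
def leL (M : ℕ) (x : Inst) (a b : List ℕ) : Bool := leB (costL M x a) (costL M x b)

theorem ptime_bestLab (M B : ℕ) {x : α → Inst} (hx : PTime x) :
    PTime (fun a => bestLab M B (x a)) := by
  have h1 : PTime (fun a => (List.range (B * nblk (x a))).map (solve M B (x a))) :=
    PTime.map (l := fun a => List.range (B * nblk (x a))) (f := fun a e => solve M B (x a) e)
      (PTime.range (PTime.natMul (PTime.const B) (ptime_nblk hx)))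
      (ptime_solve M B (hx.comp PTime.fst) PTime.snd)
  have h2 : PTime (fun a => (List.range B).map
      (glab M B (x a) ((List.range (B * nblk (x a))).map (solve M B (x a))))) :=
    PTime.map (l := fun _ => List.range B) (f := fun a o =>
      glab M B (x a) ((List.range (B * nblk (x a))).map (solve M B (x a))) o)
      (PTime.const _) (ptime_glab M B (hx.comp PTime.fst) (h1.comp PTime.fst) PTime.snd)
  have h3 : PTime (fun a => pick (leL M (x a)) ((List.range B).map
      (glab M B (x a) ((List.range (B * nblk (x a))).map (solve M B (x a)))))) :=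
    ptime_pick (le := fun a => leL M (x a)) h2
      (ptime_leC M (x := fun y : α × List ℕ × List ℕ => x y.1) (l := fun y => y.2.1)
        (m := fun y => y.2.2) (hx.comp PTime.fst) (by fun_prop) (by fun_prop))
  have h4 := PTime.flatMap (f := fun _ (c : List ℕ) => c) h3 (by fun_prop)
  refine h4.code_congr fun a => ?_
  rw [List.flatMap_id']
  rfl

theorem ptime_algo (M B : ℕ) {x : α → Inst} (hx : PTime x) :
    PTime (fun a => algo M B (x a)) := by
  unfold algo
  refine ptime_dtree hx (ptime_ordL hx (ptime_bestLab M B hx) ?_)
  unfold smax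
  exact PTime.natAdd (PTime.natMul (PTime.natMul (PTime.const B) (ptime_nblk hx))
    (PTime.const M)) (PTime.const _)

end Pool.Agent.Work.MP_62a643_lc
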