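import Pool.Agent.Work.MP_62a643_lc.Defs
import Pool.Agent.Work.MP_63b90e_lc.Coef
import Pool.Agent.Work.PolyTime.Pairs
import Pool.Agent.Work.PolyTime.Sim

/-!
The tree search problem: the approximation scheme.
-/

set_option autoImplicit false

namespace Pool.Agent.Work.MP_62a643_lc

open Pool.Agent.Work.PolyTime
open Pool.Agent.Work.MP_63b90e_lc (addB padTo shiftB)

/-- Instances: number of vertices, edges, costs and weights (in binary). -/
abbrev Inst : Type := ℕ × List (ℕ × ℕ) × List (List Bool) × List (List Bool)

/-- Adjacency. -/
def adjB (x : Inst) (u v : ℕ) : Bool :=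
  decide (u < x.1) && (decide (v < x.1) && (!(decide (u = v)) &&
    (memB (u, v) x.2.1 || memB (v, u) x.2.1)))

/-! ### Elimination -/

/-- The component `c` contains a neighbour of `v`. -/
def hit (x : Inst) {β : Type} (v : ℕ) (c : List ℕ × β) : Bool := c.1.any fun u => adjB x v u

/-- One step: the vertex `v` joins the components next to it. -/
def gstep (x : Inst) {β : Type} (g : ℕ → List β → β) (F : List (List ℕ × β)) (v : ℕ) :
    List (List ℕ × β) :=
  (v :: (F.filter (hit x v)).flatMap Prod.fst, g v ((F.filter (hit x v)).map Prod.snd)) ::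
    F.filter fun c => !(hit x v c)

/-- The components of the set of the vertices of `L`, with their values. -/
def gelim (x : Inst) {β : Type} (g : ℕ → List β → β) (L : List ℕ) : List (List ℕ × β) :=
  L.foldl (gstep x g) []

/-- The forest with given roots and subforests. -/
def asm (l : List (ℕ × Strat)) : Strat := l.foldl (fun acc c => Strat.cons c.1 c.2 acc) Strat.nil

/-- The value for the construction of the search tree. -/
def gS (v : ℕ) (l : List (ℕ × Strat)) : ℕ × Strat := (v, asm l)

/-- The search tree in which the last vertices of `L` are queried first. -/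
def dtree (x : Inst) (L : List ℕ) : Strat := asm ((gelim x gS L).map Prod.snd)

/-- One step of the graph search. -/
def grow (x : Inst) (L : List ℕ) : List ℕ :=
  L ++ ((List.range x.1).filter fun v => !(memB v L) && L.any fun u => adjB x u v).take 1

/-- The search order. -/
def sorder (x : Inst) : List ℕ := (List.replicate x.1 ()).foldl (fun L _ => grow x L) [0]

/-! ### Numbers -/

/-- `k` times `a`. -/
def mulN (k : ℕ) (a : List Bool) : List Bool :=
  (List.replicate k ()).foldl (fun s _ => addB s a) []

/-- The minimum of `N` and the number `a`, in unary. -/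
def ucap (N : ℕ) (a : List Bool) : ℕ :=
  a.reverse.foldl (fun r b => min (r + r + (bif b then 1 else 0)) N) 0

/-- Comparison `a ≤ b`. -/
def leB (a b : List Bool) : Bool :=
  ((padTo false a b).zip (padTo false b a)).foldl
    (fun s p => bif p.1 then (p.2 && s) else (p.2 || s)) true

/-- Division by `M`. -/
def dv (M i : ℕ) : ℕ := ((List.range i).filter fun q => decide ((q + 1) * M ≤ i)).length

/-- Costs of the labels, in binary. -/
def payB (M j : ℕ) (c : List Bool) : List Bool :=
  if j = 0 then [] else shiftB (dv M (j - 1)) (mulN (M + ((j - 1) - dv M (j - 1) * M)) c)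

/-- Costs of the labels. -/
def pay (M : ℕ) : ℕ → ℕ
  | 0 => 0
  | s + 1 => 2 ^ (s / M) * (M + s % M)

/-- Cost of a labelling, in binary. -/
def costL (M : ℕ) (x : Inst) (lab : List ℕ) : List Bool :=
  ((List.range x.1).map fun v => payB M (lab.getD v 0) (x.2.2.1.getD v [])).foldl addB []

/-- An element of `l` minimal for `le` (or nothing if `l` is empty). -/
def pick {β : Type} (le : β → β → Bool) (l : List β) : List β :=
  l.foldl (fun acc e => bif (acc.all fun b => le e b) then [e] else acc) []

/-! ### Tables -/

/-- All lists of length `K` with entries at most `N`. -/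
def states (N : ℕ) : ℕ → List (List ℕ)
  | 0 => [[]]
  | K + 1 => (states N K).flatMap fun l => (List.range (N + 1)).map fun i => i :: l

/-- Tables: states and labellings. -/
abbrev Tab : Type := List (List ℕ × List ℕ)

/-- The cap. -/
def ncap (M : ℕ) (x : Inst) : ℕ := 2 * x.1 * M

/-- The weight of `v` at the octave `e + i / M`, in suitable units. -/
def wgt (M B : ℕ) (x : Inst) (e v i : ℕ) : ℕ :=
  ucap (ncap M x) ((shiftB B (mulN (x.1 * M) (x.2.2.2.getD v []))).drop (e + dv M i))

/-- The threshold. -/
def kap (M : ℕ) (x : Inst) (i : ℕ) : ℕ := x.1 * (M + (i - dv M i * M))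

/-- Keep only a cheapest entry for each state. -/
def prune (M B : ℕ) (x : Inst) (t : Tab) : Tab :=
  (states (ncap M x) (B * M)).flatMap fun s =>
    pick (fun e b => leB (costL M x e.2) (costL M x b.2)) (t.filter fun e => decide (e.1 = s))

/-- The label `j` is possible at `q`. -/
def okB (M B : ℕ) (x : Inst) (e q : ℕ) (Q : List ℕ) (j : ℕ) : Bool :=
  (List.range (B * M)).all fun i =>
    !(decide (j ≤ i + 1)) || decide (wgt M B x e q i + Q.getD i 0 ≤ kap M x i)

/-- The state after the vertex `q` has got the label `j`. -/
def newP (M B : ℕ) (x : Inst) (e q : ℕ) (Q : List ℕ) (j : ℕ) : List ℕ :=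
  (List.range (B * M)).map fun i =>
    bif decide (j ≤ i + 1) then min (ncap M x) (wgt M B x e q i + Q.getD i 0) else 0

/-- The labelling with the new label. -/
def newLab (M B : ℕ) (x : Inst) (q : ℕ) (lab : List ℕ) (j : ℕ) : List ℕ :=
  (List.range x.1).map fun v => bif decide (v = q) then j else min (B * M + 1) (lab.getD v 0)

/-- Add the root `q`. -/
def finT (M B : ℕ) (x : Inst) (e q : ℕ) (t : Tab) : Tab :=
  prune M B x (t.flatMap fun en =>
    ((List.range (B * M + 2)).filter fun j => okB M B x e q en.1 j).map fun j =>
      (newP M B x e q en.1 j, newLab M B x q en.2 j))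

/-- Union of two forests. -/
def combT (M B : ℕ) (x : Inst) (t u : Tab) : Tab :=
  prune M B x (t.flatMap fun a => u.map fun b =>
    ((List.range (B * M)).map fun i => min (ncap M x) (a.1.getD i 0 + b.1.getD i 0),
     (List.range x.1).map fun v => min (B * M + 1) (max (a.2.getD v 0) (b.2.getD v 0))))

/-- The table of the empty forest. -/
def t0 (M B : ℕ) (x : Inst) : Tab := [(List.replicate (B * M) 0, List.replicate x.1 0)]

/-- The table of a forest. -/
def asmT (M B : ℕ) (x : Inst) (l : List Tab) : Tab :=
  l.foldl (fun acc t => combT M B x t acc) (t0 M B x)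

/-- The value for the dynamic programme. -/
def gT (M B : ℕ) (x : Inst) (e : ℕ) (v : ℕ) (l : List Tab) : Tab :=
  finT M B x e v (asmT M B x l)

/-- An optimal labelling for the block of octaves with the first octave `e`. -/
def solve (M B : ℕ) (x : Inst) (e : ℕ) : List ℕ :=
  ((pick (fun e b => leB (costL M x e.2) (costL M x b.2))
    (asmT M B x ((gelim x (gT M B x e) (sorder x).reverse).map Prod.snd))).map Prod.snd).flatten

/-! ### Combination -/

/-- The number of blocks. -/
def nblk (x : Inst) : ℕ := x.1 + (x.2.2.2.map List.length).sum + 1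

/-- The global labelling for the offset `o`. -/
def glab (M B : ℕ) (x : Inst) (sols : List (List ℕ)) (o : ℕ) : List ℕ :=
  (List.range x.1).map fun v =>
    ((List.range (nblk x)).map fun r =>
      bif decide ((sols.getD (o + r * B) []).getD v 0 = 0) then 0
        else (o + r * B) * M + (sols.getD (o + r * B) []).getD v 0).foldl max 0

/-- The vertices in the order of their labels. -/
def ordL (x : Inst) (lab : List ℕ) (S : ℕ) : List ℕ :=
  (List.range (S + 1)).flatMap fun s => (List.range x.1).filter fun v => decide (lab.getD v 0 = s)

/-- The largest possible label. -/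
def smax (M B : ℕ) (x : Inst) : ℕ := B * nblk x * M + (B * M + 1)

/-- The best labelling. -/
def bestLab (M B : ℕ) (x : Inst) : List ℕ :=
  (pick (fun a b => leB (costL M x a) (costL M x b))
    ((List.range B).map (glab M B x ((List.range (B * nblk x)).map (solve M B x))))).flatten

/-- The algorithm. -/
def algo (M B : ℕ) (x : Inst) : Strat := dtree x (ordL x (bestLab M B x) (smax M B x))

end Pool.Agent.Work.MP_62a643_lc
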