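import Pool.Agent.Work.MP_62a643_lc.Values

/-!
Module Arith: estimates for the cost function `pay` and the rounding of the weights.

`pay M 0 = 0` and `pay M (s + 1) = T s` with `T s = 2 ^ (s / M) * (M + s % M)`.
* `T` is increasing; `M * T (s + 1) ≤ (M + 1) * T s`; `T (e * M + i) = 2 ^ e * T i`.
* `pay_level` (existence of the label): if `a = 0` take `0`. Otherwise let `s` be least with
  `M * 2 ^ B * a ≤ T s`; here `M * 2 ^ B * a > M = T 0` because `0 < B`, so `s ≥ 1` and
  `T (s - 1) < M * 2 ^ B * a`.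
* `wgt_of_le`: `wgt` is at most the floor of `2 ^ B * (n * M * w v) / 2 ^ (e + i / M)`, and
  `∑ ⌊x_v / d⌋ ≤ (∑ x_v) / d`; `T (e * M + i) = 2 ^ (e + i / M) * (M + i % M)`.
* `le_of_wgt`: if the sum of the `wgt` is at most `kap M x i = n * (M + i % M) < 2 * n * M` then no
  `wgt` is truncated, so with `d = 2 ^ (e + i / M)`:
  `2 ^ B * n * M * w v < d * (wgt v + 1)`, and the sum over `v ∈ X` (at most `n` elements) is at
  most `d * (kap + n) = d * n * (M + i % M + 1) = n * T (e * M + i + 1)` (two cases,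
  `i % M + 1 < M` or `= M`). Cancel `n`.
* `sum_blocks`: for a label `l = s + 1`, `s = a * M + b` with `b < M`: the terms with `e > a`
  vanish, the at most `B` terms with `a - B < e ≤ a` are `T s`, and the terms with
  `e + B ≤ a` are `2 ^ e * T (B * M) = 2 ^ (e + B) * M`, with sum at most
  `2 ^ (a + 1) * M ≤ 2 * T s`.
-/

set_option autoImplicit false

namespace Pool.Agent.Work.MP_62a643_lc

private theorem pay_T {M : ℕ} (hM : 0 < M) (a b : ℕ) (hb : b ≤ M) :
    pay M (a * M + b + 1) = 2 ^ a * (M + b) := by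
  rcases Nat.lt_or_eq_of_le hb with hb | hb
  · have h1 : (a * M + b) / M = a := by
      rw [mul_comm, Nat.mul_add_div hM, Nat.div_eq_of_lt hb, add_zero]
    have h2 : (a * M + b) % M = b := by
      rw [mul_comm, Nat.mul_add_mod, Nat.mod_eq_of_lt hb]
    simp only [pay]
    rw [h1, h2]
  · subst hb
    have h1 : (a * b + b) / b = a + 1 := by
      rw [show a * b + b = b * (a + 1) by ring, Nat.mul_div_cancel_left _ hM]
    have h2 : (a * b + b) % b = 0 := by
      rw [show a * b + b = b * (a + 1) by ring, Nat.mul_mod_right]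
    simp only [pay]
    rw [h1, h2, pow_succ]
    ring

private theorem exists_ab {M : ℕ} (hM : 0 < M) (s : ℕ) : ∃ a b, s = a * M + b ∧ b < M := by
  refine ⟨s / M, s % M, ?_, Nat.mod_lt _ hM⟩
  have := Nat.div_add_mod s M
  rw [mul_comm] at this
  exact this.symm

theorem pay_mono {M : ℕ} (hM : 0 < M) : Monotone (pay M) := by
  apply monotone_nat_of_le_succ
  intro s
  cases s with
  | zero => simp [pay]
  | succ t =>
    obtain ⟨a, b, rfl, hb⟩ := exists_ab hM t
    rw [pay_T hM a b hb.le, show a * M + b + 1 + 1 = a * M + (b + 1) + 1 by ring,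
      pay_T hM a (b + 1) hb]
    exact Nat.mul_le_mul_left _ (by omega)

theorem pay_succ_le {M : ℕ} (hM : 0 < M) (s : ℕ) :
    M * pay M (s + 2) ≤ (M + 1) * pay M (s + 1) := by
  obtain ⟨a, b, rfl, hb⟩ := exists_ab hM s
  rw [pay_T hM a b hb.le, show a * M + b + 2 = a * M + (b + 1) + 1 by ring,
    pay_T hM a (b + 1) hb]
  calc M * (2 ^ a * (M + (b + 1))) = 2 ^ a * (M * (M + (b + 1))) := by ring
    _ ≤ 2 ^ a * ((M + 1) * (M + b)) := by
        apply Nat.mul_le_mul_left
        nlinarith
    _ = (M + 1) * (2 ^ a * (M + b)) := by ring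

theorem pay_shift {M : ℕ} (hM : 0 < M) (e j : ℕ) (hj : 0 < j) :
    pay M (e * M + j) = 2 ^ e * pay M j := by
  obtain ⟨j', rfl⟩ : ∃ j', j = j' + 1 := ⟨j - 1, by omega⟩
  obtain ⟨a, b, rfl, hb⟩ := exists_ab hM j'
  rw [pay_T hM a b hb.le, show e * M + (a * M + b + 1) = (e + a) * M + b + 1 by ring,
    pay_T hM (e + a) b hb.le, pow_add]
  ring

theorem pay_level {M B : ℕ} (hM : 0 < M) (hB : 0 < B) (a : ℕ) :
    ∃ l : ℕ, (a = 0 → l = 0) ∧ M * (2 ^ B * a) ≤ pay M l ∧
      pay M l ≤ (M + 1) * (2 ^ B * a) ∧ ∀ l', M * (2 ^ B * a) ≤ pay M l' → l ≤ l' := by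
  rcases Nat.eq_zero_or_pos a with ha | ha
  · subst ha
    exact ⟨0, fun _ => rfl, by simp, by simp [pay], fun _ _ => Nat.zero_le _⟩
  · have hex : ∃ l, M * (2 ^ B * a) ≤ pay M l := by
      refine ⟨(2 ^ B * a) * M + 0 + 1, ?_⟩
      rw [pay_T hM _ 0 (Nat.zero_le _), add_zero, mul_comm]
      exact Nat.mul_le_mul_right _ Nat.lt_two_pow_self.le
    classical
    refine ⟨Nat.find hex, fun h => by omega, Nat.find_spec hex, ?_, fun l' hl' =>
      Nat.find_min' hex hl'⟩
    have hspec := Nat.find_spec hex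
    obtain ⟨l, hl⟩ : ∃ l, l = Nat.find hex := ⟨_, rfl⟩
    rw [← hl] at hspec ⊢
    have h2B : 2 ≤ 2 ^ B := by
      calc 2 = 2 ^ 1 := by norm_num
        _ ≤ 2 ^ B := Nat.pow_le_pow_right (by norm_num) hB
    have hbig : 2 ≤ 2 ^ B * a := by nlinarith
    match l, hl, hspec with
    | 0, _, hspec =>
      simp only [pay] at hspec
      have : 0 < M * (2 ^ B * a) := by positivity
      omega
    | 1, _, hspec =>
      have h1 : pay M 1 = M := by simp [pay]
      rw [h1] at hspec
      nlinarith
    | s + 2, hl, hspec =>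
      have hlt : pay M (s + 1) < M * (2 ^ B * a) := by
        have := Nat.find_min hex (m := s + 1) (by omega)
        omega
      have h1 := pay_succ_le hM s
      have h2 : M * pay M (s + 2) ≤ M * ((M + 1) * (2 ^ B * a)) := by
        calc M * pay M (s + 2) ≤ (M + 1) * pay M (s + 1) := h1
          _ ≤ (M + 1) * (M * (2 ^ B * a)) := Nat.mul_le_mul_left _ hlt.le
          _ = M * ((M + 1) * (2 ^ B * a)) := by ring
      exact Nat.le_of_mul_le_mul_left h2 hM

private theorem pay_ei {M : ℕ} (hM : 0 < M) (e i : ℕ) :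
    pay M (e * M + i + 1) = 2 ^ (e + i / M) * (M + i % M) := by
  have h := Nat.div_add_mod i M
  have h1 : e * M + i + 1 = (e + i / M) * M + i % M + 1 := by
    rw [add_mul, mul_comm (i / M) M]; omega
  rw [h1, pay_T hM _ _ (Nat.mod_lt _ hM).le]

private theorem pay_ei2 {M : ℕ} (hM : 0 < M) (e i : ℕ) :
    pay M (e * M + i + 2) = 2 ^ (e + i / M) * (M + i % M + 1) := by
  have h := Nat.div_add_mod i M
  have h1 : e * M + i + 2 = (e + i / M) * M + (i % M + 1) + 1 := by
    rw [add_mul, mul_comm (i / M) M]; omega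
  rw [h1, pay_T hM _ (i % M + 1) (Nat.mod_lt _ hM), ← add_assoc]

theorem wgt_of_le {M : ℕ} (hM : 0 < M) (B : ℕ) (x : Inst) (e i : ℕ) (X : Finset ℕ)
    (h : M * (2 ^ B * ∑ v ∈ X, entry x.2.2.2 v) ≤ pay M (e * M + i + 1)) :
    ∑ v ∈ X, wgt M B x e v i ≤ kap M x i := by
  rw [kap_eq hM]
  rw [pay_ei hM] at h
  have hd : 0 < 2 ^ (e + i / M) := by positivity
  have h1 : (∑ v ∈ X, wgt M B x e v i) * 2 ^ (e + i / M) ≤
      ∑ v ∈ X, 2 ^ B * (x.1 * M * entry x.2.2.2 v) := by
    rw [Finset.sum_mul]
    refine Finset.sum_le_sum fun v _ => ?_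
    rw [wgt_eq hM]
    exact (Nat.mul_le_mul_right _ (min_le_left _ _)).trans (Nat.div_mul_le_self _ _)
  have h2 : ∑ v ∈ X, 2 ^ B * (x.1 * M * entry x.2.2.2 v) =
      x.1 * (M * (2 ^ B * ∑ v ∈ X, entry x.2.2.2 v)) := by
    rw [Finset.mul_sum, Finset.mul_sum, Finset.mul_sum]
    refine Finset.sum_congr rfl fun v _ => ?_
    ring
  rw [h2] at h1
  have h3 : (∑ v ∈ X, wgt M B x e v i) * 2 ^ (e + i / M) ≤
      (x.1 * (M + i % M)) * 2 ^ (e + i / M) := by
    calc _ ≤ _ := h1
      _ ≤ x.1 * (2 ^ (e + i / M) * (M + i % M)) := Nat.mul_le_mul_left _ h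
      _ = _ := by ring
  exact Nat.le_of_mul_le_mul_right h3 hd

theorem le_of_wgt {M : ℕ} (hM : 0 < M) (B : ℕ) (x : Inst) (e i : ℕ) (X : Finset ℕ)
    (hX : X ⊆ Finset.range x.1) (h : ∑ v ∈ X, wgt M B x e v i ≤ kap M x i) :
    M * (2 ^ B * ∑ v ∈ X, entry x.2.2.2 v) ≤ pay M (e * M + i + 2) := by
  rw [kap_eq hM] at h
  rw [pay_ei2 hM]
  rcases Nat.eq_zero_or_pos x.1 with hn | hn
  · rw [hn] at hX
    have : X = ∅ := by simpa using hX
    rw [this]
    simp
  · have hd : 0 < 2 ^ (e + i / M) := by positivity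
    have hcap : x.1 * (M + i % M) < ncap M x := by
      unfold ncap
      have := Nat.mod_lt i hM
      nlinarith
    have hcard : X.card ≤ x.1 := by
      have := Finset.card_le_card hX
      rwa [Finset.card_range] at this
    have h1 : ∀ v ∈ X, 2 ^ B * (x.1 * M * entry x.2.2.2 v) ≤
        2 ^ (e + i / M) * (wgt M B x e v i + 1) := by
      intro v hv
      have h2 : wgt M B x e v i ≤ x.1 * (M + i % M) :=
        (Finset.single_le_sum (f := fun v => wgt M B x e v i) (fun _ _ => Nat.zero_le _) hv).trans h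
      have h3 : wgt M B x e v i = 2 ^ B * (x.1 * M * entry x.2.2.2 v) / 2 ^ (e + i / M) := by
        rw [wgt_eq hM] at h2 ⊢
        rcases min_choice (2 ^ B * (x.1 * M * entry x.2.2.2 v) / 2 ^ (e + i / M)) (ncap M x)
          with h4 | h4
        · exact h4
        · rw [h4] at h2
          omega
      rw [h3]
      exact (Nat.lt_mul_div_succ _ hd).le
    have h2 : ∑ v ∈ X, 2 ^ B * (x.1 * M * entry x.2.2.2 v) =
        x.1 * (M * (2 ^ B * ∑ v ∈ X, entry x.2.2.2 v)) := by
      rw [Finset.mul_sum, Finset.mul_sum, Finset.mul_sum]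
      refine Finset.sum_congr rfl fun v _ => ?_
      ring
    have h3 := Finset.sum_le_sum h1
    rw [h2, ← Finset.mul_sum, Finset.sum_add_distrib, Finset.sum_const, smul_eq_mul, mul_one] at h3
    have h4 : x.1 * (M * (2 ^ B * ∑ v ∈ X, entry x.2.2.2 v)) ≤
        x.1 * (2 ^ (e + i / M) * (M + i % M + 1)) := by
      calc _ ≤ _ := h3
        _ ≤ 2 ^ (e + i / M) * (x.1 * (M + i % M) + x.1) := Nat.mul_le_mul_left _ (by omega)
        _ = _ := by ring
    exact Nat.le_of_mul_le_mul_left h4 hn

/-- The part of the label `l` in the block `e`. -/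
def part (M B e l : ℕ) : ℕ :=
  if l ≤ e * M then 0 else if l ≤ e * M + B * M then l - e * M else B * M + 1

private theorem sum_two_pow (k : ℕ) : ∑ e ∈ Finset.range k, 2 ^ e < 2 ^ k := by
  induction k with
  | zero => simp
  | succ k ih => rw [Finset.sum_range_succ, pow_succ]; omega

theorem sum_blocks {M B : ℕ} (hM : 0 < M) (l E : ℕ) :
    ∑ e ∈ Finset.range E, 2 ^ e * pay M (part M B e l) ≤ (B + 2) * pay M l := by
  rcases Nat.eq_zero_or_pos l with hl | hl
  · subst hl
    have : ∀ e ∈ Finset.range E, 2 ^ e * pay M (part M B e 0) = 0 := by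
      intro e _
      simp [part, pay]
    rw [Finset.sum_eq_zero this]
    exact Nat.zero_le _
  · obtain ⟨s, rfl⟩ : ∃ s, l = s + 1 := ⟨l - 1, by omega⟩
    obtain ⟨a, b, rfl, hb⟩ := exists_ab hM s
    have hT := pay_T hM a b hb.le
    obtain ⟨T, hTdef⟩ : ∃ T, T = 2 ^ a * (M + b) := ⟨_, rfl⟩
    rw [hT, ← hTdef]
    -- the single terms
    have hterm : ∀ e, 2 ^ e * pay M (part M B e (a * M + b + 1)) ≤
        (if e ≤ a ∧ a < e + B then T else 0) + (if e + B ≤ a then 2 ^ (e + B) * M else 0) := by
      intro e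
      unfold part
      by_cases h1 : a < e
      · have : a * M + b + 1 ≤ e * M := by
          have : (a + 1) * M ≤ e * M := Nat.mul_le_mul_right _ h1
          have h2 : (a + 1) * M = a * M + M := by ring
          omega
        rw [if_pos this]
        simp [pay]
      · have h1' : e ≤ a := by omega
        have hlt : ¬ a * M + b + 1 ≤ e * M := by
          have : e * M ≤ a * M := Nat.mul_le_mul_right _ h1'
          omega
        rw [if_neg hlt]
        by_cases h2 : a < e + B
        · have h3 : a * M + b + 1 ≤ e * M + B * M := by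
            have : (a + 1) * M ≤ (e + B) * M := Nat.mul_le_mul_right _ h2
            have h4 : (a + 1) * M = a * M + M := by ring
            have h5 : (e + B) * M = e * M + B * M := by ring
            omega
          rw [if_pos h3, if_pos ⟨h1', h2⟩]
          have h4 : a * M + b + 1 - e * M = (a - e) * M + b + 1 := by
            rw [Nat.sub_mul]
            have : e * M ≤ a * M := Nat.mul_le_mul_right _ h1'
            omega
          rw [h4, pay_T hM _ b hb.le, ← mul_assoc, ← pow_add, show e + (a - e) = a by omega,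
            ← hTdef]
          omega
        · have h3 : ¬ a * M + b + 1 ≤ e * M + B * M := by
            have : (e + B) * M ≤ a * M := Nat.mul_le_mul_right _ (by omega)
            have h5 : (e + B) * M = e * M + B * M := by ring
            omega
          rw [if_neg h3, if_pos (show e + B ≤ a by omega)]
          have h4 : pay M (B * M + 1) = 2 ^ B * M := by
            have := pay_T hM B 0 (Nat.zero_le _)
            simpa using this
          rw [h4, ← mul_assoc, ← pow_add]
          exact Nat.le_add_left _ _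
    have hsub : ∑ e ∈ Finset.range E, 2 ^ e * pay M (part M B e (a * M + b + 1)) ≤
        ∑ e ∈ Finset.range E, (if e ≤ a ∧ a < e + B then T else 0) +
          ∑ e ∈ Finset.range E, (if e + B ≤ a then 2 ^ (e + B) * M else 0) := by
      rw [← Finset.sum_add_distrib]
      exact Finset.sum_le_sum fun e _ => hterm e
    have hs1 : ∑ e ∈ Finset.range E, (if e ≤ a ∧ a < e + B then T else 0) ≤ B * T := by
      rw [← Finset.sum_filter, Finset.sum_const, smul_eq_mul]
      apply Nat.mul_le_mul_right
      have h1 : (Finset.range E).filter (fun e => e ≤ a ∧ a < e + B) ⊆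
          Finset.Ico (a + 1 - B) (a + 1) := by
        intro e he
        rw [Finset.mem_filter] at he
        rw [Finset.mem_Ico]
        omega
      have h2 := Finset.card_le_card h1
      rw [Nat.card_Ico] at h2
      omega
    have hs2 : ∑ e ∈ Finset.range E, (if e + B ≤ a then 2 ^ (e + B) * M else 0) ≤ 2 * T := by
      rw [← Finset.sum_filter]
      have h1 : (Finset.range E).filter (fun e => e + B ≤ a) ⊆ Finset.range (a + 1 - B) := by
        intro e he
        rw [Finset.mem_filter] at he
        rw [Finset.mem_range]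
        omega
      calc _ ≤ ∑ e ∈ Finset.range (a + 1 - B), 2 ^ (e + B) * M :=
            Finset.sum_le_sum_of_subset h1
        _ = (∑ e ∈ Finset.range (a + 1 - B), 2 ^ e) * (2 ^ B * M) := by
            rw [Finset.sum_mul]
            refine Finset.sum_congr rfl fun e _ => ?_
            rw [pow_add]; ring
        _ ≤ 2 * T := by
            rcases Nat.lt_or_ge a B with h2 | h2
            · rw [show a + 1 - B = 0 by omega]
              simp
            · have h3 := sum_two_pow (a + 1 - B)
              calc _ ≤ 2 ^ (a + 1 - B) * (2 ^ B * M) := Nat.mul_le_mul_right _ h3.le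
                _ = 2 ^ (a + 1) * M := by
                    rw [← mul_assoc, ← pow_add, show a + 1 - B + B = a + 1 by omega]
                _ = 2 * (2 ^ a * M) := by rw [pow_succ]; ring
                _ ≤ 2 * T := by
                    rw [hTdef]
                    exact Nat.mul_le_mul_left _ (Nat.mul_le_mul_left _ (by omega))
    calc _ ≤ _ := hsub
      _ ≤ B * T + 2 * T := Nat.add_le_add hs1 hs2
      _ = (B + 2) * T := by ring

end Pool.Agent.Work.MP_62a643_lc
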