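import Pool.Agent.Work.MP_62a643_lc.Spec

/-!
Module Conn: cuts and connectivity, and the two facts about trees which are used.
-/

set_option autoImplicit false

namespace Pool.Agent.Work.MP_62a643_lc

private theorem graphOf_adj {n : ℕ} {E : List (ℕ × ℕ)} {u v : ℕ} :
    (graphOf n E).Adj u v ↔ u ≠ v ∧ u < n ∧ v < n ∧ ((u, v) ∈ E ∨ (v, u) ∈ E) := by
  unfold graphOf
  rw [SimpleGraph.fromRel_adj]
  tauto

theorem adjB_iff {x : Inst} {u v : ℕ} :
    adjB x u v = true ↔ (graphOf x.1 x.2.1).Adj u v := by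
  rw [graphOf_adj]
  unfold adjB
  simp only [Bool.and_eq_true, Bool.or_eq_true, Bool.not_eq_true', decide_eq_true_eq,
    decide_eq_false_iff_not, Pool.Agent.Work.PolyTime.memB_iff]
  tauto

theorem graphOf_adj_lt {n : ℕ} {E : List (ℕ × ℕ)} {u v : ℕ} (h : (graphOf n E).Adj u v) :
    u < n ∧ v < n := by
  rw [graphOf_adj] at h
  exact ⟨h.2.1, h.2.2.1⟩

theorem cn_singleton (G : SimpleGraph ℕ) (v : ℕ) : Cn G {v} := by
  refine ⟨Finset.singleton_nonempty v, fun Y hY hne _ => ?_⟩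
  rcases Finset.subset_singleton_iff.1 hY with h | h
  · rw [h] at hne; exact absurd hne Finset.not_nonempty_empty
  · exact h

private theorem mem_foldr_union {l : List (Finset ℕ)} {x : ℕ} :
    x ∈ l.foldr (fun X Y => X ∪ Y) ∅ ↔ ∃ X ∈ l, x ∈ X := by
  induction l with
  | nil => simp
  | cons a l ih => simp [ih]

/-- A vertex together with connected sets adjacent to it. -/
theorem cn_star (G : SimpleGraph ℕ) (v : ℕ) (l : List (Finset ℕ))
    (h : ∀ X ∈ l, Cn G X ∧ ∃ u ∈ X, G.Adj v u) :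
    Cn G (insert v (l.foldr (fun X Y => X ∪ Y) ∅)) := by
  refine ⟨Finset.insert_nonempty _ _, fun Y hY hne hcl => ?_⟩
  have hT : ∀ X ∈ l, ∀ x ∈ X, x ∈ insert v (l.foldr (fun X Y => X ∪ Y) ∅) := fun X hX x hx =>
    Finset.mem_insert_of_mem (mem_foldr_union.2 ⟨X, hX, hx⟩)
  have key : ∀ X ∈ l, (∃ x ∈ X, x ∈ Y) → X ⊆ Y := by
    intro X hX hx
    have h1 := (h X hX).1.2 (Y ∩ X) Finset.inter_subset_right (by
      obtain ⟨x, hx1, hx2⟩ := hx
      exact ⟨x, Finset.mem_inter.2 ⟨hx2, hx1⟩⟩) (by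
      intro a ha b hb hab
      rw [Finset.mem_inter] at ha ⊢
      exact ⟨hcl a ha.1 b (hT X hX b hb) hab, hb⟩)
    rw [← h1]; exact Finset.inter_subset_left
  have hv : v ∈ Y := by
    obtain ⟨y, hy⟩ := hne
    rcases Finset.mem_insert.1 (hY hy) with h1 | h1
    · rw [← h1]; exact hy
    · obtain ⟨X, hX, hyX⟩ := mem_foldr_union.1 h1
      obtain ⟨u, hu, huv⟩ := (h X hX).2
      exact hcl u (key X hX ⟨y, hyX, hy⟩ hu) v (Finset.mem_insert_self _ _) huv.symm
  apply Finset.Subset.antisymm hY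
  intro x hx
  rcases Finset.mem_insert.1 hx with h1 | h1
  · rw [h1]; exact hv
  · obtain ⟨X, hX, hxX⟩ := mem_foldr_union.1 h1
    obtain ⟨u, hu, huv⟩ := (h X hX).2
    exact key X hX ⟨u, hu, hcl v hv u (hT X hX u hu) huv⟩ hxX

theorem connected_of_cn {G : SimpleGraph ℕ} {X : Finset ℕ} (h : Cn G X) :
    (G.induce (X : Set ℕ)).Connected := by
  classical
  obtain ⟨a, ha⟩ := h.1
  have hY := h.2 (X.filter fun y => ∃ hy : y ∈ (X : Set ℕ),
      (G.induce (X : Set ℕ)).Reachable ⟨a, ha⟩ ⟨y, hy⟩) (Finset.filter_subset _ _)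
    ⟨a, Finset.mem_filter.2 ⟨ha, ha, SimpleGraph.Reachable.refl _⟩⟩ (by
      intro u hu v hv huv
      rw [Finset.mem_filter] at hu ⊢
      obtain ⟨hu1, hu2, hu3⟩ := hu
      refine ⟨hv, hv, hu3.trans (SimpleGraph.Adj.reachable ?_)⟩
      exact huv)
  have hreach : ∀ y (hy : y ∈ (X : Set ℕ)), (G.induce (X : Set ℕ)).Reachable ⟨a, ha⟩ ⟨y, hy⟩ := by
    intro y hy
    have hy' : y ∈ X := hy
    rw [← hY] at hy'
    exact (Finset.mem_filter.1 hy').2.2
  have : Nonempty (X : Set ℕ) := ⟨⟨a, ha⟩⟩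
  refine SimpleGraph.Connected.mk fun u v => ?_
  exact (hreach u.1 u.2).symm.trans (hreach v.1 v.2)

theorem tree_cn {n : ℕ} {E : List (ℕ × ℕ)} (h : IsTreeOn n E) :
    Cn (graphOf n E) (Finset.range n) := by
  have hc := h.1
  obtain ⟨a, ha⟩ := hc.nonempty
  refine ⟨⟨a, Finset.mem_range.2 ha⟩, fun Y hY hne hcl => ?_⟩
  apply Finset.Subset.antisymm hY
  obtain ⟨y, hy⟩ := hne
  have hyn : y < n := Finset.mem_range.1 (hY hy)
  intro z hz
  have hzn : z < n := Finset.mem_range.1 hz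
  have key : ∀ (u w : {v // v ∈ {v | v < n}}) (_ : ((graphOf n E).induce {v | v < n}).Walk u w),
      u.1 ∈ Y → w.1 ∈ Y := by
    intro u w p
    induction p with
    | nil => exact id
    | @cons u v w hadj p ih =>
      intro hu
      exact ih (hcl u.1 hu v.1 (Finset.mem_range.2 v.2) hadj)
  obtain ⟨p⟩ := hc.preconnected ⟨y, hyn⟩ ⟨z, hzn⟩
  exact key _ _ p hy

theorem tree_uniq {n : ℕ} {E : List (ℕ × ℕ)} (h : IsTreeOn n E) {L : Finset ℕ}
    (hL : L ⊆ Finset.range n) (hc : Cn (graphOf n E) L) {v u u' : ℕ} (hv : v ∉ L) (hu : u ∈ L) (hu' : u' ∈ L)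
    (h1 : (graphOf n E).Adj v u) (h2 : (graphOf n E).Adj v u') : u = u' := by
  classical
  by_contra hne
  have hn : ∀ z ∈ L, z < n := fun z hz => Finset.mem_range.1 (hL hz)
  have hvn : v < n := (graphOf_adj_lt h1).1
  set H := (graphOf n E).induce {v | v < n} with hH
  have hbr := SimpleGraph.isAcyclic_iff_forall_isBridge.1 h.2
    (show s((⟨v, hvn⟩ : {v // v ∈ {v | v < n}}), ⟨u, hn u hu⟩) ∈ H.edgeSet from h1)
  rw [SimpleGraph.isBridge_iff] at hbr
  apply hbr
  have hY := hc.2 (L.filter fun y => ∃ hy : y < n,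
      (H.deleteEdges {s((⟨v, hvn⟩ : {v // v ∈ {v | v < n}}), ⟨u, hn u hu⟩)}).Reachable
        ⟨u', hn u' hu'⟩ ⟨y, hy⟩) (Finset.filter_subset _ _)
    ⟨u', Finset.mem_filter.2 ⟨hu', hn u' hu', SimpleGraph.Reachable.refl _⟩⟩ (by
      intro a ha b hb hab
      rw [Finset.mem_filter] at ha ⊢
      obtain ⟨ha1, ha2, ha3⟩ := ha
      refine ⟨hb, hn b hb, ha3.trans (SimpleGraph.Adj.reachable ?_)⟩
      rw [SimpleGraph.deleteEdges_adj]
      refine ⟨hab, ?_⟩
      rw [Set.mem_singleton_iff, Sym2.eq_iff]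
      rintro (⟨h3, -⟩ | ⟨-, h3⟩)
      · apply hv
        have := congrArg Subtype.val h3
        simp only at this
        rw [← this]; exact ha1
      · apply hv
        have := congrArg Subtype.val h3
        simp only at this
        rw [← this]; exact hb)
  have hu2 := hu
  rw [← hY, Finset.mem_filter] at hu2
  obtain ⟨_, _, hr⟩ := hu2
  refine SimpleGraph.Reachable.trans (SimpleGraph.Adj.reachable ?_) hr
  rw [SimpleGraph.deleteEdges_adj]
  refine ⟨h2, ?_⟩
  rw [Set.mem_singleton_iff, Sym2.eq_iff]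
  rintro (⟨-, h3⟩ | ⟨h3, -⟩)
  · exact hne (congrArg Subtype.val h3).symm
  · exact hv (by
      have := congrArg Subtype.val h3
      simp only at this
      rw [this]; exact hu)

end Pool.Agent.Work.MP_62a643_lc
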