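import Pool.Agent.Work.MP_62a643_lc.Spec

/-!
Module Cost: the cost of decision trees.
-/

set_option autoImplicit false

namespace Pool.Agent.Work.MP_62a643_lc

theorem valid_verts {G : SimpleGraph ℕ} {S : Set ℕ} {D : Strat} (h : D.Valid G S) :
    D.verts.Nodup ∧ ∀ v, v ∈ D.verts ↔ v ∈ S := by
  induction D generalizing S with
  | nil =>
    have h' : S = ∅ := h
    subst h'
    exact ⟨List.nodup_nil, fun v => by simp [Strat.verts]⟩
  | cons q sub rest ih1 ih2 =>
    obtain ⟨C, hCS, -, -, hq, h1, h2⟩ := h
    obtain ⟨n1, m1⟩ := ih1 h1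
    obtain ⟨n2, m2⟩ := ih2 h2
    constructor
    · simp only [Strat.verts]
      rw [List.nodup_cons, List.nodup_append]
      refine ⟨?_, n1, n2, ?_⟩
      · rw [List.mem_append, m1, m2]
        rintro (h | h)
        · exact h.2 rfl
        · exact h.2 hq
      · intro u hu v hv huv
        rw [m1] at hu
        rw [m2] at hv
        rw [huv] at hu
        exact hv.2 hu.1
    · intro v
      simp only [Strat.verts]
      rw [List.mem_cons, List.mem_append, m1, m2]
      constructor
      · rintro (h | h | h)
        · rw [h]; exact hCS hq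
        · exact hCS h.1
        · exact h.1
      · intro h
        by_cases h3 : v = q
        · exact Or.inl h3
        by_cases h4 : v ∈ C
        · exact Or.inr (Or.inl ⟨h4, h3⟩)
        · exact Or.inr (Or.inr ⟨h, h4⟩)

private theorem cost_split {q : ℕ} {sub rest : Strat}
    (h : (Strat.cons q sub rest).verts.Nodup) :
    q ∉ sub.verts ∧ q ∉ rest.verts ∧ sub.verts.Nodup ∧ rest.verts.Nodup ∧
      ∀ v ∈ rest.verts, v ∉ sub.verts := by
  simp only [Strat.verts] at h
  rw [List.nodup_cons, List.nodup_append, List.mem_append] at h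
  obtain ⟨h1, h2, h3, h4⟩ := h
  exact ⟨fun h => h1 (Or.inl h), fun h => h1 (Or.inr h), h2, h3,
    fun v hv hv' => h4 v hv' v hv rfl⟩

private theorem cost_sum_path (c w : ℕ → ℕ) (D : Strat) (h : D.verts.Nodup) :
    (D.verts.map fun y => w y * ((D.path y).map c).sum).sum = scost c w D := by
  induction D with
  | nil => rfl
  | cons q sub rest ih1 ih2 =>
    obtain ⟨hq1, hq2, n1, n2, hd⟩ := cost_split h
    have e1 : (sub.verts.map fun y => w y * (((Strat.cons q sub rest).path y).map c).sum) =
        sub.verts.map fun y => w y * c q + w y * ((sub.path y).map c).sum := by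
      refine List.map_congr_left fun y hy => ?_
      have hne : y ≠ q := fun h => hq1 (h ▸ hy)
      simp only [Strat.path, if_neg hne, if_pos hy, List.map_cons, List.sum_cons]
      ring
    have e2 : (rest.verts.map fun y => w y * (((Strat.cons q sub rest).path y).map c).sum) =
        rest.verts.map fun y => w y * ((rest.path y).map c).sum := by
      refine List.map_congr_left fun y hy => ?_
      have hne : y ≠ q := fun h => hq2 (h ▸ hy)
      simp only [Strat.path, if_neg hne, if_neg (hd y hy)]
    have e3 : (Strat.cons q sub rest).verts = q :: (sub.verts ++ rest.verts) := rfl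
    rw [e3, List.map_cons, List.sum_cons, List.map_append, List.sum_append, e1, e2, ih2 n2,
      List.sum_map_add, ih1 n1, List.sum_map_mul_right]
    simp only [Strat.path, if_pos, List.map_cons, List.map_nil, List.sum_cons, List.sum_nil, scost]
    ring

private theorem cost_sum_hw (c w : ℕ → ℕ) (D : Strat) (h : D.verts.Nodup) :
    (D.verts.map fun y => c y * hw w D y).sum = scost c w D := by
  induction D with
  | nil => rfl
  | cons q sub rest ih1 ih2 =>
    obtain ⟨hq1, hq2, n1, n2, hd⟩ := cost_split h
    have e1 : (sub.verts.map fun y => c y * hw w (Strat.cons q sub rest) y) =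
        sub.verts.map fun y => c y * hw w sub y := by
      refine List.map_congr_left fun y hy => ?_
      have hne : y ≠ q := fun h => hq1 (h ▸ hy)
      simp only [hw, if_neg hne, if_pos hy]
    have e2 : (rest.verts.map fun y => c y * hw w (Strat.cons q sub rest) y) =
        rest.verts.map fun y => c y * hw w rest y := by
      refine List.map_congr_left fun y hy => ?_
      have hne : y ≠ q := fun h => hq2 (h ▸ hy)
      simp only [hw, if_neg hne, if_neg (hd y hy)]
    have e3 : (Strat.cons q sub rest).verts = q :: (sub.verts ++ rest.verts) := rfl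
    rw [e3, List.map_cons, List.sum_cons, List.map_append, List.sum_append, e1, e2, ih2 n2,
      ih1 n1]
    simp only [hw, if_pos, scost]
    ring

private theorem cost_range {n : ℕ} {D : Strat} (h1 : D.verts.Nodup)
    (h2 : ∀ v, v ∈ D.verts ↔ v < n) (f : ℕ → ℕ) :
    ∑ x ∈ Finset.range n, f x = (D.verts.map f).sum := by
  have h3 : Finset.range n = D.verts.toFinset := by
    ext v
    rw [Finset.mem_range, List.mem_toFinset, h2]
  rw [h3, List.sum_toFinset f h1]

theorem cost_eq_scost {n : ℕ} {E : List (ℕ × ℕ)} {C W : List (List Bool)} {D : Strat}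
    (h : IsDecisionTree n E D) : cost n C W D = scost (entry C) (entry W) D := by
  obtain ⟨h1, h2⟩ := valid_verts h
  unfold cost
  rw [cost_range h1 (fun v => h2 v), cost_sum_path _ _ _ h1]

theorem cost_eq_hw {n : ℕ} {E : List (ℕ × ℕ)} {C W : List (List Bool)} {D : Strat}
    (h : IsDecisionTree n E D) :
    cost n C W D = ∑ v ∈ Finset.range n, entry C v * hw (entry W) D v := by
  obtain ⟨h1, h2⟩ := valid_verts h
  rw [cost_eq_scost h, cost_range h1 (fun v => h2 v), cost_sum_hw _ _ _ h1]

private theorem cost_weight {G : SimpleGraph ℕ} (w : ℕ → ℕ) {D : Strat} {S : Set ℕ}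
    (h : D.Valid G S) {X : Finset ℕ} (hX : ∀ v ∈ X, v ∈ S) (hc : Cn G X) :
    ∃ q ∈ X, ∑ v ∈ X, w v ≤ hw w D q := by
  induction D generalizing S with
  | nil =>
    have h' : S = ∅ := h
    subst h'
    obtain ⟨x, hx⟩ := hc.1
    exact absurd (hX x hx) (Set.notMem_empty x)
  | cons q sub rest ih1 ih2 =>
    classical
    obtain ⟨C, hCS, -, hcl, hq, h1, h2⟩ := h
    obtain ⟨n1, m1⟩ := valid_verts h1
    obtain ⟨n2, m2⟩ := valid_verts h2
    rcases (X.filter fun v => v ∈ C).eq_empty_or_nonempty with h0 | h0
    · have hXC : ∀ v ∈ X, v ∈ S \ C := by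
        intro v hv
        refine ⟨hX v hv, fun hvC => ?_⟩
        have : v ∈ X.filter fun v => v ∈ C := Finset.mem_filter.mpr ⟨hv, hvC⟩
        rw [h0] at this
        exact absurd this (Finset.notMem_empty v)
      obtain ⟨q', hq', hle⟩ := ih2 h2 hXC
      refine ⟨q', hq', hle.trans (le_of_eq ?_)⟩
      have hne : q' ≠ q := fun h => (hXC q' hq').2 (h ▸ hq)
      have hns : q' ∉ sub.verts := fun h => (hXC q' hq').2 ((m1 q').mp h).1
      simp only [hw, if_neg hne, if_neg hns]
    · have hYX := hc.2 (X.filter fun v => v ∈ C) (Finset.filter_subset _ _) h0 (by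
        intro u hu v hv huv
        rw [Finset.mem_filter] at hu ⊢
        exact ⟨hv, hcl u hu.2 v (hX v hv) huv⟩)
      have hXC : ∀ v ∈ X, v ∈ C := by
        intro v hv
        rw [← hYX, Finset.mem_filter] at hv
        exact hv.2
      by_cases hqX : q ∈ X
      · refine ⟨q, hqX, ?_⟩
        have hsub : X ⊆ insert q sub.verts.toFinset := by
          intro v hv
          rw [Finset.mem_insert, List.mem_toFinset, m1]
          by_cases hvq : v = q
          · exact Or.inl hvq
          · exact Or.inr ⟨hXC v hv, hvq⟩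
        have hqs : q ∉ sub.verts.toFinset := by
          rw [List.mem_toFinset, m1]
          exact fun h => h.2 rfl
        calc ∑ v ∈ X, w v ≤ ∑ v ∈ insert q sub.verts.toFinset, w v :=
              Finset.sum_le_sum_of_subset hsub
          _ = w q + (sub.verts.map w).sum := by
              rw [Finset.sum_insert hqs, List.sum_toFinset w n1]
          _ = hw w (Strat.cons q sub rest) q := by simp [hw]
      · obtain ⟨q', hq', hle⟩ := ih1 h1 (fun v hv => ⟨hXC v hv, fun h => hqX (h ▸ hv)⟩)
        refine ⟨q', hq', hle.trans (le_of_eq ?_)⟩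
        have hne : q' ≠ q := fun h => hqX (h ▸ hq')
        have hs : q' ∈ sub.verts := (m1 q').mpr ⟨hXC q' hq', hne⟩
        simp only [hw, if_neg hne, if_pos hs]

theorem weight_le_hw {n : ℕ} {E : List (ℕ × ℕ)} {D : Strat} (h : IsDecisionTree n E D)
    (w : ℕ → ℕ) {X : Finset ℕ} (hX : X ⊆ Finset.range n) (hc : Cn (graphOf n E) X) :
    ∃ q ∈ X, ∑ v ∈ X, w v ≤ hw w D q :=
  cost_weight w h (fun _ hv => Finset.mem_range.mp (hX hv)) hc

private theorem cost_good {G : SimpleGraph ℕ} (c w : ℕ → ℕ) {n : ℕ} {D : Strat}
    (hn : D.verts.Nodup) (hlt : ∀ v ∈ D.verts, v < n) {lab : ℕ → ℕ} (hg : Good G lab D)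
    (f : ℕ → ℕ) (a b : ℕ)
    (hb : ∀ H : Finset ℕ, H ⊆ Finset.range n → Cn G H → ∀ q ∈ H,
      (∀ v ∈ H, lab v ≤ lab q) → a * ∑ v ∈ H, w v ≤ b * f q) :
    a * scost c w D ≤ b * (D.verts.map fun v => c v * f v).sum := by
  induction D with
  | nil => simp [scost]
  | cons q sub rest ih1 ih2 =>
    obtain ⟨hq1, hq2, n1, n2, hd⟩ := cost_split hn
    obtain ⟨g1, g2, g3, g4⟩ := hg
    have l1 : ∀ v ∈ sub.verts, v < n := fun v hv => hlt v (by
      simp only [Strat.verts, List.mem_cons, List.mem_append]
      exact Or.inr (Or.inl hv))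
    have l2 : ∀ v ∈ rest.verts, v < n := fun v hv => hlt v (by
      simp only [Strat.verts, List.mem_cons, List.mem_append]
      exact Or.inr (Or.inr hv))
    have lq : q < n := hlt q (by simp [Strat.verts])
    have i1 := ih1 n1 l1 g3
    have i2 := ih2 n2 l2 g4
    have hH := hb (insert q sub.verts.toFinset) (by
      intro v hv
      rw [Finset.mem_insert, List.mem_toFinset] at hv
      rcases hv with rfl | hv
      · exact Finset.mem_range.mpr lq
      · exact Finset.mem_range.mpr (l1 v hv)) g1 q (Finset.mem_insert_self _ _) (by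
      intro v hv
      rw [Finset.mem_insert, List.mem_toFinset] at hv
      rcases hv with rfl | hv
      · exact le_rfl
      · exact g2 v hv)
    have hqs : q ∉ sub.verts.toFinset := by
      rw [List.mem_toFinset]
      exact hq1
    rw [Finset.sum_insert hqs, List.sum_toFinset w n1] at hH
    have e3 : (Strat.cons q sub rest).verts = q :: (sub.verts ++ rest.verts) := rfl
    rw [e3, List.map_cons, List.sum_cons, List.map_append, List.sum_append]
    simp only [scost]
    have h5 := Nat.mul_le_mul_left (c q) hH
    calc a * (c q * (w q + (sub.verts.map w).sum) + scost c w sub + scost c w rest) =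
          c q * (a * (w q + (sub.verts.map w).sum)) + a * scost c w sub + a * scost c w rest := by
          ring
      _ ≤ c q * (b * f q) + b * (sub.verts.map fun v => c v * f v).sum +
          b * (rest.verts.map fun v => c v * f v).sum := add_le_add (add_le_add h5 i1) i2
      _ = _ := by ring

theorem good_cost {n : ℕ} {E : List (ℕ × ℕ)} {C W : List (List Bool)} {D : Strat}
    (h : IsDecisionTree n E D) {lab : ℕ → ℕ} (hg : Good (graphOf n E) lab D) (f : ℕ → ℕ)
    (a b : ℕ)
    (hb : ∀ H : Finset ℕ, H ⊆ Finset.range n → Cn (graphOf n E) H → ∀ q ∈ H,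
      (∀ v ∈ H, lab v ≤ lab q) → a * ∑ v ∈ H, entry W v ≤ b * f q) :
    a * cost n C W D ≤ b * ∑ v ∈ Finset.range n, entry C v * f v := by
  obtain ⟨h1, h2⟩ := valid_verts h
  rw [cost_eq_scost h, cost_range h1 (fun v => h2 v)]
  exact cost_good (entry C) (entry W) h1 (fun v hv => (h2 v).mp hv) hg f a b hb

end Pool.Agent.Work.MP_62a643_lc
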