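import Mathlib

/-!
The tree search problem (average case, with costs and weights): definitions.
-/

set_option autoImplicit false

namespace Pool.Agent.Work.MP_62a643_lc

/-- Finite ordered rooted forests with vertices labelled by natural numbers: `nil` is the empty
forest, and `cons q sub rest` is the forest whose first tree has the root `q` and the forest `sub`
below its root, and whose other trees are those of `rest`. -/
inductive Strat : Type
  | nil : Strat
  | cons (q : ℕ) (sub rest : Strat) : Strat

namespace Strat

/-- The labels of a forest. -/
def verts : Strat → List ℕ
  | nil => []
  | cons q sub rest => q :: (sub.verts ++ rest.verts)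

/-- The labels on the path from a root to the node labelled `x` (both ends included). -/
def path : Strat → ℕ → List ℕ
  | nil, _ => []
  | cons q sub rest, x =>
    if x = q then [q] else if x ∈ sub.verts then q :: sub.path x else rest.path x

/-- `Valid G S D`: the forest `D` consists of one search strategy for every connected component of
the subgraph of `G` induced by `S`. A search strategy for a component `C` has a root `q ∈ C` (the
first query), below which there is one search strategy for every component of `C \ {q}`. -/
def Valid (G : SimpleGraph ℕ) : Set ℕ → Strat → Prop
  | S, nil => S = ∅
  | S, cons q sub rest => ∃ C : Set ℕ, C ⊆ S ∧ (G.induce C).Connected ∧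
      (∀ u ∈ C, ∀ v ∈ S, G.Adj u v → v ∈ C) ∧ q ∈ C ∧
      Valid G (C \ {q}) sub ∧ Valid G (S \ C) rest

end Strat

/-- The graph on the vertices `0, …, n - 1` with the given list of edges (as a graph on `ℕ`, in
which the other numbers are isolated). -/
def graphOf (n : ℕ) (E : List (ℕ × ℕ)) : SimpleGraph ℕ :=
  SimpleGraph.fromRel fun u v => u < n ∧ v < n ∧ (u, v) ∈ E

/-- The edges `E` form a tree on the vertices `0, …, n - 1`. -/
def IsTreeOn (n : ℕ) (E : List (ℕ × ℕ)) : Prop :=
  ((graphOf n E).induce {v | v < n}).IsTree

/-- Decision trees for the tree with the vertices `0, …, n - 1` and the edges `E`. -/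
def IsDecisionTree (n : ℕ) (E : List (ℕ × ℕ)) (D : Strat) : Prop :=
  D.Valid (graphOf n E) {v | v < n}

/-- The number with given binary digits, least significant digit first. -/
def binVal : List Bool → ℕ
  | [] => 0
  | b :: l => 2 * binVal l + b.toNat

/-- The entry with index `v` of a list of numbers written in binary (`0` if there is none). -/
def entry (C : List (List Bool)) (v : ℕ) : ℕ := binVal (C.getD v [])

/-- The cost of a decision tree: the sum over the targets `x` of the weight of `x` times the sum of
the costs of the queries on the path from the root to `x`. -/
def cost (n : ℕ) (C W : List (List Bool)) (D : Strat) : ℕ :=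
  ∑ x ∈ Finset.range n, entry W x * ((D.path x).map (entry C)).sum

end Pool.Agent.Work.MP_62a643_lc
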