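import Pool.Agent.Work.MP_62a643_lc.Conn
import Pool.Agent.Work.MP_62a643_lc.Cost

/-!
Module Elim: elimination trees are decision trees.
-/

set_option autoImplicit false

namespace Pool.Agent.Work.MP_62a643_lc

theorem gelim_map (x : Inst) {β γ : Type} (φ : β → γ) (g : ℕ → List β → β)
    (g' : ℕ → List γ → γ) (h : ∀ v l, g' v (l.map φ) = φ (g v l)) (L : List ℕ) :
    gelim x g' L = (gelim x g L).map fun c => (c.1, φ c.2) := by
  have key : ∀ (L : List ℕ) (F : List (List ℕ × β)),
      L.foldl (gstep x g') (F.map fun c => (c.1, φ c.2)) =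
        (L.foldl (gstep x g) F).map fun c => (c.1, φ c.2) := by
    intro L
    induction L with
    | nil => intro F; rfl
    | cons v L ih =>
      intro F
      rw [List.foldl_cons, List.foldl_cons, ← ih]
      congr 1
      have h1 : (F.map fun c => (c.1, φ c.2)).filter (hit x v) =
          (F.filter (hit x v)).map fun c => (c.1, φ c.2) := by
        rw [List.filter_map]; rfl
      have h2 : (F.map fun c => (c.1, φ c.2)).filter (fun c => !(hit x v c)) =
          (F.filter fun c => !(hit x v c)).map fun c => (c.1, φ c.2) := by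
        rw [List.filter_map]; rfl
      unfold gstep
      rw [h1, h2, List.map_cons, List.flatMap_map, List.map_map]
      have h3 : (Prod.snd ∘ fun c : List ℕ × β => (c.1, φ c.2)) = φ ∘ Prod.snd := rfl
      rw [h3, ← List.map_map, h]
  exact key L []

namespace Elim

private theorem gelim_snoc (x : Inst) {β : Type} (g : ℕ → List β → β) (L : List ℕ) (v : ℕ) :
    gelim x g (L ++ [v]) = gstep x g (gelim x g L) v := by
  simp [gelim]

private theorem asm_snoc (l : List (ℕ × Strat)) (c : ℕ × Strat) :
    asm (l ++ [c]) = Strat.cons c.1 c.2 (asm l) := by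
  simp [asm]

/-- The invariant of the elimination. -/
structure EInv (G : SimpleGraph ℕ) (lab : ℕ → ℕ) (F : List (List ℕ × (ℕ × Strat))) :
    Prop where
  perm : ∀ c ∈ F, c.1.Perm (c.2.1 :: c.2.2.verts)
  nadj : F.Pairwise fun c d => ∀ u ∈ c.1, ∀ v ∈ d.1, ¬ G.Adj u v
  nodup : (F.flatMap Prod.fst).Nodup
  conn : ∀ c ∈ F, Cn G c.1.toFinset
  valid : ∀ c ∈ F, Strat.Valid G {v | v ∈ c.2.2.verts} c.2.2
  good : ∀ c ∈ F, Good G lab c.2.2
  labs : ∀ c ∈ F, ∀ v ∈ c.2.2.verts, lab v ≤ lab c.2.1

private theorem flatMap_sublist {α β : Type} {F F' : List α} (f : α → List β)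
    (hs : F'.Sublist F) : (F'.flatMap f).Sublist (F.flatMap f) := by
  induction hs with
  | slnil => simp
  | cons a _ ih =>
    rw [List.flatMap_cons]
    exact ih.trans (List.sublist_append_right _ _)
  | cons_cons a _ ih =>
    rw [List.flatMap_cons, List.flatMap_cons]
    exact ih.append_left _

theorem EInv.of_sublist {G : SimpleGraph ℕ} {lab : ℕ → ℕ}
    {F F' : List (List ℕ × (ℕ × Strat))} (h : EInv G lab F) (hs : F'.Sublist F) :
    EInv G lab F' where
  perm := fun c hc => h.perm c (hs.subset hc)
  nadj := h.nadj.sublist hs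
  nodup := h.nodup.sublist (flatMap_sublist _ hs)
  conn := fun c hc => h.conn c (hs.subset hc)
  valid := fun c hc => h.valid c (hs.subset hc)
  good := fun c hc => h.good c (hs.subset hc)
  labs := fun c hc => h.labs c (hs.subset hc)

/-- The forest assembled from the components. -/
theorem EInv.asm_spec {G : SimpleGraph ℕ} {lab : ℕ → ℕ}
    {F : List (List ℕ × (ℕ × Strat))} (h : EInv G lab F) :
    (asm (F.map Prod.snd)).verts.Perm (F.flatMap Prod.fst) ∧
    Strat.Valid G {v | v ∈ F.flatMap Prod.fst} (asm (F.map Prod.snd)) ∧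
    Good G lab (asm (F.map Prod.snd)) := by
  induction F using List.reverseRecOn with
  | nil => simp [asm, Strat.verts, Strat.Valid, Good]
  | append_singleton F c ih =>
    obtain ⟨ih1, ih2, ih3⟩ := ih (h.of_sublist (List.sublist_append_left _ _))
    have hc : c ∈ F ++ [c] := by simp
    have hp := h.perm c hc
    have hna : ∀ d ∈ F, ∀ u ∈ d.1, ∀ v ∈ c.1, ¬ G.Adj u v := by
      have := h.nadj
      rw [List.pairwise_append] at this
      intro d hd
      exact this.2.2 d hd c (by simp)
    have hnd := h.nodup
    have hfl : (F ++ [c]).flatMap Prod.fst = F.flatMap Prod.fst ++ c.1 := by simp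
    rw [hfl, List.nodup_append] at hnd
    obtain ⟨_, hcn, hdis⟩ := hnd
    have hcn' : (c.2.1 :: c.2.2.verts).Nodup := hp.nodup_iff.1 hcn
    rw [List.nodup_cons] at hcn'
    rw [List.map_append, List.map_cons, List.map_nil, asm_snoc]
    refine ⟨?_, ?_, ?_, h.labs c hc, h.good c hc, ih3⟩
    · simp only [Strat.verts, List.flatMap_append, List.flatMap_cons, List.flatMap_nil,
        List.append_nil]
      rw [← List.cons_append]
      exact (List.Perm.append hp.symm ih1).trans List.perm_append_comm
    · rw [hfl]
      have hset : (c.1.toFinset : Set ℕ) = {v | v ∈ c.1} := by ext v; simp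
      refine ⟨{v | v ∈ c.1}, ?_, ?_, ?_, ?_, ?_, ?_⟩
      · intro v hv
        exact List.mem_append_right _ hv
      · rw [← hset]
        exact connected_of_cn (h.conn c hc)
      · intro u hu v hv huv
        rcases List.mem_append.1 hv with h1 | h1
        · rw [List.mem_flatMap] at h1
          obtain ⟨d, hd, hvd⟩ := h1
          exact absurd huv.symm (hna d hd v hvd u hu)
        · exact h1
      · exact hp.mem_iff.2 (by simp)
      · have : ({v | v ∈ c.1} \ {c.2.1} : Set ℕ) = {v | v ∈ c.2.2.verts} := by
          ext v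
          simp only [Set.mem_diff, Set.mem_setOf_eq, Set.mem_singleton_iff]
          rw [hp.mem_iff, List.mem_cons]
          constructor
          · rintro ⟨h1 | h1, h2⟩
            · exact absurd h1 h2
            · exact h1
          · intro h1
            exact ⟨Or.inr h1, fun h2 => hcn'.1 (h2 ▸ h1)⟩
        rw [this]
        exact h.valid c hc
      · have : ({v | v ∈ F.flatMap Prod.fst ++ c.1} \ {v | v ∈ c.1} : Set ℕ) =
            {v | v ∈ F.flatMap Prod.fst} := by
          ext v
          simp only [Set.mem_diff, Set.mem_setOf_eq]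
          rw [List.mem_append]
          constructor
          · rintro ⟨h1 | h1, h2⟩
            · exact h1
            · exact absurd h1 h2
          · intro h1
            exact ⟨Or.inl h1, fun h2 => hdis v h1 v h2 rfl⟩
        rw [this]
        exact ih2
    · have : insert c.2.1 c.2.2.verts.toFinset = c.1.toFinset := by
        ext v
        rw [Finset.mem_insert, List.mem_toFinset, List.mem_toFinset, hp.mem_iff, List.mem_cons]
      rw [this]
      exact h.conn c hc

private theorem foldr_union (l : List (List ℕ × (ℕ × Strat))) :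
    (l.map fun c => c.1.toFinset).foldr (fun X Y => X ∪ Y) ∅ =
      (l.flatMap Prod.fst).toFinset := by
  induction l with
  | nil => simp
  | cons c l ih => rw [List.map_cons, List.foldr_cons, ih, List.flatMap_cons,
      List.toFinset_append]

theorem gelim_flat (x : Inst) {β : Type} (g : ℕ → List β → β) (L : List ℕ) :
    ((gelim x g L).flatMap Prod.fst).Perm L := by
  induction L using List.reverseRecOn with
  | nil => simp [gelim]
  | append_singleton L v ih =>
    rw [gelim_snoc]
    simp only [gstep, List.flatMap_cons, List.cons_append]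
    refine List.Perm.trans ?_ (List.perm_append_singleton v L).symm
    refine List.Perm.cons _ ?_
    rw [← List.flatMap_append]
    exact ((List.filter_append_perm (hit x v) _).flatMap_right _).trans ih

/-- The step of the elimination. -/
theorem EInv.step {x : Inst} {lab : ℕ → ℕ} {F : List (List ℕ × (ℕ × Strat))} {v : ℕ}
    (h : EInv (graphOf x.1 x.2.1) lab F) (hv : v ∉ F.flatMap Prod.fst)
    (hl : ∀ u ∈ F.flatMap Prod.fst, lab u ≤ lab v) :
    EInv (graphOf x.1 x.2.1) lab (gstep x gS F v) := by
  have hA : EInv (graphOf x.1 x.2.1) lab (F.filter (hit x v)) :=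
    h.of_sublist List.filter_sublist
  have hB : EInv (graphOf x.1 x.2.1) lab (F.filter fun c => !(hit x v c)) :=
    h.of_sublist List.filter_sublist
  obtain ⟨a1, a2, a3⟩ := hA.asm_spec
  have hsym : Std.Symm fun c d : List ℕ × (ℕ × Strat) =>
      ∀ u ∈ c.1, ∀ v ∈ d.1, ¬ (graphOf x.1 x.2.1).Adj u v :=
    ⟨fun c d hcd u hu v hv huv => hcd v hv u hu huv.symm⟩
  refine ⟨?_, ?_, ?_, ?_, ?_, ?_, ?_⟩
  · intro c hc
    rcases List.mem_cons.1 hc with rfl | hc
    · exact List.Perm.cons _ a1.symm
    · exact hB.perm c hc
  · refine List.Pairwise.cons ?_ hB.nadj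
    intro c hc u huc w hw
    have hc' := List.mem_filter.1 hc
    rcases List.mem_cons.1 huc with rfl | huc
    · intro huw
      have h1 := hc'.2
      have h2 : hit x u c = true := by
        unfold hit
        rw [List.any_eq_true]
        exact ⟨w, hw, adjB_iff.2 huw⟩
      simp [h2] at h1
    · rw [List.mem_flatMap] at huc
      obtain ⟨d, hd, huc⟩ := huc
      have hd' := List.mem_filter.1 hd
      refine h.nadj.forall hd'.1 hc'.1 ?_ u huc w hw
      rintro rfl
      have := hc'.2
      simp [hd'.2] at this
  · simp only [gstep, List.flatMap_cons, List.cons_append]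
    rw [← List.flatMap_append]
    have hp := (List.filter_append_perm (hit x v) F).flatMap_right Prod.fst
    rw [List.nodup_cons]
    exact ⟨fun h1 => hv (hp.mem_iff.1 h1), hp.nodup_iff.2 h.nodup⟩
  · intro c hc
    rcases List.mem_cons.1 hc with rfl | hc
    · have h1 : (v :: (F.filter (hit x v)).flatMap Prod.fst).toFinset =
          insert v (((F.filter (hit x v)).map fun c => c.1.toFinset).foldr
            (fun X Y => X ∪ Y) ∅) := by
        rw [foldr_union, List.toFinset_cons]
      change Cn _ (v :: (F.filter (hit x v)).flatMap Prod.fst).toFinset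
      rw [h1]
      refine cn_star _ v _ fun X hX => ?_
      rw [List.mem_map] at hX
      obtain ⟨c, hc, rfl⟩ := hX
      have hc' := List.mem_filter.1 hc
      refine ⟨h.conn c hc'.1, ?_⟩
      have h2 := hc'.2
      unfold hit at h2
      rw [List.any_eq_true] at h2
      obtain ⟨u, huc, hvu⟩ := h2
      exact ⟨u, List.mem_toFinset.2 huc, adjB_iff.1 hvu⟩
    · exact hB.conn c hc
  · intro c hc
    rcases List.mem_cons.1 hc with rfl | hc
    · have : {w | w ∈ (asm ((F.filter (hit x v)).map Prod.snd)).verts} =
          {w | w ∈ (F.filter (hit x v)).flatMap Prod.fst} := by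
        ext w
        exact a1.mem_iff
      change Strat.Valid _ {w | w ∈ (asm ((F.filter (hit x v)).map Prod.snd)).verts}
        (asm ((F.filter (hit x v)).map Prod.snd))
      rw [this]
      exact a2
    · exact hB.valid c hc
  · intro c hc
    rcases List.mem_cons.1 hc with rfl | hc
    · exact a3
    · exact hB.good c hc
  · intro c hc
    rcases List.mem_cons.1 hc with rfl | hc
    · intro w hw
      have hw' := a1.mem_iff.1 hw
      rw [List.mem_flatMap] at hw'
      obtain ⟨d, hd, hwd⟩ := hw'
      exact hl w (List.mem_flatMap.2 ⟨d, List.mem_of_mem_filter hd, hwd⟩)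
    · exact hB.labs c hc

theorem einv_gelim (x : Inst) (lab : ℕ → ℕ) (L : List ℕ) (hL : L.Nodup)
    (hs : L.Pairwise fun u v => lab u ≤ lab v) :
    EInv (graphOf x.1 x.2.1) lab (gelim x gS L) := by
  induction L using List.reverseRecOn with
  | nil =>
    have : gelim x gS ([] : List ℕ) = [] := rfl
    rw [this]
    exact ⟨by simp, by simp, by simp, by simp, by simp, by simp, by simp⟩
  | append_singleton L v ih =>
    rw [gelim_snoc]
    rw [List.nodup_append] at hL
    rw [List.pairwise_append] at hs
    refine EInv.step (ih hL.1 hs.1) ?_ ?_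
    · intro h
      rw [(gelim_flat x gS L).mem_iff] at h
      exact hL.2.2 v h v (by simp) rfl
    · intro u hu
      rw [(gelim_flat x gS L).mem_iff] at hu
      exact hs.2.2 u hu v (by simp)

end Elim

theorem dtree_valid (x : Inst) (L : List ℕ) (hL : L.Nodup) (hn : ∀ v, v ∈ L ↔ v < x.1) :
    IsDecisionTree x.1 x.2.1 (dtree x L) := by
  have h := (Elim.einv_gelim x (fun _ => 0) L hL
    (List.pairwise_of_forall fun _ _ => le_refl _)).asm_spec.2.1
  have hset : {v | v ∈ (gelim x gS L).flatMap Prod.fst} = {v | v < x.1} := by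
    ext v
    exact ((Elim.gelim_flat x gS L).mem_iff).trans (hn v)
  rw [hset] at h
  exact h

theorem dtree_good (x : Inst) (L : List ℕ) (hL : L.Nodup) (hn : ∀ v, v ∈ L ↔ v < x.1)
    (lab : ℕ → ℕ) (hs : L.Pairwise fun u v => lab u ≤ lab v) :
    Good (graphOf x.1 x.2.1) lab (dtree x L) :=
  (Elim.einv_gelim x lab L hL hs).asm_spec.2.2

end Pool.Agent.Work.MP_62a643_lc
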