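import Pool.Agent.Work.MP_62a643_lc.Conn

/-!
Module Order: the search order.
-/

set_option autoImplicit false

namespace Pool.Agent.Work.MP_62a643_lc

open Pool.Agent.Work.PolyTime

private def ordIt (x : Inst) (k : ℕ) : List ℕ :=
  (List.replicate k ()).foldl (fun L _ => grow x L) [0]

private theorem ordIt_succ (x : Inst) (k : ℕ) : ordIt x (k + 1) = grow x (ordIt x k) := by
  unfold ordIt
  rw [List.replicate_succ', List.foldl_append]
  rfl

private def OrdInv (x : Inst) (L : List ℕ) : Prop :=
  L.Nodup ∧ (∀ v ∈ L, v < x.1) ∧ L ≠ [] ∧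
    ∀ A B : List ℕ, L = A ++ B → A ≠ [] → Cn (graphOf x.1 x.2.1) A.toFinset

private theorem ord_cases (x : Inst) (L : List ℕ) :
    (grow x L = L ∧ ∀ v < x.1, v ∉ L → ∀ u ∈ L, ¬ (graphOf x.1 x.2.1).Adj u v) ∨
      ∃ v < x.1, v ∉ L ∧ (∃ u ∈ L, (graphOf x.1 x.2.1).Adj u v) ∧ grow x L = L ++ [v] := by
  have hmem : ∀ v, v ∈ ((List.range x.1).filter fun v => !(memB v L) &&
      L.any fun u => adjB x u v) ↔ v < x.1 ∧ v ∉ L ∧ ∃ u ∈ L, (graphOf x.1 x.2.1).Adj u v := by
    intro v
    rw [List.mem_filter, List.mem_range, Bool.and_eq_true, Bool.not_eq_true', List.any_eq_true]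
    have h1 : memB v L = false ↔ v ∉ L := by
      rw [← Bool.not_eq_true, memB_iff]
    rw [h1]
    simp only [adjB_iff]
  unfold grow
  rcases hF : (List.range x.1).filter fun v => !(memB v L) &&
      L.any fun u => adjB x u v with _ | ⟨v, l⟩
  · left
    refine ⟨by simp, fun v hv hvL u hu hadj => ?_⟩
    have := (hmem v).mpr ⟨hv, hvL, u, hu, hadj⟩
    rw [hF] at this
    exact absurd this List.not_mem_nil
  · right
    have hv : v ∈ ((List.range x.1).filter fun v => !(memB v L) &&
      L.any fun u => adjB x u v) := by rw [hF]; exact List.mem_cons_self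
    obtain ⟨h1, h2, h3⟩ := (hmem v).mp hv
    exact ⟨v, h1, h2, h3, by simp⟩

private theorem ord_inv_step {x : Inst} {L : List ℕ} (h : OrdInv x L) : OrdInv x (grow x L) := by
  rcases ord_cases x L with ⟨h1, -⟩ | ⟨v, hv, hvL, ⟨u, hu, hadj⟩, h1⟩
  · rw [h1]; exact h
  · obtain ⟨i1, i2, i3, i4⟩ := h
    rw [h1]
    refine ⟨?_, ?_, ?_, ?_⟩
    · rw [List.nodup_append]
      refine ⟨i1, List.nodup_singleton v, fun a ha b hb hab => ?_⟩
      rw [List.mem_singleton] at hb
      rw [← hb, ← hab] at hvL
      exact hvL ha
    · intro w hw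
      rw [List.mem_append, List.mem_singleton] at hw
      rcases hw with hw | rfl
      · exact i2 w hw
      · exact hv
    · simp
    · intro A B hAB hA
      rcases List.eq_nil_or_concat B with rfl | ⟨B', b, rfl⟩
      · rw [List.append_nil] at hAB
        rw [← hAB, List.toFinset_append]
        have hc := cn_star (graphOf x.1 x.2.1) v [L.toFinset] (by
          intro X hX
          rw [List.mem_singleton] at hX
          rw [hX]
          exact ⟨i4 L [] (by simp) i3, u, List.mem_toFinset.mpr hu, hadj.symm⟩)
        have e : insert v (([L.toFinset] : List (Finset ℕ)).foldr (fun X Y => X ∪ Y) ∅) =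
            L.toFinset ∪ [v].toFinset := by
          ext w
          simp only [List.foldr_cons, List.foldr_nil, Finset.union_empty, Finset.mem_insert,
            Finset.mem_union, List.mem_toFinset, List.mem_singleton]
          tauto
        rw [← e]
        exact hc
      · rw [List.concat_eq_append, ← List.append_assoc] at hAB
        have h2 := List.append_inj' hAB (by simp)
        exact i4 A B' h2.1 hA

private theorem ord_zero {x : Inst} (h : IsTreeOn x.1 x.2.1) : 0 < x.1 := by
  obtain ⟨v, hv⟩ := (tree_cn h).1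
  rw [Finset.mem_range] at hv
  omega

private theorem ord_inv {x : Inst} (h : IsTreeOn x.1 x.2.1) (k : ℕ) : OrdInv x (ordIt x k) := by
  induction k with
  | zero =>
    refine ⟨List.nodup_singleton 0, ?_, by simp [ordIt], ?_⟩
    · intro v hv
      have : v = 0 := by simpa [ordIt] using hv
      rw [this]
      exact ord_zero h
    · intro A B hAB hA
      have h0 : ordIt x 0 = [0] := rfl
      rw [h0] at hAB
      have hA' : A = [0] := by
        cases A with
        | nil => exact absurd rfl hA
        | cons a A =>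
          rw [List.cons_append, List.cons.injEq] at hAB
          obtain ⟨h1, h2⟩ := hAB
          have h3 := (List.append_eq_nil_iff.mp h2.symm).1
          rw [h3, ← h1]
      rw [hA']
      simpa using cn_singleton (graphOf x.1 x.2.1) 0
  | succ k ih =>
    rw [ordIt_succ]
    exact ord_inv_step ih

private theorem ord_prog {x : Inst} (h : IsTreeOn x.1 x.2.1) (k : ℕ) :
    (ordIt x k).length = k + 1 ∨ ∀ v < x.1, v ∈ ordIt x k := by
  induction k with
  | zero => left; rfl
  | succ k ih =>
    rw [ordIt_succ]
    obtain ⟨i1, i2, i3, i4⟩ := ord_inv h k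
    rcases ord_cases x (ordIt x k) with ⟨h1, h2⟩ | ⟨v, hv, hvL, -, h1⟩
    · right
      rw [h1]
      have hne : (ordIt x k).toFinset.Nonempty := by
        obtain ⟨a, ha⟩ := List.exists_mem_of_ne_nil _ i3
        exact ⟨a, List.mem_toFinset.mpr ha⟩
      have h3 := (tree_cn h).2 (ordIt x k).toFinset (by
        intro w hw
        rw [List.mem_toFinset] at hw
        exact Finset.mem_range.mpr (i2 w hw)) hne (by
        intro u hu w hw hadj
        rw [List.mem_toFinset] at hu ⊢
        rw [Finset.mem_range] at hw
        by_contra hcon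
        exact h2 w hw hcon u hu hadj)
      intro v hv
      have : v ∈ (ordIt x k).toFinset := by
        rw [h3, Finset.mem_range]
        exact hv
      exact List.mem_toFinset.mp this
    · rw [h1]
      rcases ih with ih | ih
      · left
        rw [List.length_append, ih]
        rfl
      · right
        intro w hw
        exact List.mem_append_left _ (ih w hw)

theorem sorder_nodup {x : Inst} (h : IsTreeOn x.1 x.2.1) : (sorder x).Nodup :=
  (ord_inv h x.1).1

theorem mem_sorder {x : Inst} (h : IsTreeOn x.1 x.2.1) (v : ℕ) : v ∈ sorder x ↔ v < x.1 := by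
  constructor
  · exact (ord_inv h x.1).2.1 v
  · intro hv
    rcases ord_prog h x.1 with h1 | h1
    · exfalso
      have h2 := (ord_inv h x.1).1
      have h3 : (ordIt x x.1).toFinset ⊆ Finset.range x.1 := by
        intro w hw
        rw [List.mem_toFinset] at hw
        exact Finset.mem_range.mpr ((ord_inv h x.1).2.1 w hw)
      have h4 := Finset.card_le_card h3
      rw [List.toFinset_card_of_nodup h2, Finset.card_range, h1] at h4
      omega
    · exact h1 v hv

theorem sorder_uniq {x : Inst} (h : IsTreeOn x.1 x.2.1) {A A' : List ℕ} {v : ℕ}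
    (hs : sorder x = A ++ v :: A') {u u' : ℕ} (hu : u ∈ A) (hu' : u' ∈ A)
    (h1 : (graphOf x.1 x.2.1).Adj v u) (h2 : (graphOf x.1 x.2.1).Adj v u') : u = u' := by
  have hA : A ≠ [] := List.ne_nil_of_mem hu
  have hc := (ord_inv h x.1).2.2.2 A (v :: A') hs hA
  have hn := sorder_nodup h
  rw [hs, List.nodup_append] at hn
  have hv : v ∉ A := fun hvA => hn.2.2 v hvA v List.mem_cons_self rfl
  refine tree_uniq h (L := A.toFinset) ?_ hc (fun hvA => hv (List.mem_toFinset.mp hvA))
    (List.mem_toFinset.mpr hu) (List.mem_toFinset.mpr hu') h1 h2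
  intro w hw
  rw [List.mem_toFinset] at hw
  rw [Finset.mem_range, ← mem_sorder h, hs]
  exact List.mem_append_left _ hw

end Pool.Agent.Work.MP_62a643_lc
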