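import Pool.Agent.Work.MP_62a643_lc.Spec

/-!
Module Reach: the recursive constraints `Ok` say that all connected sets of alive vertices are
light.

Proof. Let `R D` be the finite set defined by `R nil = ∅`,
`R (cons q sub rest) = (if lab q ≤ i + 1 then insert q (R sub) else ∅) ∪ R rest`; if
`D.verts.Nodup`, then `∑ v ∈ R D, u v = vw u lab i D`, and `R D ⊆ D.verts`, and all vertices of
`R D` are alive (`lab v ≤ i + 1`).
* Lemma 1 (for `Rep G D`): if `Y` contains all alive roots of `D` and is closed in `R D` (that is
  `u ∈ Y`, `u ∈ R D`, `v ∈ R D`, `G.Adj u v` imply `v ∈ Y`), then `R D ⊆ Y`. Induction on `D`: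
  the alive roots of `sub` are adjacent to `q`.
* Lemma 2 (for `Rep G D`): if `u ∈ R D`, `v ∈ D.verts` is alive and `G.Adj u v`, then `v ∈ R D`.
* `←` : `X = insert q (R sub)` is connected (Lemma 1 for a cut and its complement).
* `→` : induction on `D`, with Lemma 2.
-/

set_option autoImplicit false

namespace Pool.Agent.Work.MP_62a643_lc

/-- the alive vertices connected with a root -/
private def reachR (lab : ℕ → ℕ) (i : ℕ) : Strat → Finset ℕ
  | Strat.nil => ∅
  | Strat.cons q sub rest =>
    (if lab q ≤ i + 1 then insert q (reachR lab i sub) else ∅) ∪ reachR lab i rest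

private theorem mem_reachR {lab : ℕ → ℕ} {i : ℕ} {D : Strat} {v : ℕ} (h : v ∈ reachR lab i D) :
    v ∈ D.verts ∧ lab v ≤ i + 1 := by
  induction D with
  | nil => simp [reachR] at h
  | cons q sub rest ih1 ih2 =>
    simp only [reachR, Finset.mem_union] at h
    rcases h with h | h
    · by_cases hq : lab q ≤ i + 1
      · rw [if_pos hq, Finset.mem_insert] at h
        rcases h with h | h
        · subst h
          exact ⟨by simp [Strat.verts], hq⟩
        · exact ⟨by simp [Strat.verts, (ih1 h).1], (ih1 h).2⟩
      · rw [if_neg hq] at h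
        simp at h
    · exact ⟨by simp [Strat.verts, (ih2 h).1], (ih2 h).2⟩

private theorem sum_reachR {D : Strat} (hn : D.verts.Nodup) (u lab : ℕ → ℕ) (i : ℕ) :
    ∑ v ∈ reachR lab i D, u v = vw u lab i D := by
  induction D with
  | nil => simp [reachR, vw]
  | cons q sub rest ih1 ih2 =>
    simp only [Strat.verts, List.nodup_cons, List.mem_append, not_or] at hn
    obtain ⟨⟨hq1, hq2⟩, hn⟩ := hn
    rw [List.nodup_append] at hn
    obtain ⟨hn1, hn2, hd⟩ := hn
    simp only [reachR, vw]
    rw [Finset.sum_union, ih2 hn2]
    · congr 1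
      by_cases hq : lab q ≤ i + 1
      · rw [if_pos hq, if_pos hq, Finset.sum_insert (fun h => hq1 (mem_reachR h).1), ih1 hn1]
      · rw [if_neg hq, if_neg hq, Finset.sum_empty]
    · rw [Finset.disjoint_left]
      intro a ha hb
      have hb' := (mem_reachR hb).1
      by_cases hq : lab q ≤ i + 1
      · rw [if_pos hq, Finset.mem_insert] at ha
        rcases ha with ha | ha
        · rw [ha] at hb'; exact hq2 hb'
        · exact hd a (mem_reachR ha).1 a hb' rfl
      · rw [if_neg hq] at ha
        simp at ha

private theorem roots_sub {D : Strat} {v : ℕ} (h : v ∈ roots D) : v ∈ D.verts := by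
  induction D with
  | nil => simp [roots] at h
  | cons q sub rest ih1 ih2 =>
    simp only [roots, List.mem_cons] at h
    rcases h with h | h
    · simp [Strat.verts, h]
    · simp [Strat.verts, ih2 h]

private theorem roots_reachR {lab : ℕ → ℕ} {i : ℕ} {D : Strat} {v : ℕ} (h : v ∈ roots D)
    (hv : lab v ≤ i + 1) : v ∈ reachR lab i D := by
  induction D with
  | nil => simp [roots] at h
  | cons q sub rest ih1 ih2 =>
    simp only [roots, List.mem_cons] at h
    simp only [reachR, Finset.mem_union]
    rcases h with h | h
    · left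
      subst h
      rw [if_pos hv]
      exact Finset.mem_insert_self _ _
    · exact Or.inr (ih2 h)

private theorem lemma1 {G : SimpleGraph ℕ} {lab : ℕ → ℕ} {i : ℕ} {D : Strat} (hr : Rep G D)
    (Y : Finset ℕ) (h1 : ∀ r ∈ roots D, lab r ≤ i + 1 → r ∈ Y)
    (h2 : ∀ u ∈ Y, u ∈ reachR lab i D → ∀ v ∈ reachR lab i D, G.Adj u v → v ∈ Y) :
    reachR lab i D ⊆ Y := by
  induction D with
  | nil => simp [reachR]
  | cons q sub rest ih1 ih2 =>
    obtain ⟨r1, r2, r3, r4⟩ := hr
    intro v hv
    simp only [reachR, Finset.mem_union] at hv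
    rcases hv with hv | hv
    · by_cases hq : lab q ≤ i + 1
      · rw [if_pos hq, Finset.mem_insert] at hv
        have hin : ∀ a ∈ reachR lab i sub, a ∈ reachR lab i (Strat.cons q sub rest) := by
          intro a ha
          simp only [reachR, Finset.mem_union]
          left; rw [if_pos hq]; exact Finset.mem_insert_of_mem ha
        have hqin : q ∈ reachR lab i (Strat.cons q sub rest) :=
          roots_reachR (by simp [roots]) hq
        have hqY : q ∈ Y := h1 q (by simp [roots]) hq
        rcases hv with hv | hv
        · rw [hv]; exact hqY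
        · refine ih1 r3 ?_ ?_ hv
          · intro r hr' hlr
            exact h2 q hqY hqin r (hin r (roots_reachR hr' hlr)) ((r1 r (roots_sub hr')).2 hr')
          · intro a ha ha' b hb hab
            exact h2 a ha (hin a ha') b (hin b hb) hab
      · rw [if_neg hq] at hv
        simp at hv
    · have hin : ∀ a ∈ reachR lab i rest, a ∈ reachR lab i (Strat.cons q sub rest) := by
        intro a ha
        simp only [reachR, Finset.mem_union]
        right; exact ha
      refine ih2 r4 ?_ ?_ hv
      · intro r hr' hlr
        exact h1 r (by simp [roots, hr']) hlr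
      · intro a ha ha' b hb hab
        exact h2 a ha (hin a ha') b (hin b hb) hab

private theorem lemma2 {G : SimpleGraph ℕ} {lab : ℕ → ℕ} {i : ℕ} {D : Strat} (hr : Rep G D)
    {u v : ℕ} (hu : u ∈ reachR lab i D) (hv : v ∈ D.verts) (hl : lab v ≤ i + 1)
    (hadj : G.Adj u v) : v ∈ reachR lab i D := by
  induction D with
  | nil => simp [reachR] at hu
  | cons q sub rest ih1 ih2 =>
    obtain ⟨r1, r2, r3, r4⟩ := hr
    simp only [Strat.verts, List.mem_cons, List.mem_append] at hv
    simp only [reachR, Finset.mem_union] at hu ⊢
    rcases hu with hu | hu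
    · by_cases hq : lab q ≤ i + 1
      · rw [if_pos hq] at hu ⊢
        rw [Finset.mem_insert] at hu ⊢
        have hu' : u ∈ q :: sub.verts := by
          rcases hu with hu | hu
          · simp [hu]
          · simp [(mem_reachR hu).1]
        rcases hv with hv | hv | hv
        · left; left; exact hv
        · left; right
          rcases hu with hu | hu
          · subst hu
            exact roots_reachR ((r1 v hv).1 hadj) hl
          · exact ih1 r3 hu hv
        · exact absurd hadj (r2 u hu' v hv)
      · rw [if_neg hq] at hu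
        simp at hu
    · right
      have hu' := (mem_reachR hu).1
      rcases hv with hv | hv | hv
      · exact absurd hadj.symm (r2 v (by simp [hv]) u hu')
      · exact absurd hadj.symm (r2 v (by simp [hv]) u hu')
      · exact ih2 r4 hu hv

private theorem cn_insert {G : SimpleGraph ℕ} {lab : ℕ → ℕ} {i : ℕ} {q : ℕ} {sub : Strat}
    (r1 : ∀ v ∈ sub.verts, G.Adj q v ↔ v ∈ roots sub) (r3 : Rep G sub) :
    Cn G (insert q (reachR lab i sub)) := by
  have key : ∀ Y : Finset ℕ, q ∈ Y →
      (∀ a ∈ Y, a ∈ insert q (reachR lab i sub) → ∀ b ∈ insert q (reachR lab i sub),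
        G.Adj a b → b ∈ Y) → reachR lab i sub ⊆ Y := by
    intro Y hqY hcl
    refine lemma1 r3 Y ?_ ?_
    · intro r hr' hlr
      exact hcl q hqY (Finset.mem_insert_self _ _) r
        (Finset.mem_insert_of_mem (roots_reachR hr' hlr)) ((r1 r (roots_sub hr')).2 hr')
    · intro a ha ha' b hb hab
      exact hcl a ha (Finset.mem_insert_of_mem ha') b (Finset.mem_insert_of_mem hb) hab
  refine ⟨Finset.insert_nonempty _ _, fun Y hY hne hcl => ?_⟩
  by_cases hq : q ∈ Y
  · apply Finset.Subset.antisymm hY
    intro x hx
    rcases Finset.mem_insert.1 hx with h | h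
    · rw [h]; exact hq
    · exact key Y hq (fun a ha _ b hb hab => hcl a ha b hb hab) h
  · exfalso
    obtain ⟨y, hy⟩ := hne
    have h1 := key (insert q (reachR lab i sub) \ Y)
      (Finset.mem_sdiff.2 ⟨Finset.mem_insert_self _ _, hq⟩) (by
        intro a ha ha' b hb hab
        rw [Finset.mem_sdiff] at ha ⊢
        exact ⟨hb, fun hbY => ha.2 (hcl b hbY a ha' hab.symm)⟩)
    rcases Finset.mem_insert.1 (hY hy) with h | h
    · rw [h] at hy; exact hq hy
    · exact (Finset.mem_sdiff.1 (h1 h)).2 hy

theorem ok_iff {G : SimpleGraph ℕ} {D : Strat} (hr : Rep G D) (hn : D.verts.Nodup)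
    (u : ℕ → ℕ) (k : ℕ) (lab : ℕ → ℕ) (i : ℕ) :
    Ok u k lab i D ↔ ∀ X : Finset ℕ, (∀ v ∈ X, v ∈ D.verts ∧ lab v ≤ i + 1) → Cn G X →
      ∑ v ∈ X, u v ≤ k := by
  induction D with
  | nil =>
    constructor
    · intro _ X hX hc
      obtain ⟨x, hx⟩ := hc.1
      have := (hX x hx).1
      simp [Strat.verts] at this
    · intro _; trivial
  | cons q sub rest ih1 ih2 =>
    obtain ⟨r1, r2, r3, r4⟩ := hr
    have hn' := hn
    simp only [Strat.verts, List.nodup_cons, List.mem_append, not_or] at hn'
    obtain ⟨⟨hq1, hq2⟩, hn'⟩ := hn'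
    rw [List.nodup_append] at hn'
    obtain ⟨hn1, hn2, hd⟩ := hn'
    have hsum : ∑ v ∈ insert q (reachR lab i sub), u v = u q + vw u lab i sub := by
      rw [Finset.sum_insert (fun h => hq1 (mem_reachR h).1), sum_reachR hn1]
    constructor
    · rintro ⟨o1, o2, o3⟩ X hX hc
      by_cases hA : (X.filter fun v => v ∈ q :: sub.verts).Nonempty
      · have hXA := hc.2 (X.filter fun v => v ∈ q :: sub.verts) (Finset.filter_subset _ _) hA (by
          intro a ha b hb hab
          rw [Finset.mem_filter] at ha ⊢
          refine ⟨hb, ?_⟩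
          have := (hX b hb).1
          simp only [Strat.verts, List.mem_cons, List.mem_append] at this
          rcases this with h | h | h
          · simp [h]
          · simp [h]
          · exact absurd hab (r2 a ha.2 b h))
        have hX1 : ∀ v ∈ X, v = q ∨ v ∈ sub.verts := by
          intro v hv
          rw [← hXA] at hv
          exact List.mem_cons.1 (Finset.mem_filter.1 hv).2
        by_cases hqX : q ∈ X
        · have hqa := (hX q hqX).2
          have hB := hc.2 (X ∩ insert q (reachR lab i sub)) Finset.inter_subset_left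
            ⟨q, Finset.mem_inter.2 ⟨hqX, Finset.mem_insert_self _ _⟩⟩ (by
            intro a ha b hb hab
            rw [Finset.mem_inter] at ha ⊢
            refine ⟨hb, ?_⟩
            rcases hX1 b hb with h | h
            · rw [h]; exact Finset.mem_insert_self _ _
            · apply Finset.mem_insert_of_mem
              rcases Finset.mem_insert.1 ha.2 with h' | h'
              · subst h'
                exact roots_reachR ((r1 b h).1 hab) (hX b hb).2
              · exact lemma2 r3 h' h (hX b hb).2 hab)
          have hsub : X ⊆ insert q (reachR lab i sub) := by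
            rw [← hB]; exact Finset.inter_subset_right
          calc ∑ v ∈ X, u v ≤ ∑ v ∈ insert q (reachR lab i sub), u v :=
                Finset.sum_le_sum_of_subset hsub
            _ = u q + vw u lab i sub := hsum
            _ ≤ k := o1 hqa
        · refine (ih1 r3 hn1).1 o2 X ?_ hc
          intro v hv
          refine ⟨?_, (hX v hv).2⟩
          rcases hX1 v hv with h | h
          · rw [h] at hv; exact absurd hv hqX
          · exact h
      · refine (ih2 r4 hn2).1 o3 X ?_ hc
        intro v hv
        refine ⟨?_, (hX v hv).2⟩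
        have := (hX v hv).1
        simp only [Strat.verts, List.mem_cons, List.mem_append] at this
        rcases this with h | h | h
        · exact absurd ⟨v, Finset.mem_filter.2 ⟨hv, by simp [h]⟩⟩ hA
        · exact absurd ⟨v, Finset.mem_filter.2 ⟨hv, by simp [h]⟩⟩ hA
        · exact h
    · intro h
      refine ⟨?_, ?_, ?_⟩
      · intro hq
        rw [← hsum]
        refine h _ ?_ (cn_insert r1 r3)
        intro v hv
        rcases Finset.mem_insert.1 hv with h' | h'
        · rw [h']; exact ⟨by simp [Strat.verts], hq⟩
        · exact ⟨by simp [Strat.verts, (mem_reachR h').1], (mem_reachR h').2⟩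
      · refine (ih1 r3 hn1).2 fun X hX hc => h X ?_ hc
        intro v hv
        exact ⟨by simp [Strat.verts, (hX v hv).1], (hX v hv).2⟩
      · refine (ih2 r4 hn2).2 fun X hX hc => h X ?_ hc
        intro v hv
        exact ⟨by simp [Strat.verts, (hX v hv).1], (hX v hv).2⟩

end Pool.Agent.Work.MP_62a643_lc
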