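import Pool.Agent.Work.MP_62a643_lc.Conn

/-!
Module Rooted: for an order in which every vertex has at most one earlier neighbour, the
elimination forest of the reversed order is the rooted tree itself.

`gelim x gS L.reverse` is a fold over `L` from the right. Write `L = A ++ A'`; by induction on `A'`
(from `A' = []` to `v :: A'`, i.e. for all `A`) the invariant `RInv` holds for the list
`F = gelim x gS A'.reverse` (`gelim x g (v :: A').reverse = gstep x g (gelim x g A'.reverse) v`).
-/

set_option autoImplicit false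

namespace Pool.Agent.Work.MP_62a643_lc

namespace Rooted

private theorem gelim_snoc (x : Inst) {β : Type} (g : ℕ → List β → β) (L : List ℕ) (v : ℕ) :
    gelim x g (L ++ [v]) = gstep x g (gelim x g L) v := by
  simp [gelim]

private theorem asm_snoc (l : List (ℕ × Strat)) (c : ℕ × Strat) :
    asm (l ++ [c]) = Strat.cons c.1 c.2 (asm l) := by
  simp [asm]

/-- The invariant of a list of components with their rooted forests. -/
structure RInv (G : SimpleGraph ℕ) (A : List ℕ) (F : List (List ℕ × (ℕ × Strat))) : Prop where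
  perm : ∀ c ∈ F, c.1.Perm (c.2.1 :: c.2.2.verts)
  nadj : F.Pairwise fun c d => ∀ u ∈ c.1, ∀ v ∈ d.1, ¬ G.Adj u v
  root : ∀ c ∈ F, ∀ v ∈ c.2.2.verts, G.Adj c.2.1 v ↔ v ∈ roots c.2.2
  rep : ∀ c ∈ F, Rep G c.2.2
  up : ∀ c ∈ F, ∀ w ∈ c.2.2.verts, ∀ a ∈ A, ¬ G.Adj w a

theorem RInv.of_sublist {G : SimpleGraph ℕ} {A : List ℕ}
    {F F' : List (List ℕ × (ℕ × Strat))} (h : RInv G A F) (hs : F'.Sublist F) :
    RInv G A F' where
  perm := fun c hc => h.perm c (hs.subset hc)
  nadj := h.nadj.sublist hs
  root := fun c hc => h.root c (hs.subset hc)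
  rep := fun c hc => h.rep c (hs.subset hc)
  up := fun c hc => h.up c (hs.subset hc)

/-- The forest assembled from the components. -/
theorem RInv.asm_spec {G : SimpleGraph ℕ} {A : List ℕ}
    {F : List (List ℕ × (ℕ × Strat))} (h : RInv G A F) :
    (asm (F.map Prod.snd)).verts.Perm (F.flatMap Prod.fst) ∧
    (∀ w, w ∈ roots (asm (F.map Prod.snd)) ↔ ∃ c ∈ F, w = c.2.1) ∧
    Rep G (asm (F.map Prod.snd)) := by
  induction F using List.reverseRecOn with
  | nil => simp [asm, Strat.verts, roots, Rep]
  | append_singleton F c ih =>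
    obtain ⟨ih1, ih2, ih3⟩ := ih (h.of_sublist (List.sublist_append_left _ _))
    have hc : c ∈ F ++ [c] := by simp
    have hp := h.perm c hc
    have hna : ∀ d ∈ F, ∀ u ∈ d.1, ∀ v ∈ c.1, ¬ G.Adj u v := by
      have := h.nadj
      rw [List.pairwise_append] at this
      intro d hd
      exact this.2.2 d hd c (by simp)
    rw [List.map_append, List.map_cons, List.map_nil, asm_snoc]
    refine ⟨?_, ?_, ?_, ?_, h.rep c hc, ih3⟩
    · simp only [Strat.verts, List.flatMap_append, List.flatMap_cons, List.flatMap_nil,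
        List.append_nil]
      rw [← List.cons_append]
      exact (List.Perm.append hp.symm ih1).trans List.perm_append_comm
    · intro w
      simp only [roots, List.mem_cons, ih2, List.mem_append, List.not_mem_nil, or_false]
      constructor
      · rintro (h1 | ⟨d, hd, h1⟩)
        · exact ⟨c, Or.inr rfl, h1⟩
        · exact ⟨d, Or.inl hd, h1⟩
      · rintro ⟨d, hd | rfl, h1⟩
        · exact Or.inr ⟨d, hd, h1⟩
        · exact Or.inl h1
    · exact h.root c hc
    · intro u hu v hv huv
      rw [ih1.mem_iff, List.mem_flatMap] at hv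
      obtain ⟨d, hd, hvd⟩ := hv
      exact hna d hd v hvd u (hp.mem_iff.2 hu) huv.symm

/-- The step of the elimination. -/
theorem RInv.step {x : Inst} {A : List ℕ} {F : List (List ℕ × (ℕ × Strat))} {v : ℕ}
    (h : RInv (graphOf x.1 x.2.1) (A ++ [v]) F)
    (hu : ∀ c ∈ F, (graphOf x.1 x.2.1).Adj c.2.1 v → ∀ a ∈ A,
      ¬ (graphOf x.1 x.2.1).Adj c.2.1 a) :
    RInv (graphOf x.1 x.2.1) A (gstep x gS F v) := by
  have hA : RInv (graphOf x.1 x.2.1) (A ++ [v]) (F.filter (hit x v)) :=
    h.of_sublist List.filter_sublist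
  have hB : RInv (graphOf x.1 x.2.1) (A ++ [v]) (F.filter fun c => !(hit x v c)) :=
    h.of_sublist List.filter_sublist
  obtain ⟨a1, a2, a3⟩ := hA.asm_spec
  have hsym : Std.Symm fun c d : List ℕ × (ℕ × Strat) =>
      ∀ u ∈ c.1, ∀ v ∈ d.1, ¬ (graphOf x.1 x.2.1).Adj u v :=
    ⟨fun c d hcd u hu v hv huv => hcd v hv u hu huv.symm⟩
  -- a component which is hit is hit at its root
  have hroot : ∀ c ∈ F, ∀ u ∈ c.1, (graphOf x.1 x.2.1).Adj v u → u = c.2.1 := by
    intro c hc u huc hvu
    have h1 := (h.perm c hc).mem_iff.1 huc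
    rcases List.mem_cons.1 h1 with h1 | h1
    · exact h1
    · exact absurd hvu.symm (h.up c hc u h1 v (by simp))
  have hadj : ∀ c ∈ F.filter (hit x v), (graphOf x.1 x.2.1).Adj v c.2.1 := by
    intro c hc
    have hc' := List.mem_filter.1 hc
    have h1 := hc'.2
    unfold hit at h1
    rw [List.any_eq_true] at h1
    obtain ⟨u, huc, hvu⟩ := h1
    have hvu' := adjB_iff.1 hvu
    rw [← hroot c hc'.1 u huc hvu']
    exact hvu'
  refine ⟨?_, ?_, ?_, ?_, ?_⟩
  · intro c hc
    rcases List.mem_cons.1 hc with rfl | hc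
    · exact List.Perm.cons _ a1.symm
    · exact hB.perm c hc
  · refine List.Pairwise.cons ?_ hB.nadj
    intro c hc u huc w hw
    have hc' := List.mem_filter.1 hc
    rcases List.mem_cons.1 huc with rfl | huc
    · intro huw
      have h1 := hc'.2
      have h2 : hit x u c = true := by
        unfold hit
        rw [List.any_eq_true]
        exact ⟨w, hw, adjB_iff.2 huw⟩
      simp [h2] at h1
    · rw [List.mem_flatMap] at huc
      obtain ⟨d, hd, huc⟩ := huc
      have hd' := List.mem_filter.1 hd
      refine h.nadj.forall hd'.1 hc'.1 ?_ u huc w hw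
      rintro rfl
      have := hc'.2
      simp [hd'.2] at this
  · intro c hc
    rcases List.mem_cons.1 hc with rfl | hc
    · intro w hw
      show (graphOf x.1 x.2.1).Adj v w ↔ w ∈ roots (asm ((F.filter (hit x v)).map Prod.snd))
      rw [a2]
      constructor
      · intro hvw
        have hw' := a1.mem_iff.1 hw
        rw [List.mem_flatMap] at hw'
        obtain ⟨d, hd, hwd⟩ := hw'
        exact ⟨d, hd, hroot d (List.mem_of_mem_filter hd) w hwd hvw⟩
      · rintro ⟨d, hd, rfl⟩
        exact hadj d hd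
    · exact hB.root c hc
  · intro c hc
    rcases List.mem_cons.1 hc with rfl | hc
    · exact a3
    · exact hB.rep c hc
  · intro c hc
    rcases List.mem_cons.1 hc with rfl | hc
    · intro w hw a ha hwa
      have hw' := a1.mem_iff.1 hw
      rw [List.mem_flatMap] at hw'
      obtain ⟨d, hd, hwd⟩ := hw'
      have hd' := List.mem_filter.1 hd
      have h1 := (h.perm d hd'.1).mem_iff.1 hwd
      rcases List.mem_cons.1 h1 with h1 | h1
      · rw [h1] at hwa
        exact hu d hd'.1 (hadj d hd).symm a ha hwa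
      · exact h.up d hd'.1 w h1 a (by simp [ha]) hwa
    · intro w hw a ha
      exact hB.up c hc w hw a (by simp [ha])

private theorem gelim_flat (x : Inst) {β : Type} (g : ℕ → List β → β) (L : List ℕ) :
    ((gelim x g L).flatMap Prod.fst).Perm L := by
  induction L using List.reverseRecOn with
  | nil => simp [gelim]
  | append_singleton L v ih =>
    rw [gelim_snoc]
    simp only [gstep, List.flatMap_cons, List.cons_append]
    refine List.Perm.trans ?_ (List.perm_append_singleton v L).symm
    refine List.Perm.cons _ ?_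
    rw [← List.flatMap_append]
    exact ((List.filter_append_perm (hit x v) _).flatMap_right _).trans ih

theorem rinv_gelim (x : Inst) (L : List ℕ) (hL : L.Nodup)
    (hu : ∀ (A : List ℕ) (v : ℕ) (A' : List ℕ), L = A ++ v :: A' → ∀ u ∈ A, ∀ u' ∈ A,
      (graphOf x.1 x.2.1).Adj v u → (graphOf x.1 x.2.1).Adj v u' → u = u')
    (A' : List ℕ) : ∀ A : List ℕ, L = A ++ A' →
      RInv (graphOf x.1 x.2.1) A (gelim x gS A'.reverse) := by
  induction A' with
  | nil =>
    intro A _
    have : gelim x gS ([] : List ℕ).reverse = [] := rfl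
    rw [this]
    exact ⟨by simp, by simp, by simp, by simp, by simp⟩
  | cons v A' ih =>
    intro A hA
    rw [List.reverse_cons, gelim_snoc]
    refine RInv.step (ih (A ++ [v]) (by rw [hA]; simp)) ?_
    intro c hc hcv a ha hca
    have hw : c.2.1 ∈ A' := by
      rw [← List.mem_reverse, ← (gelim_flat x gS A'.reverse).mem_iff, List.mem_flatMap]
      refine ⟨c, hc, ?_⟩
      have := (ih (A ++ [v]) (by rw [hA]; simp)).perm c hc
      exact this.mem_iff.2 (by simp)
    obtain ⟨B, B', hB⟩ := List.append_of_mem hw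
    have h1 : a = v := by
      refine hu (A ++ v :: B) c.2.1 B' (by rw [hA, hB]; simp) a (by simp [ha]) v (by simp) hca hcv
    rw [h1] at ha
    rw [hA, List.nodup_append] at hL
    exact hL.2.2 v ha v (by simp) rfl

end Rooted

theorem rep_dtree (x : Inst) (L : List ℕ) (hL : L.Nodup) (hn : ∀ v ∈ L, v < x.1)
    (hu : ∀ (A : List ℕ) (v : ℕ) (A' : List ℕ), L = A ++ v :: A' → ∀ u ∈ A, ∀ u' ∈ A,
      (graphOf x.1 x.2.1).Adj v u → (graphOf x.1 x.2.1).Adj v u' → u = u') :
    Rep (graphOf x.1 x.2.1) (dtree x L.reverse) := by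
  exact (Rooted.rinv_gelim x L hL hu L [] rfl).asm_spec.2.2

end Pool.Agent.Work.MP_62a643_lc
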