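import Pool.Agent.Work.MP_62a643_lc.Values
import Pool.Agent.Work.MP_62a643_lc.Arith

/-!
Module Table: the tables contain exactly the feasible labellings, up to optimality.
-/

set_option autoImplicit false

namespace Pool.Agent.Work.MP_62a643_lc

open Pool.Agent.Work.PolyTime
open Pool.Agent.Work.MP_63b90e_lc (addB padTo shiftB)

theorem table_lf_map (n : ℕ) (f : ℕ → ℕ) (v : ℕ) :
    lf ((List.range n).map f) v = if v < n then f v else 0 := by
  unfold lf
  by_cases h : v < n
  · simp [List.getD_eq_getElem?_getD, h]
  · simp [List.getD_eq_getElem?_getD, h]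

theorem table_getD_map (n : ℕ) (f : ℕ → ℕ) {i : ℕ} (h : i < n) :
    ((List.range n).map f).getD i 0 = f i := by
  simp [List.getD_eq_getElem?_getD, h]

theorem table_vw_congr {u lab lab' : ℕ → ℕ} {i : ℕ} {D : Strat}
    (h : ∀ v ∈ D.verts, lab v = lab' v) : vw u lab i D = vw u lab' i D := by
  induction D with
  | nil => rfl
  | cons q sub rest ihs ihr =>
    simp only [Strat.verts, List.mem_cons, List.mem_append] at h
    rw [vw, vw, h q (Or.inl rfl), ihs fun v hv => h v (Or.inr (Or.inl hv)),
      ihr fun v hv => h v (Or.inr (Or.inr hv))]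

theorem table_ok_congr {u lab lab' : ℕ → ℕ} {k i : ℕ} {D : Strat}
    (h : ∀ v ∈ D.verts, lab v = lab' v) (hk : Ok u k lab i D) : Ok u k lab' i D := by
  induction D with
  | nil => trivial
  | cons q sub rest ihs ihr =>
    simp only [Strat.verts, List.mem_cons, List.mem_append] at h
    obtain ⟨h1, h2, h3⟩ := hk
    refine ⟨fun hq => ?_, ihs (fun v hv => h v (Or.inr (Or.inl hv))) h2,
      ihr (fun v hv => h v (Or.inr (Or.inr hv))) h3⟩
    rw [← table_vw_congr fun v hv => h v (Or.inr (Or.inl hv))]
    exact h1 (by rw [h q (Or.inl rfl)]; exact hq)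

theorem table_vlist_congr {M B : ℕ} {x : Inst} {e : ℕ} {lab lab' : ℕ → ℕ} {D : Strat}
    (h : ∀ v ∈ D.verts, lab v = lab' v) : vlist M B x e lab D = vlist M B x e lab' D := by
  unfold vlist
  refine List.map_congr_left fun i _ => ?_
  rw [table_vw_congr h]

theorem table_kap_lt {M : ℕ} {x : Inst} (hM : 0 < M) (hn : 0 < x.1) (i : ℕ) :
    kap M x i < ncap M x := by
  rw [kap_eq hM]
  unfold ncap
  have h := Nat.mod_lt i hM
  calc x.1 * (M + i % M) < x.1 * (M + M) := Nat.mul_lt_mul_of_pos_left (by omega) hn
    _ = 2 * x.1 * M := by ring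

theorem table_mem_prune {M B : ℕ} {x : Inst} (hM : 0 < M) {t : Tab} {en : List ℕ × List ℕ}
    (h : en ∈ prune M B x t) : en ∈ t := by
  unfold prune at h
  rw [List.mem_flatMap] at h
  obtain ⟨s, _, hs⟩ := h
  by_cases hne : (t.filter fun e => decide (e.1 = s)) = []
  · rw [hne] at hs
    simp [pick] at hs
  · obtain ⟨m, hm, hp, _⟩ := pick_spec
      (fun e b : List ℕ × List ℕ => leB (costL M x e.2) (costL M x b.2))
      (fun e => cst M x (lf e.2))
      (fun a b => by rw [leB_iff, binVal_costL hM, binVal_costL hM]) _ hne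
    rw [hp, List.mem_singleton] at hs
    rw [hs]
    exact List.mem_of_mem_filter hm

theorem table_prune {M B : ℕ} {x : Inst} (hM : 0 < M) {t : Tab} {en : List ℕ × List ℕ}
    (h : en ∈ t) (hs : en.1 ∈ states (ncap M x) (B * M)) :
    ∃ en' ∈ prune M B x t, en'.1 = en.1 ∧ cst M x (lf en'.2) ≤ cst M x (lf en.2) := by
  have hmem : en ∈ t.filter fun e => decide (e.1 = en.1) := by
    rw [List.mem_filter]; exact ⟨h, by simp⟩
  obtain ⟨m, hm, hp, hmin⟩ := pick_spec
      (fun e b : List ℕ × List ℕ => leB (costL M x e.2) (costL M x b.2))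
      (fun e => cst M x (lf e.2))
      (fun a b => by rw [leB_iff, binVal_costL hM, binVal_costL hM]) _
      (List.ne_nil_of_mem hmem)
  refine ⟨m, ?_, ?_, hmin en hmem⟩
  · unfold prune
    rw [List.mem_flatMap]
    exact ⟨en.1, hs, by rw [hp]; exact List.mem_singleton.2 rfl⟩
  · rw [List.mem_filter] at hm
    simpa using hm.2

/-- The union of two entries. -/
def tabJoin (M B : ℕ) (x : Inst) (a b : List ℕ × List ℕ) : List ℕ × List ℕ :=
  ((List.range (B * M)).map fun i => min (ncap M x) (a.1.getD i 0 + b.1.getD i 0),
    (List.range x.1).map fun v => min (B * M + 1) (max (a.2.getD v 0) (b.2.getD v 0)))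

theorem table_state_cons {M B : ℕ} {x : Inst} {e q j : ℕ} {lab : ℕ → ℕ} {sub rest : Strat}
    {P : List ℕ} (hP : P = newP M B x e q (vlist M B x e lab sub) j) (hj : lab q = j) :
    ((List.range (B * M)).map fun i =>
      min (ncap M x) (P.getD i 0 + (vlist M B x e lab rest).getD i 0)) =
      vlist M B x e lab (Strat.cons q sub rest) := by
  rw [hP]
  unfold newP
  conv_rhs => unfold vlist
  refine List.map_congr_left fun i hi => ?_
  rw [List.mem_range] at hi
  rw [table_getD_map _ _ hi]
  unfold vlist
  rw [table_getD_map _ _ hi, table_getD_map _ _ hi, vw, hj]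
  by_cases h : j ≤ i + 1
  · simp only [h, decide_true, cond_true, if_true]
    omega
  · simp only [h, decide_false, cond_false, if_false]
    omega

theorem tab_sound {M B : ℕ} {x : Inst} {e : ℕ} (hM : 0 < M) (hn : 0 < x.1) {D : Strat}
    (hD : D.verts.Nodup) (hv : ∀ v ∈ D.verts, v < x.1) {en : List ℕ × List ℕ}
    (h : en ∈ tabF M B x e D) :
    en.1 = vlist M B x e (lf en.2) D ∧ (∀ v, lf en.2 v ≤ B * M + 1) ∧
      (∀ v, v ∉ D.verts → lf en.2 v = 0) ∧
      ∀ i < B * M, Ok (fun v => wgt M B x e v i) (kap M x i) (lf en.2) i D := by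
  induction D generalizing en with
  | nil =>
    have h1 : en = (List.replicate (B * M) 0, List.replicate x.1 0) := by
      simpa [tabF, t0] using h
    have h2 : ∀ v, lf en.2 v = 0 := fun v => by
      rw [h1]
      unfold lf
      simp only [List.getD_eq_getElem?_getD, List.getElem?_replicate]
      split <;> rfl
    refine ⟨?_, fun v => by rw [h2]; exact Nat.zero_le _, fun v _ => h2 v, fun i _ => trivial⟩
    rw [h1]
    unfold vlist
    simp [vw, List.map_const']
  | cons q sub rest ihs ihr =>
    have hnd := hD
    rw [Strat.verts, List.nodup_cons, List.nodup_append, List.mem_append, not_or] at hnd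
    obtain ⟨⟨hqs, hqr⟩, hns, hnr, hdis⟩ := hnd
    have hv' := hv
    simp only [Strat.verts, List.mem_cons, List.mem_append] at hv'
    rw [tabF] at h
    have h1 := table_mem_prune hM h
    rw [List.mem_flatMap] at h1
    obtain ⟨a, ha, h1⟩ := h1
    rw [List.mem_map] at h1
    obtain ⟨b, hb, rfl⟩ := h1
    have h2 := table_mem_prune hM ha
    rw [List.mem_flatMap] at h2
    obtain ⟨c, hc, h2⟩ := h2
    rw [List.mem_map] at h2
    obtain ⟨j, hj, rfl⟩ := h2
    rw [List.mem_filter, List.mem_range] at hj
    obtain ⟨hjK, hok⟩ := hj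
    obtain ⟨c1, c2, c3, c4⟩ := ihs hns (fun v hv => hv' v (Or.inr (Or.inl hv))) hc
    obtain ⟨b1, b2, b3, b4⟩ := ihr hnr (fun v hv => hv' v (Or.inr (Or.inr hv))) hb
    have hq : q < x.1 := hv' q (Or.inl rfl)
    -- the labels
    have hla : ∀ v, lf (newLab M B x q c.2 j) v = if v = q then j else lf c.2 v := by
      intro v
      unfold newLab
      rw [table_lf_map]
      by_cases h1 : v < x.1
      · rw [if_pos h1]
        by_cases h2 : v = q
        · simp [h2]
        · simp only [h2, decide_false, cond_false, if_false]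
          exact min_eq_right (c2 v)
      · rw [if_neg h1, if_neg (by omega)]
        exact (c3 v fun h => h1 (hv' v (Or.inr (Or.inl h)))).symm
    set en : List ℕ × List ℕ := ((List.range (B * M)).map fun i => min (ncap M x)
        ((newP M B x e q c.1 j).getD i 0 + b.1.getD i 0),
      (List.range x.1).map fun v => min (B * M + 1)
        (max ((newLab M B x q c.2 j).getD v 0) (b.2.getD v 0))) with hen
    have hle : ∀ v, lf en.2 v = max (if v = q then j else lf c.2 v) (lf b.2 v) := by
      intro v
      rw [hen]
      change lf ((List.range x.1).map fun v => min (B * M + 1)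
        (max (lf (newLab M B x q c.2 j) v) (lf b.2 v))) v = _
      rw [table_lf_map]
      by_cases h1 : v < x.1
      · rw [if_pos h1, hla v]
        refine min_eq_right (max_le ?_ (b2 v))
        split
        · omega
        · exact c2 v
      · rw [if_neg h1, if_neg (by omega), c3 v fun h => h1 (hv' v (Or.inr (Or.inl h))),
          b3 v fun h => h1 (hv' v (Or.inr (Or.inr h)))]
        rfl
    have hleq : lf en.2 q = j := by
      rw [hle, if_pos rfl, b3 q hqr, max_eq_left (Nat.zero_le _)]
    have hles : ∀ v ∈ sub.verts, lf c.2 v = lf en.2 v := by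
      intro v hv
      have h1 : v ≠ q := fun h => hqs (h ▸ hv)
      have h2 : v ∉ rest.verts := fun h => hdis v hv v h rfl
      rw [hle, if_neg h1, b3 v h2, max_eq_left (Nat.zero_le _)]
    have hler : ∀ v ∈ rest.verts, lf b.2 v = lf en.2 v := by
      intro v hv
      have h1 : v ≠ q := fun h => hqr (h ▸ hv)
      have h2 : v ∉ sub.verts := fun h => hdis v h v hv rfl
      rw [hle, if_neg h1, c3 v h2, max_eq_right (Nat.zero_le _)]
    refine ⟨?_, ?_, ?_, ?_⟩
    · rw [table_vlist_congr hles] at c1
      rw [table_vlist_congr hler] at b1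
      have := table_state_cons (M := M) (B := B) (x := x) (e := e) (q := q) (j := j)
        (lab := lf en.2) (sub := sub) (rest := rest) rfl hleq
      rw [← c1, ← b1] at this
      exact this
    · intro v
      rw [hle]
      refine max_le ?_ (b2 v)
      split
      · omega
      · exact c2 v
    · intro v hv
      simp only [Strat.verts, List.mem_cons, List.mem_append, not_or] at hv
      rw [hle, if_neg hv.1, c3 v hv.2.1, b3 v hv.2.2]
      rfl
    · intro i hi
      refine ⟨fun hjle => ?_, table_ok_congr hles (c4 i hi), table_ok_congr hler (b4 i hi)⟩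
      rw [hleq] at hjle
      rw [← table_vw_congr hles]
      unfold okB at hok
      rw [List.all_eq_true] at hok
      have h3 := hok i (List.mem_range.2 hi)
      rw [c1] at h3
      unfold vlist at h3
      rw [table_getD_map _ _ hi] at h3
      have h4 := table_kap_lt (x := x) hM hn i
      simp only [hjle, decide_true, Bool.not_true, Bool.false_or, decide_eq_true_eq] at h3
      change wgt M B x e q i + vw (fun v => wgt M B x e v i) (lf c.2) i sub ≤ kap M x i
      omega

theorem table_state_mem {M B : ℕ} {x : Inst} (f : ℕ → ℕ)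
    (hf : ∀ i, f i ≤ ncap M x) : (List.range (B * M)).map f ∈ states (ncap M x) (B * M) := by
  rw [mem_states]
  refine ⟨by simp, fun a ha => ?_⟩
  rw [List.mem_map] at ha
  obtain ⟨i, _, rfl⟩ := ha
  exact hf i

theorem table_cst_split {M : ℕ} {x : Inst} {q : ℕ} (hq : q < x.1) (lab l1 l2 : ℕ → ℕ) (j : ℕ)
    (h : ∀ v, v < x.1 → pay M (lab v) ≤ (if v = q then pay M j else 0) + pay M (l1 v) +
      pay M (l2 v)) :
    cst M x lab ≤ entry x.2.2.1 q * pay M j + cst M x l1 + cst M x l2 := by
  unfold cst
  have h1 : entry x.2.2.1 q * pay M j =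
      ∑ v ∈ Finset.range x.1, entry x.2.2.1 v * (if v = q then pay M j else 0) := by
    simp only [mul_ite, mul_zero]
    rw [Finset.sum_ite_eq' (Finset.range x.1) q (fun v => entry x.2.2.1 v * pay M j),
      if_pos (Finset.mem_range.2 hq)]
  rw [h1, ← Finset.sum_add_distrib, ← Finset.sum_add_distrib]
  refine Finset.sum_le_sum fun v hv => ?_
  rw [← mul_add, ← mul_add]
  exact Nat.mul_le_mul_left _ (h v (Finset.mem_range.1 hv))

theorem table_cst_split' {M : ℕ} {x : Inst} {q : ℕ} (hq : q < x.1) (lab l1 l2 : ℕ → ℕ) (j : ℕ)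
    (h : ∀ v, v < x.1 → (if v = q then pay M j else 0) + pay M (l1 v) +
      pay M (l2 v) ≤ pay M (lab v)) :
    entry x.2.2.1 q * pay M j + cst M x l1 + cst M x l2 ≤ cst M x lab := by
  unfold cst
  have h1 : entry x.2.2.1 q * pay M j =
      ∑ v ∈ Finset.range x.1, entry x.2.2.1 v * (if v = q then pay M j else 0) := by
    simp only [mul_ite, mul_zero]
    rw [Finset.sum_ite_eq' (Finset.range x.1) q (fun v => entry x.2.2.1 v * pay M j),
      if_pos (Finset.mem_range.2 hq)]
  rw [h1, ← Finset.sum_add_distrib, ← Finset.sum_add_distrib]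
  refine Finset.sum_le_sum fun v hv => ?_
  rw [← mul_add, ← mul_add]
  exact Nat.mul_le_mul_left _ (h v (Finset.mem_range.1 hv))

theorem tab_complete {M B : ℕ} {x : Inst} {e : ℕ} (hM : 0 < M) (hn : 0 < x.1) {D : Strat}
    (hD : D.verts.Nodup) (hv : ∀ v ∈ D.verts, v < x.1) (lab : ℕ → ℕ)
    (h1 : ∀ v, lab v ≤ B * M + 1) (h2 : ∀ v, v ∉ D.verts → lab v = 0)
    (h3 : ∀ i < B * M, Ok (fun v => wgt M B x e v i) (kap M x i) lab i D) :
    ∃ en ∈ tabF M B x e D, en.1 = vlist M B x e lab D ∧
      cst M x (lf en.2) ≤ cst M x lab := by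
  induction D generalizing lab with
  | nil =>
    refine ⟨(List.replicate (B * M) 0, List.replicate x.1 0), by simp [tabF, t0], ?_, ?_⟩
    · unfold vlist
      simp [vw, List.map_const']
    · refine Finset.sum_le_sum fun v _ => ?_
      have h4 : lf (List.replicate x.1 0) v = 0 := by
        unfold lf
        simp only [List.getD_eq_getElem?_getD, List.getElem?_replicate]
        split <;> rfl
      rw [h4]
      simp [pay]
  | cons q sub rest ihs ihr =>
    have hnd := hD
    rw [Strat.verts, List.nodup_cons, List.nodup_append, List.mem_append, not_or] at hnd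
    obtain ⟨⟨hqs, hqr⟩, hns, hnr, hdis⟩ := hnd
    have hv' := hv
    simp only [Strat.verts, List.mem_cons, List.mem_append] at hv'
    have hq : q < x.1 := hv' q (Or.inl rfl)
    set lS : ℕ → ℕ := fun v => if v ∈ sub.verts then lab v else 0 with hlS
    set lR : ℕ → ℕ := fun v => if v ∈ rest.verts then lab v else 0 with hlR
    have hS : ∀ v ∈ sub.verts, lab v = lS v := fun v hv => by rw [hlS]; simp [hv]
    have hR : ∀ v ∈ rest.verts, lab v = lR v := fun v hv => by rw [hlR]; simp [hv]
    have hS0 : ∀ v, v ∉ sub.verts → lS v = 0 := fun v hv => by rw [hlS]; simp [hv]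
    have hR0 : ∀ v, v ∉ rest.verts → lR v = 0 := fun v hv => by rw [hlR]; simp [hv]
    obtain ⟨c, hc, hc1, hc2⟩ := ihs hns (fun v hv => hv' v (Or.inr (Or.inl hv))) lS
      (fun v => by
        by_cases h : v ∈ sub.verts
        · rw [← hS v h]; exact h1 v
        · rw [hS0 v h]; exact Nat.zero_le _) hS0
      (fun i hi => table_ok_congr hS (h3 i hi).2.1)
    obtain ⟨b, hb, hb1, hb2⟩ := ihr hnr (fun v hv => hv' v (Or.inr (Or.inr hv))) lR
      (fun v => by
        by_cases h : v ∈ rest.verts
        · rw [← hR v h]; exact h1 v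
        · rw [hR0 v h]; exact Nat.zero_le _) hR0
      (fun i hi => table_ok_congr hR (h3 i hi).2.2)
    rw [← table_vlist_congr hS] at hc1
    rw [← table_vlist_congr hR] at hb1
    -- the entry with the label of `q`
    have hok : okB M B x e q c.1 (lab q) = true := by
      unfold okB
      rw [List.all_eq_true]
      intro i hi
      rw [List.mem_range] at hi
      rw [hc1]
      unfold vlist
      rw [table_getD_map _ _ hi]
      by_cases h : lab q ≤ i + 1
      · have h4 := (h3 i hi).1 h
        change wgt M B x e q i + vw (fun v => wgt M B x e v i) lab i sub ≤ kap M x i at h4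
        simp only [h, decide_true, Bool.not_true, Bool.false_or, decide_eq_true_eq]
        omega
      · simp [h]
    obtain ⟨a, ha, ha1, ha2⟩ := table_prune (M := M) (B := B) (x := x) hM
      (t := (tabF M B x e sub).flatMap fun en =>
        ((List.range (B * M + 2)).filter fun j => okB M B x e q en.1 j).map fun j =>
          (newP M B x e q en.1 j, newLab M B x q en.2 j))
      (en := (newP M B x e q c.1 (lab q), newLab M B x q c.2 (lab q)))
      (List.mem_flatMap.2 ⟨c, hc, List.mem_map.2 ⟨lab q, List.mem_filter.2
        ⟨List.mem_range.2 (by have := h1 q; omega), hok⟩, rfl⟩⟩)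
      (table_state_mem _ fun i => by
        by_cases h : lab q ≤ i + 1
        · simp only [h, decide_true, cond_true]; exact min_le_left _ _
        · simp only [h, decide_false, cond_false]; exact Nat.zero_le _)
    -- the union
    obtain ⟨en, hen, hen1, hen2⟩ := table_prune (M := M) (B := B) (x := x) hM
      (t := (finT M B x e q (tabF M B x e sub)).flatMap fun a => (tabF M B x e rest).map fun b =>
        tabJoin M B x a b)
      (en := tabJoin M B x a b)
      (List.mem_flatMap.2 ⟨a, ha, List.mem_map.2 ⟨b, hb, rfl⟩⟩)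
      (table_state_mem _ fun i => min_le_left _ _)
    refine ⟨en, hen, ?_, ?_⟩
    · rw [hen1]
      have := table_state_cons (M := M) (B := B) (x := x) (e := e) (q := q) (j := lab q)
        (lab := lab) (sub := sub) (rest := rest) rfl rfl
      rw [← this, ← hb1, ← hc1]
      unfold tabJoin
      rw [ha1]
    · have e1 : cst M x (lf (tabJoin M B x a b).2) ≤
          entry x.2.2.1 q * pay M 0 + cst M x (lf a.2) + cst M x (lf b.2) := by
        refine table_cst_split hq _ _ _ 0 fun v hv => ?_
        have h4 : lf (tabJoin M B x a b).2 v ≤ max (lf a.2 v) (lf b.2 v) := by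
          unfold tabJoin
          rw [table_lf_map, if_pos hv]
          exact min_le_right _ _
        have h5 := pay_mono hM h4
        rcases le_total (lf a.2 v) (lf b.2 v) with h | h
        · rw [max_eq_right h] at h5; omega
        · rw [max_eq_left h] at h5; omega
      have e2 : cst M x (lf (newLab M B x q c.2 (lab q))) ≤
          entry x.2.2.1 q * pay M (lab q) + cst M x (lf c.2) + cst M x (fun _ => 0) := by
        refine table_cst_split hq _ _ _ (lab q) fun v hv => ?_
        unfold newLab
        rw [table_lf_map, if_pos hv]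
        by_cases h : v = q
        · simp only [h, decide_true, cond_true, if_true]; omega
        · simp only [h, decide_false, cond_false, if_false]
          have := pay_mono hM (min_le_right (B * M + 1) (c.2.getD v 0))
          unfold lf
          omega
      have e3 : entry x.2.2.1 q * pay M (lab q) + cst M x lS + cst M x lR ≤ cst M x lab := by
        refine table_cst_split' hq _ _ _ (lab q) fun v hv => ?_
        have hp0 : pay M 0 = 0 := rfl
        by_cases hvq : v = q
        · subst hvq
          rw [if_pos rfl, hS0 v hqs, hR0 v hqr, hp0]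
          omega
        · rw [if_neg hvq]
          by_cases hvs : v ∈ sub.verts
          · rw [← hS v hvs, hR0 v fun h => hdis v hvs v h rfl, hp0]
            omega
          · rw [hS0 v hvs, hp0]
            by_cases hvr : v ∈ rest.verts
            · rw [← hR v hvr]; omega
            · rw [hR0 v hvr, hp0]; omega
      have e4 : cst M x (fun _ => 0) = 0 := by
        unfold cst
        have hp0 : pay M 0 = 0 := rfl
        simp [hp0]
      have e5 : pay M 0 = 0 := rfl
      rw [e5] at e1
      simp only at ha2
      omega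

end Pool.Agent.Work.MP_62a643_lc
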