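import Pool.Agent.Work.MP_62a643_lc.Elim
import Pool.Agent.Work.MP_62a643_lc.Order
import Pool.Agent.Work.MP_62a643_lc.Rooted
import Pool.Agent.Work.MP_62a643_lc.Reach
import Pool.Agent.Work.MP_62a643_lc.Table
import Pool.Agent.Work.MP_62a643_lc.Arith

/-!
The tree search problem: the approximation factor of the algorithm.
-/

set_option autoImplicit false

namespace Pool.Agent.Work.MP_62a643_lc

/-! ### Optimal labellings of the blocks -/

theorem asmT_eq (M B : ℕ) (x : Inst) (e : ℕ) (L : List ℕ) :
    asmT M B x ((gelim x (gT M B x e) L).map Prod.snd) = tabF M B x e (dtree x L) := by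
  have key : ∀ (l : List (ℕ × Strat)) (acc : Strat),
      (l.map fun c => finT M B x e c.1 (tabF M B x e c.2)).foldl
        (fun acc t => combT M B x t acc) (tabF M B x e acc) =
      tabF M B x e (l.foldl (fun acc c => Strat.cons c.1 c.2 acc) acc) := by
    intro l
    induction l with
    | nil => intro acc; rfl
    | cons c l ih =>
      intro acc
      rw [List.map_cons, List.foldl_cons, List.foldl_cons]
      exact ih (Strat.cons c.1 c.2 acc)
  have h := gelim_map x (fun c : ℕ × Strat => finT M B x e c.1 (tabF M B x e c.2)) gS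
    (gT M B x e) (fun v l => by
      unfold gT gS asmT asm
      rw [← key l Strat.nil]
      rfl) L
  rw [h, List.map_map]
  have h2 : (Prod.snd ∘ fun c : List ℕ × (ℕ × Strat) =>
      (c.1, finT M B x e c.2.1 (tabF M B x e c.2.2))) =
      (fun c : ℕ × Strat => finT M B x e c.1 (tabF M B x e c.2)) ∘ Prod.snd := rfl
  rw [h2, ← List.map_map]
  exact key _ Strat.nil

theorem nonneg_of_tree {n : ℕ} {E : List (ℕ × ℕ)} (h : IsTreeOn n E) : 0 < n := by
  obtain ⟨v, hv⟩ := (tree_cn h).1
  rw [Finset.mem_range] at hv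
  omega

theorem solve_spec {M B : ℕ} (hM : 0 < M) (x : Inst) (hT : IsTreeOn x.1 x.2.1) (e : ℕ) :
    (∀ v, lf (solve M B x e) v ≤ B * M + 1) ∧ Feas M B x e (lf (solve M B x e)) ∧
    ∀ lab : ℕ → ℕ, (∀ v, lab v ≤ B * M + 1) → (∀ v, x.1 ≤ v → lab v = 0) →
      Feas M B x e lab → cst M x (lf (solve M B x e)) ≤ cst M x lab := by
  have hn := nonneg_of_tree hT
  set D := dtree x (sorder x).reverse with hD
  have hval : IsDecisionTree x.1 x.2.1 D := dtree_valid x _
    (List.nodup_reverse.2 (sorder_nodup hT)) (fun v => by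
      rw [List.mem_reverse]; exact mem_sorder hT v)
  obtain ⟨hnd, hmem⟩ := valid_verts hval
  have hmem' : ∀ v, v ∈ D.verts ↔ v < x.1 := hmem
  have hrep : Rep (graphOf x.1 x.2.1) D := rep_dtree x _ (sorder_nodup hT)
    (fun v hv => (mem_sorder hT v).1 hv)
    (fun A v A' hs u hu u' hu' h1 h2 => sorder_uniq hT hs hu hu' h1 h2)
  have hok : ∀ lab : ℕ → ℕ, (∀ i < B * M, Ok (fun v => wgt M B x e v i) (kap M x i) lab i D) ↔
      Feas M B x e lab := by
    intro lab
    constructor
    · intro h i hi X hX ha hc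
      exact (ok_iff hrep hnd _ _ _ _).1 (h i hi) X
        (fun v hv => ⟨(hmem' v).2 (Finset.mem_range.1 (hX hv)), ha v hv⟩) hc
    · intro h i hi
      exact (ok_iff hrep hnd _ _ _ _).2 fun X hX hc => h i hi X
        (fun v hv => Finset.mem_range.2 ((hmem' v).1 (hX v hv).1)) (fun v hv => (hX v hv).2) hc
  have hne : tabF M B x e D ≠ [] := by
    obtain ⟨en, hen, _⟩ := tab_complete (M := M) (B := B) (x := x) (e := e) hM hn hnd
      (fun v hv => (hmem' v).1 hv) (fun v => if v < x.1 then B * M + 1 else 0)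
      (fun v => by split <;> omega)
      (fun v hv => by
        have : ¬ v < x.1 := fun h => hv ((hmem' v).2 h)
        simp [this])
      ((hok _).2 fun i hi X hX ha hc => by
        exfalso
        obtain ⟨v, hv⟩ := hc.1
        have h1 := ha v hv
        have h2 := Finset.mem_range.1 (hX hv)
        simp only [h2, if_true] at h1
        omega)
    exact List.ne_nil_of_mem hen
  obtain ⟨m, hm, hpick, hmin⟩ := pick_spec
    (fun e b : List ℕ × List ℕ => leB (costL M x e.2) (costL M x b.2))
    (fun e => cst M x (lf e.2))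
    (fun a b => by rw [leB_iff, binVal_costL hM, binVal_costL hM]) (tabF M B x e D) hne
  have hsol : solve M B x e = m.2 := by
    unfold solve
    rw [asmT_eq, ← hD, hpick]
    simp
  obtain ⟨_, h2, _, h4⟩ := tab_sound hM hn hnd (fun v hv => (hmem' v).1 hv) hm
  rw [hsol]
  refine ⟨h2, (hok _).1 h4, ?_⟩
  intro lab hl ho hf
  obtain ⟨en, hen, _, hc⟩ := tab_complete (M := M) (B := B) (x := x) (e := e) hM hn hnd
      (fun v hv => (hmem' v).1 hv) lab hl
      (fun v hv => ho v (by by_contra h; exact hv ((hmem' v).2 (by omega)))) ((hok _).2 hf)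
  exact (hmin en hen).trans hc

/-! ### The labels of a decision tree -/

theorem feas_part {M B : ℕ} (hM : 0 < M) (x : Inst) {D : Strat}
    (hD : IsDecisionTree x.1 x.2.1 D) (l : ℕ → ℕ)
    (hl : ∀ v, v < x.1 → M * (2 ^ B * hw (entry x.2.2.2) D v) ≤ pay M (l v)) (e : ℕ) :
    Feas M B x e (fun v => part M B e (l v)) := by
  intro i hi X hX ha hc
  obtain ⟨q, hq, hw'⟩ := weight_le_hw hD (entry x.2.2.2) hX hc
  refine wgt_of_le hM B x e i X ?_
  have h1 : l q ≤ e * M + i + 1 := by
    have := ha q hq
    simp only [part] at this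
    split at this
    · omega
    · split at this <;> omega
  calc M * (2 ^ B * ∑ v ∈ X, entry x.2.2.2 v)
      ≤ M * (2 ^ B * hw (entry x.2.2.2) D q) := by gcongr
    _ ≤ pay M (l q) := hl q (Finset.mem_range.1 (hX hq))
    _ ≤ pay M (e * M + i + 1) := pay_mono hM h1

theorem part_le (M B e l : ℕ) : part M B e l ≤ B * M + 1 := by
  unfold part
  split
  · omega
  · split <;> omega

theorem sum_cst_le {M B : ℕ} (hM : 0 < M) (hB : 0 < B) (x : Inst)
    (hT : IsTreeOn x.1 x.2.1) {D : Strat} (hD : IsDecisionTree x.1 x.2.1 D) (N : ℕ) :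
    ∑ e ∈ Finset.range N, 2 ^ e * cst M x (lf (solve M B x e)) ≤
      (B + 2) * ((M + 1) * (2 ^ B * cost x.1 x.2.2.1 x.2.2.2 D)) := by
  choose l0 h1 h2 h3 h4 using fun a => pay_level (M := M) (B := B) hM hB a
  set l : ℕ → ℕ := fun v => if v < x.1 then l0 (hw (entry x.2.2.2) D v) else 0 with hl
  have hl1 : ∀ v, v < x.1 → l v = l0 (hw (entry x.2.2.2) D v) := fun v hv => by
    rw [hl]; simp [hv]
  have hl2 : ∀ v, x.1 ≤ v → l v = 0 := fun v hv => by
    rw [hl]; simp [Nat.not_lt.2 hv]
  have key : ∀ e, cst M x (lf (solve M B x e)) ≤ cst M x (fun v => part M B e (l v)) := by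
    intro e
    refine (solve_spec hM x hT e).2.2 _ (fun v => part_le M B e _) ?_
      (feas_part hM x hD l (fun v hv => by rw [hl1 v hv]; exact h2 _) e)
    intro v hv
    rw [hl2 v hv]
    unfold part
    simp
  calc ∑ e ∈ Finset.range N, 2 ^ e * cst M x (lf (solve M B x e))
      ≤ ∑ e ∈ Finset.range N, 2 ^ e * cst M x (fun v => part M B e (l v)) :=
        Finset.sum_le_sum fun e _ => Nat.mul_le_mul_left _ (key e)
    _ = ∑ v ∈ Finset.range x.1, entry x.2.2.1 v *
          ∑ e ∈ Finset.range N, 2 ^ e * pay M (part M B e (l v)) := by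
        simp only [cst, Finset.mul_sum]
        rw [Finset.sum_comm]
        refine Finset.sum_congr rfl fun v _ => Finset.sum_congr rfl fun e _ => by ring
    _ ≤ ∑ v ∈ Finset.range x.1, entry x.2.2.1 v *
          ((B + 2) * ((M + 1) * (2 ^ B * hw (entry x.2.2.2) D v))) := by
        refine Finset.sum_le_sum fun v hv => Nat.mul_le_mul_left _ ?_
        refine (sum_blocks hM (l v) N).trans (Nat.mul_le_mul_left _ ?_)
        rw [hl1 v (Finset.mem_range.1 hv)]
        exact h3 _
    _ = (B + 2) * ((M + 1) * (2 ^ B * cost x.1 x.2.2.1 x.2.2.2 D)) := by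
        rw [cost_eq_hw hD]
        simp only [Finset.mul_sum]
        refine Finset.sum_congr rfl fun v _ => by ring

/-! ### Combination of the blocks -/

/-- The solutions for all octaves. -/
def solsL (M B : ℕ) (x : Inst) : List (List ℕ) :=
  (List.range (B * nblk x)).map (solve M B x)

theorem solsL_getD (M B : ℕ) (x : Inst) {e : ℕ} (he : e < B * nblk x) :
    (solsL M B x).getD e [] = solve M B x e := by
  unfold solsL
  simp [List.getD_eq_getElem?_getD, he]

/-- The combined labelling. -/
def gl (M B : ℕ) (x : Inst) (o v : ℕ) : ℕ := lf (glab M B x (solsL M B x) o) v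

theorem foldl_max_spec (l : List ℕ) (a : ℕ) :
    (∀ b ∈ a :: l, b ≤ l.foldl max a) ∧ l.foldl max a ∈ a :: l := by
  induction l generalizing a with
  | nil => simp
  | cons c l ih =>
    rw [List.foldl_cons]
    obtain ⟨h1, h2⟩ := ih (max a c)
    constructor
    · intro b hb
      have h3 := h1 (max a c) (by simp)
      rcases List.mem_cons.1 hb with rfl | hb
      · exact (le_max_left _ _).trans h3
      · rcases List.mem_cons.1 hb with rfl | hb
        · exact (le_max_right _ _).trans h3
        · exact h1 b (by simp [hb])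
    · rcases List.mem_cons.1 h2 with h2 | h2
      · rw [h2]
        rcases le_total a c with h | h
        · rw [max_eq_right h]; simp
        · rw [max_eq_left h]; simp
      · simp [h2]

theorem lt_of_block {B R o r : ℕ} (ho : o < B) (hr : r < R) : o + r * B < B * R := by
  calc o + r * B < B + r * B := by omega
    _ = B * (r + 1) := by ring
    _ ≤ B * R := Nat.mul_le_mul_left _ hr

theorem gl_spec {M B : ℕ} {x : Inst} {o v : ℕ} (ho : o < B) (hv : v < x.1) :
    (∀ r < nblk x, 0 < lf (solve M B x (o + r * B)) v →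
      (o + r * B) * M + lf (solve M B x (o + r * B)) v ≤ gl M B x o v) ∧
    (gl M B x o v = 0 ∨ ∃ r < nblk x, 0 < lf (solve M B x (o + r * B)) v ∧
      gl M B x o v = (o + r * B) * M + lf (solve M B x (o + r * B)) v) := by
  have hg : gl M B x o v = ((List.range (nblk x)).map fun r =>
      bif decide (((solsL M B x).getD (o + r * B) []).getD v 0 = 0) then 0
        else (o + r * B) * M + ((solsL M B x).getD (o + r * B) []).getD v 0).foldl max 0 := by
    unfold gl lf glab
    rw [List.getD_eq_getElem?_getD, List.getElem?_map, List.getElem?_range hv]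
    rfl
  obtain ⟨h1, h2⟩ := foldl_max_spec ((List.range (nblk x)).map fun r =>
      bif decide (((solsL M B x).getD (o + r * B) []).getD v 0 = 0) then 0
        else (o + r * B) * M + ((solsL M B x).getD (o + r * B) []).getD v 0) 0
  rw [← hg] at h1 h2
  have hs : ∀ r < nblk x, ((solsL M B x).getD (o + r * B) []).getD v 0 =
      lf (solve M B x (o + r * B)) v := fun r hr => by
    rw [solsL_getD M B x (lt_of_block ho hr)]; rfl
  constructor
  · intro r hr hpos
    refine h1 _ (List.mem_cons_of_mem _ (List.mem_map.2 ⟨r, List.mem_range.2 hr, ?_⟩))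
    rw [hs r hr]
    have : decide (lf (solve M B x (o + r * B)) v = 0) = false := by
      rw [decide_eq_false_iff_not]; omega
    rw [this, cond_false]
  · rcases List.mem_cons.1 h2 with h2 | h2
    · exact Or.inl h2
    · rw [List.mem_map] at h2
      obtain ⟨r, hr, h2⟩ := h2
      rw [List.mem_range] at hr
      rw [hs r hr] at h2
      by_cases h0 : lf (solve M B x (o + r * B)) v = 0
      · rw [h0, decide_eq_true rfl, cond_true] at h2
        exact Or.inl h2.symm
      · rw [decide_eq_false h0, cond_false] at h2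
        exact Or.inr ⟨r, hr, by omega, h2.symm⟩

theorem pay_zero (M : ℕ) : pay M 0 = 0 := rfl

theorem cst_gl_le {M B : ℕ} (hM : 0 < M) (x : Inst) {o : ℕ} (ho : o < B) :
    cst M x (gl M B x o) ≤ ∑ r ∈ Finset.range (nblk x),
      2 ^ (o + r * B) * cst M x (lf (solve M B x (o + r * B))) := by
  unfold cst
  simp only [Finset.mul_sum]
  rw [Finset.sum_comm]
  refine Finset.sum_le_sum fun v hv => ?_
  rw [Finset.mem_range] at hv
  rcases (gl_spec (M := M) (B := B) (x := x) ho hv).2 with h | ⟨r, hr, hpos, h⟩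
  · rw [h, pay_zero, mul_zero]
    exact Nat.zero_le _
  · rw [h, pay_shift hM _ _ hpos]
    calc entry x.2.2.1 v * (2 ^ (o + r * B) * pay M (lf (solve M B x (o + r * B)) v))
        = 2 ^ (o + r * B) * (entry x.2.2.1 v *
            pay M (lf (solve M B x (o + r * B)) v)) := by ring
      _ ≤ _ := Finset.single_le_sum (f := fun r => 2 ^ (o + r * B) * (entry x.2.2.1 v *
            pay M (lf (solve M B x (o + r * B)) v))) (fun _ _ => Nat.zero_le _)
            (Finset.mem_range.2 hr)

theorem sum_blocks_range (f : ℕ → ℕ) (B R : ℕ) :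
    ∑ o ∈ Finset.range B, ∑ r ∈ Finset.range R, f (o + r * B) =
      ∑ e ∈ Finset.range (B * R), f e := by
  induction R with
  | zero => simp
  | succ R ih =>
    rw [Nat.mul_succ, Finset.sum_range_add, ← ih, ← Finset.sum_add_distrib]
    refine Finset.sum_congr rfl fun o _ => ?_
    rw [Finset.sum_range_succ]
    congr 2
    ring

theorem gl_le {M B : ℕ} (hM : 0 < M) (x : Inst) (hT : IsTreeOn x.1 x.2.1) {o v : ℕ}
    (ho : o < B) (hv : v < x.1) : gl M B x o v ≤ smax M B x := by
  unfold smax
  rcases (gl_spec (M := M) (B := B) (x := x) ho hv).2 with h | ⟨r, hr, hpos, h⟩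
  · rw [h]; exact Nat.zero_le _
  · rw [h]
    exact add_le_add (Nat.mul_le_mul_right _ (lt_of_block ho hr).le)
      ((solve_spec hM x hT _).1 v)

/-! ### The weights of the components -/

theorem comp_weight {M B : ℕ} (hM : 2 ≤ M) (hB : 0 < B) (x : Inst)
    (hT : IsTreeOn x.1 x.2.1) {o : ℕ} (ho : o < B) (H : Finset ℕ)
    (hH : H ⊆ Finset.range x.1) (hc : Cn (graphOf x.1 x.2.1) H) {q : ℕ} (hq : q ∈ H)
    (hmax : ∀ v ∈ H, gl M B x o v ≤ gl M B x o q) :
    M * (M * (2 ^ B * ∑ v ∈ H, entry x.2.2.2 v)) ≤ (M + 1) * pay M (gl M B x o q) := by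
  have hM0 : 0 < M := by omega
  have hR : 0 < nblk x := by unfold nblk; omega
  have hlt : ∀ v ∈ H, v < x.1 := fun v hv => Finset.mem_range.1 (hH hv)
  -- the weight bound from the block `e` at the level `i`
  have hblock : ∀ r < nblk x, ∀ i < B * M,
      (∀ v ∈ H, lf (solve M B x (o + r * B)) v ≤ i + 1) →
      M * (2 ^ B * ∑ v ∈ H, entry x.2.2.2 v) ≤ pay M ((o + r * B) * M + i + 2) := by
    intro r hr i hi hle
    exact le_of_wgt hM0 B x (o + r * B) i H hH
      ((solve_spec hM0 x hT (o + r * B)).2.1 i hi H hH hle hc)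
  have hKpos : 0 < B * M := Nat.mul_pos hB hM0
  rcases (gl_spec (M := M) (B := B) (x := x) ho (hlt q hq)).2 with h | ⟨r, hr, hpos, h⟩
  · -- all labels vanish
    have h0 : ∀ v ∈ H, lf (solve M B x (o + 0 * B)) v ≤ 0 + 1 := by
      intro v hv
      by_contra hcon
      have h1 := (gl_spec (M := M) (B := B) (x := x) ho (hlt v hv)).1 0 hR (by omega)
      have h2 := hmax v hv
      omega
    have h1 := hblock 0 hR 0 hKpos h0
    have h2 : pay M ((o + 0 * B) * M + 0 + 2) = 2 ^ o * (M + 1) := by
      have : (o + 0 * B) * M + 0 + 2 = o * M + 2 := by ring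
      rw [this, pay_shift hM0 _ _ (by omega)]
      have h3 : pay M 2 = 2 ^ (1 / M) * (M + 1 % M) := rfl
      rw [h3, Nat.div_eq_of_lt (by omega), Nat.mod_eq_of_lt (by omega), pow_zero, one_mul]
    rw [h2] at h1
    have h3 : ∑ v ∈ H, entry x.2.2.2 v = 0 := by
      by_contra hne
      have hpos : 1 ≤ ∑ v ∈ H, entry x.2.2.2 v := Nat.one_le_iff_ne_zero.2 hne
      have h4 : 2 ^ o * 2 ≤ 2 ^ B := by
        rw [← pow_succ]; exact Nat.pow_le_pow_right (by norm_num) ho
      have h5 : M * (2 ^ o * 2 * 1) ≤ 2 ^ o * (M + 1) :=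
        le_trans (Nat.mul_le_mul_left _ (Nat.mul_le_mul h4 hpos)) h1
      have h6 : 0 < 2 ^ o := by positivity
      nlinarith
    rw [h3]
    simp
  · -- the general case
    have hj := (solve_spec (B := B) hM0 x hT (o + r * B)).1 q
    set j := lf (solve M B x (o + r * B)) q with hjdef
    have hsucc : ∀ s, gl M B x o q = s + 1 → M * (2 ^ B * ∑ v ∈ H, entry x.2.2.2 v) ≤
        pay M (s + 2) → M * (M * (2 ^ B * ∑ v ∈ H, entry x.2.2.2 v)) ≤
          (M + 1) * pay M (gl M B x o q) := by
      intro s hs hle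
      rw [hs]
      exact (Nat.mul_le_mul_left _ hle).trans (pay_succ_le hM0 s)
    by_cases hcase : j ≤ B * M
    · refine hsucc ((o + r * B) * M + (j - 1)) (by omega) ?_
      have h1 := hblock r hr (j - 1) (by omega) (fun v hv => by
        by_contra hcon
        have h1 := (gl_spec (M := M) (B := B) (x := x) ho (hlt v hv)).1 r hr (by omega)
        have h2 := hmax v hv
        omega)
      exact h1
    · have hj' : j = B * M + 1 := by omega
      have he : (o + r * B) * M + (B * M + 1) = (o + (r + 1) * B) * M + 1 := by ring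
      by_cases hr' : r + 1 < nblk x
      · refine hsucc ((o + (r + 1) * B) * M + 0) (by omega) ?_
        exact hblock (r + 1) hr' 0 hKpos (fun v hv => by
          by_contra hcon
          have h1 := (gl_spec (M := M) (B := B) (x := x) ho (hlt v hv)).1 (r + 1) hr' (by omega)
          have h2 := hmax v hv
          omega)
      · have hrr : r + 1 = nblk x := by omega
        rw [h, hj', he, pay_shift hM0 _ _ (by omega)]
        have h3 : pay M 1 = M := by
          have : pay M 1 = 2 ^ (0 / M) * (M + 0 % M) := rfl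
          rw [this]; simp
        rw [h3, hrr]
        have h4 : ∑ v ∈ H, entry x.2.2.2 v ≤ 2 ^ (nblk x - 1) :=
          (Finset.sum_le_sum_of_subset hH).trans (weight_lt x)
        have h5 : 2 ^ B * ∑ v ∈ H, entry x.2.2.2 v ≤ 2 ^ (o + nblk x * B) := by
          refine (Nat.mul_le_mul_left _ h4).trans ?_
          rw [← pow_add]
          refine Nat.pow_le_pow_right (by norm_num) ?_
          obtain ⟨R, hR'⟩ : ∃ R, nblk x = R + 1 := ⟨nblk x - 1, by omega⟩
          rw [hR', Nat.add_sub_cancel]
          have : R ≤ R * B := Nat.le_mul_of_pos_right _ hB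
          nlinarith
        calc M * (M * (2 ^ B * ∑ v ∈ H, entry x.2.2.2 v))
            ≤ M * (M * 2 ^ (o + nblk x * B)) := by gcongr
          _ = M * (2 ^ (o + nblk x * B) * M) := by ring
          _ ≤ (M + 1) * (2 ^ (o + nblk x * B) * M) := Nat.mul_le_mul_right _ (Nat.le_succ M)

/-! ### The order of the queries -/

theorem mem_ordL {x : Inst} {lab : List ℕ} {S v : ℕ} :
    v ∈ ordL x lab S ↔ lf lab v ≤ S ∧ v < x.1 := by
  unfold ordL lf
  simp only [List.mem_flatMap, List.mem_range, List.mem_filter, decide_eq_true_eq]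
  constructor
  · rintro ⟨s, h1, h2, h3⟩
    exact ⟨by omega, h2⟩
  · rintro ⟨h1, h2⟩
    exact ⟨_, by omega, h2, rfl⟩

theorem ordL_nodup (x : Inst) (lab : List ℕ) (S : ℕ) : (ordL x lab S).Nodup := by
  unfold ordL
  rw [List.nodup_flatMap]
  refine ⟨fun s _ => (List.nodup_range).filter _, ?_⟩
  refine (List.nodup_range).imp ?_
  intro s s' hss
  simp only [Function.onFun]
  intro v h1 h2
  simp only [List.mem_filter, decide_eq_true_eq] at h1 h2
  exact hss (h1.2.symm.trans h2.2)

theorem ordL_sorted (x : Inst) (lab : List ℕ) (S : ℕ) :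
    (ordL x lab S).Pairwise fun u v => lf lab u ≤ lf lab v := by
  unfold ordL
  rw [List.pairwise_flatMap]
  constructor
  · intro s _
    rw [List.pairwise_iff_forall_sublist]
    intro a b hab
    have ha := hab.subset (show a ∈ [a, b] by simp)
    have hb := hab.subset (show b ∈ [a, b] by simp)
    simp only [List.mem_filter, decide_eq_true_eq] at ha hb
    unfold lf
    omega
  · refine (List.pairwise_lt_range).imp ?_
    intro s s' hss a ha b hb
    simp only [List.mem_filter, decide_eq_true_eq] at ha hb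
    unfold lf
    omega

/-- **The approximation factor.** -/
theorem algo_spec {M B : ℕ} (hM : 2 ≤ M) (hB : 0 < B) (x : Inst)
    (hT : IsTreeOn x.1 x.2.1) :
    IsDecisionTree x.1 x.2.1 (algo M B x) ∧ ∀ D' : Strat, IsDecisionTree x.1 x.2.1 D' →
      M * (M * (B * cost x.1 x.2.2.1 x.2.2.2 (algo M B x))) ≤
        (M + 1) * ((M + 1) * ((B + 2) * cost x.1 x.2.2.1 x.2.2.2 D')) := by
  have hM0 : 0 < M := by omega
  obtain ⟨m, hm, hpick, hmin⟩ := pick_spec
    (fun a b : List ℕ => leB (costL M x a) (costL M x b)) (fun a => cst M x (lf a))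
    (fun a b => by rw [leB_iff, binVal_costL hM0, binVal_costL hM0])
    ((List.range B).map (glab M B x (solsL M B x)))
    (by simp; omega)
  have hbest : bestLab M B x = m := by
    unfold bestLab
    change (pick _ ((List.range B).map (glab M B x (solsL M B x)))).flatten = m
    rw [hpick]
    simp
  rw [List.mem_map] at hm
  obtain ⟨o, ho, hom⟩ := hm
  rw [List.mem_range] at ho
  have hlf : ∀ v, lf m v = gl M B x o v := fun v => by rw [← hom]; rfl
  have hmem : ∀ v, v ∈ ordL x (bestLab M B x) (smax M B x) ↔ v < x.1 := by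
    intro v
    rw [mem_ordL, hbest]
    refine ⟨fun h => h.2, fun h => ⟨?_, h⟩⟩
    rw [hlf]
    exact gl_le hM0 x hT ho h
  have hval : IsDecisionTree x.1 x.2.1 (algo M B x) :=
    dtree_valid x _ (ordL_nodup _ _ _) hmem
  have hgood : Good (graphOf x.1 x.2.1) (lf m) (algo M B x) := by
    have h := dtree_good x _ (ordL_nodup x (bestLab M B x) (smax M B x)) hmem (lf m) (by
      have := ordL_sorted x (bestLab M B x) (smax M B x)
      rw [hbest] at this ⊢
      exact this)
    exact h
  refine ⟨hval, fun D' hD' => ?_⟩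
  -- the cost of the decision tree
  have h1 := good_cost hval (W := x.2.2.2) (C := x.2.2.1) hgood
    (fun v => pay M (lf m v)) (M * (M * 2 ^ B)) (M + 1) (fun H hH hc q hq hle => by
      have h := comp_weight hM hB x hT ho H hH hc hq (fun v hv => by
        rw [← hlf, ← hlf]; exact hle v hv)
      rw [hlf]
      calc M * (M * 2 ^ B) * ∑ v ∈ H, entry x.2.2.2 v
          = M * (M * (2 ^ B * ∑ v ∈ H, entry x.2.2.2 v)) := by ring
        _ ≤ _ := h)
  -- averaging over the offsets
  have h2 : B * cst M x (lf m) ≤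
      (B + 2) * ((M + 1) * (2 ^ B * cost x.1 x.2.2.1 x.2.2.2 D')) := by
    calc B * cst M x (lf m) = ∑ o' ∈ Finset.range B, cst M x (lf m) := by simp
      _ ≤ ∑ o' ∈ Finset.range B, cst M x (gl M B x o') := by
          refine Finset.sum_le_sum fun o' ho' => ?_
          exact hmin _ (List.mem_map.2 ⟨o', List.mem_range.2 (Finset.mem_range.1 ho'), rfl⟩)
      _ ≤ ∑ o' ∈ Finset.range B, ∑ r ∈ Finset.range (nblk x),
            2 ^ (o' + r * B) * cst M x (lf (solve M B x (o' + r * B))) :=
          Finset.sum_le_sum fun o' ho' => cst_gl_le hM0 x (Finset.mem_range.1 ho')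
      _ = ∑ e ∈ Finset.range (B * nblk x), 2 ^ e * cst M x (lf (solve M B x e)) :=
          sum_blocks_range (fun e => 2 ^ e * cst M x (lf (solve M B x e))) B (nblk x)
      _ ≤ _ := sum_cst_le hM0 hB x hT hD' _
  have h3 : ∑ v ∈ Finset.range x.1, entry x.2.2.1 v * pay M (lf m v) = cst M x (lf m) := rfl
  rw [h3] at h1
  have h4 : 0 < 2 ^ B := by positivity
  refine Nat.le_of_mul_le_mul_left ?_ h4
  calc 2 ^ B * (M * (M * (B * cost x.1 x.2.2.1 x.2.2.2 (algo M B x))))
      = B * (M * (M * 2 ^ B) * cost x.1 x.2.2.1 x.2.2.2 (algo M B x)) := by ring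
    _ ≤ B * ((M + 1) * cst M x (lf m)) := Nat.mul_le_mul_left _ h1
    _ = (M + 1) * (B * cst M x (lf m)) := by ring
    _ ≤ (M + 1) * ((B + 2) * ((M + 1) * (2 ^ B * cost x.1 x.2.2.1 x.2.2.2 D'))) :=
        Nat.mul_le_mul_left _ h2
    _ = 2 ^ B * ((M + 1) * ((M + 1) * ((B + 2) * cost x.1 x.2.2.1 x.2.2.2 D'))) := by ring

end Pool.Agent.Work.MP_62a643_lc
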