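import Pool.Agent.Work.MP_62a643_lc.Alg

/-!
The tree search problem: the definitions used in the analysis of the approximation scheme.
-/

set_option autoImplicit false

namespace Pool.Agent.Work.MP_62a643_lc

/-- Connectivity of a finite set of vertices, by cuts: the set is nonempty and has no proper
nonempty subset which is closed under adjacency in the set. -/
def Cn (G : SimpleGraph ℕ) (X : Finset ℕ) : Prop :=
  X.Nonempty ∧ ∀ Y : Finset ℕ, Y ⊆ X → Y.Nonempty →
    (∀ u ∈ Y, ∀ v ∈ X, G.Adj u v → v ∈ Y) → Y = X

/-- The cost of a forest, by recursion. -/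
def scost (c w : ℕ → ℕ) : Strat → ℕ
  | Strat.nil => 0
  | Strat.cons q sub rest => c q * (w q + (sub.verts.map w).sum) + scost c w sub + scost c w rest

/-- The weight of the subtree with the root `y`. -/
def hw (w : ℕ → ℕ) : Strat → ℕ → ℕ
  | Strat.nil, _ => 0
  | Strat.cons q sub rest, y =>
    if y = q then w q + (sub.verts.map w).sum else if y ∈ sub.verts then hw w sub y else hw w rest y

/-- Every subtree is connected in `G`, and its root has the largest label. -/
def Good (G : SimpleGraph ℕ) (lab : ℕ → ℕ) : Strat → Prop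
  | Strat.nil => True
  | Strat.cons q sub rest => Cn G (insert q sub.verts.toFinset) ∧
      (∀ v ∈ sub.verts, lab v ≤ lab q) ∧ Good G lab sub ∧ Good G lab rest

/-- The roots of a forest. -/
def roots : Strat → List ℕ
  | Strat.nil => []
  | Strat.cons q _ rest => q :: roots rest

/-- The forest is the graph induced by `G` on its vertices, as a rooted forest: the edges of `G`
are those between parents and children. -/
def Rep (G : SimpleGraph ℕ) : Strat → Prop
  | Strat.nil => True
  | Strat.cons q sub rest => (∀ v ∈ sub.verts, G.Adj q v ↔ v ∈ roots sub) ∧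
      (∀ u ∈ q :: sub.verts, ∀ v ∈ rest.verts, ¬ G.Adj u v) ∧ Rep G sub ∧ Rep G rest

/-- The total weight (for the weight function `u`) of the alive vertices (those with labels at most
`i + 1`) which are connected with a root by alive vertices. -/
def vw (u lab : ℕ → ℕ) (i : ℕ) : Strat → ℕ
  | Strat.nil => 0
  | Strat.cons q sub rest => (if lab q ≤ i + 1 then u q + vw u lab i sub else 0) + vw u lab i rest

/-- At every alive vertex the weight of its alive component, taken below the vertex, is at most
`k`. -/
def Ok (u : ℕ → ℕ) (k : ℕ) (lab : ℕ → ℕ) (i : ℕ) : Strat → Prop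
  | Strat.nil => True
  | Strat.cons q sub rest => (lab q ≤ i + 1 → u q + vw u lab i sub ≤ k) ∧
      Ok u k lab i sub ∧ Ok u k lab i rest

/-- The table of a forest. -/
def tabF (M B : ℕ) (x : Inst) (e : ℕ) : Strat → Tab
  | Strat.nil => t0 M B x
  | Strat.cons q sub rest =>
    combT M B x (finT M B x e q (tabF M B x e sub)) (tabF M B x e rest)

/-- The cost of a labelling. -/
def cst (M : ℕ) (x : Inst) (lab : ℕ → ℕ) : ℕ :=
  ∑ v ∈ Finset.range x.1, entry x.2.2.1 v * pay M (lab v)

/-- The labelling given by a list. -/
def lf (l : List ℕ) (v : ℕ) : ℕ := l.getD v 0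

/-- The list of the capped weights `vw`, for all levels. -/
def vlist (M B : ℕ) (x : Inst) (e : ℕ) (lab : ℕ → ℕ) (D : Strat) : List ℕ :=
  (List.range (B * M)).map fun i =>
    min (ncap M x) (vw (fun v => wgt M B x e v i) lab i D)

/-- The labelling satisfies the constraints of the block `e`. -/
def Feas (M B : ℕ) (x : Inst) (e : ℕ) (lab : ℕ → ℕ) : Prop :=
  ∀ i < B * M, ∀ X : Finset ℕ, X ⊆ Finset.range x.1 → (∀ v ∈ X, lab v ≤ i + 1) →
    Cn (graphOf x.1 x.2.1) X → ∑ v ∈ X, wgt M B x e v i ≤ kap M x i

end Pool.Agent.Work.MP_62a643_lc
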