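import Pool.Agent.Work.MP_62a643_lc.Alg
import Pool.Agent.Work.PolyTime.Raw

/-!
The approximation scheme for the tree search problem runs in polynomial time.
-/

set_option autoImplicit false

namespace Pool.Agent.Work.MP_62a643_lc

open Pool.Agent.Work.PolyTime
open Pool.Agent.Work.MP_63b90e_lc (addB padTo shiftB addB_length padTo_length)

variable {α β : Type} [Code α] [Code β]

/-! ### Sizes -/

theorem sz_filter_le (p : β → Bool) (l : List β) : sz (l.filter p) ≤ sz l := by
  induction l with
  | nil => simp
  | cons a l ih =>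
    rw [List.filter_cons]
    split
    · simp only [sz_cons]; omega
    · simp only [sz_cons]; omega

theorem sz_bits_le (l : List Bool) : sz l ≤ 1 + 4 * l.length := by
  induction l with
  | nil => simp
  | cons a l ih =>
    have := sz_bool a
    simp only [sz_cons, List.length_cons]
    omega

theorem PB.nat {f : α → ℕ} (hf : PTime f) : PB f :=
  hf.sz_le.mono fun a => by rw [sz_nat]; omega

theorem PB.len {f : α → List β} (hf : PTime f) : PB (fun a => (f a).length) :=
  hf.sz_le.mono fun a => (length_lt_sz _).le

/-! ### Search trees -/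

/-- The tree of a forest. -/
def stratCode : Strat → T
  | Strat.nil => T.nil
  | Strat.cons q s r => T.cons (code q) (T.cons (stratCode s) (stratCode r))

instance : Code Strat := ⟨stratCode⟩

@[fun_prop]
theorem ptime_stratCons {q : α → ℕ} {s r : α → Strat} (hq : PTime q) (hs : PTime s)
    (hr : PTime r) : PTime (fun a => Strat.cons (q a) (s a) (r a)) :=
  (PTime.prodMk hq (PTime.prodMk hs hr)).recode fun _ => rfl

theorem sz_strat_cons (q : ℕ) (s r : Strat) :
    sz (Strat.cons q s r) = 2 + sz q + sz s + sz r := by
  have : sz (Strat.cons q s r) = sz (q, s, r) := rfl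
  rw [this, sz_pair, sz_pair]
  omega

theorem sz_asm (l : List (ℕ × Strat)) (t : Strat) :
    sz (l.foldl (fun acc c => Strat.cons c.1 c.2 acc) t) + 1 = sz t + sz l := by
  induction l generalizing t with
  | nil => simp
  | cons c l ih =>
    rw [List.foldl_cons]
    have h := ih (Strat.cons c.1 c.2 t)
    have h2 := sz_pair c.1 c.2
    rw [sz_strat_cons] at h
    rw [sz_cons]
    change sz c = _ at h2
    omega

@[fun_prop]
theorem ptime_asm {l : α → List (ℕ × Strat)} (hl : PTime l) : PTime (fun a => asm (l a)) := by
  have h := PTime.foldlGrow (l := l) (s := fun _ => Strat.nil)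
    (f := fun y : α × Strat × (ℕ × Strat) => Strat.cons y.2.2.1 y.2.2.2 y.2.1) hl
    (PTime.const _) (by fun_prop) (G := fun a => sz (l a) + 1) (hl.sz_le.add (PB.const 1)) ?_
  · exact h
  · intro a c hc s
    have h1 := sz_mem hc
    have h2 := sz_pair c.1 c.2
    change sz c = _ at h2
    simp only [sz_strat_cons]
    omega

/-! ### Elimination -/

@[fun_prop]
theorem ptime_adjB {x : α → Inst} {u v : α → ℕ} (hx : PTime x) (hu : PTime u) (hv : PTime v) :
    PTime (fun a => adjB (x a) (u a) (v a)) := by
  unfold adjB
  fun_prop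

@[fun_prop]
theorem ptime_hit {x : α → Inst} {v : α → ℕ} {c : α → List ℕ × β} (hx : PTime x) (hv : PTime v)
    (hc : PTime c) : PTime (fun a => hit (x a) (v a) (c a)) := by
  unfold hit
  refine PTime.any (l := fun a => (c a).1) (p := fun a u => adjB (x a) (v a) u) (by fun_prop) ?_
  exact ptime_adjB (hx.comp PTime.fst) (hv.comp PTime.fst) PTime.snd

theorem sz_split (p : List ℕ × β → Bool) (F : List (List ℕ × β)) :
    sz ((F.filter p).flatMap Prod.fst) + sz ((F.filter p).map Prod.snd) +
      sz (F.filter fun c => !(p c)) ≤ sz F + 2 := by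
  induction F with
  | nil => simp
  | cons c F ih =>
    have h2 := sz_pair c.1 c.2
    change sz c = _ at h2
    by_cases h : p c = true
    · rw [List.filter_cons_of_pos h, List.filter_cons_of_neg (by simpa using h),
        List.flatMap_cons, List.map_cons]
      have h1 := sz_append c.1 ((F.filter p).flatMap Prod.fst)
      simp only [sz_cons]
      have h3 := sz_pos c.1
      omega
    · rw [List.filter_cons_of_neg h, List.filter_cons_of_pos (by simpa using h)]
      simp only [sz_cons]
      omega

theorem ptime_gelim {x : α → Inst} {g : α → ℕ → List β → β} {L : α → List ℕ} (hx : PTime x)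
    (hL : PTime L) (hg : PTime (fun y : α × ℕ × List β => g y.1 y.2.1 y.2.2)) {G : α → ℕ}
    (hG : PB G) (hb : ∀ a, ∀ v ∈ L a, ∀ l, sz (g a v l) ≤ sz l + G a) :
    PTime (fun a => gelim (x a) (g a) (L a)) := by
  unfold gelim
  refine PTime.foldlGrow (l := L) (s := fun _ => [])
    (f := fun y : α × List (List ℕ × β) × ℕ => gstep (x y.1) (g y.1) y.2.1 y.2.2) hL
    (PTime.const _) ?_ (G := fun a => sz (L a) + G a + 10)
    ((hL.sz_le.add hG).add (PB.const 10)) ?_
  · unfold gstep
    have hF : PTime (fun y : α × List (List ℕ × β) × ℕ =>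
        y.2.1.filter (hit (x y.1) y.2.2)) :=
      PTime.filter (l := fun y : α × List (List ℕ × β) × ℕ => y.2.1)
        (p := fun y c => hit (x y.1) y.2.2 c) (by fun_prop)
        (ptime_hit (hx.comp (by fun_prop)) (by fun_prop) (by fun_prop))
    have hF' : PTime (fun y : α × List (List ℕ × β) × ℕ =>
        y.2.1.filter (fun c => !(hit (x y.1) y.2.2 c))) :=
      PTime.filter (l := fun y : α × List (List ℕ × β) × ℕ => y.2.1)
        (p := fun y c => !(hit (x y.1) y.2.2 c)) (by fun_prop)
        (PTime.not (ptime_hit (hx.comp (by fun_prop)) (by fun_prop) (by fun_prop)))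
    refine PTime.cons (PTime.prodMk (PTime.cons (by fun_prop) ?_) ?_) hF'
    · exact PTime.flatMap (f := fun _ c => c.1) hF (by fun_prop)
    · have h1 : PTime (fun y : α × List (List ℕ × β) × ℕ =>
          (y.2.1.filter (hit (x y.1) y.2.2)).map Prod.snd) :=
        PTime.map (f := fun _ c => c.2) hF (by fun_prop)
      exact hg.comp (PTime.prodMk PTime.fst (PTime.prodMk (by fun_prop) h1))
  · intro a v hv F
    have h1 := sz_split (hit (x a) v) F
    have h2 := hb a v hv ((F.filter (hit (x a) v)).map Prod.snd)
    have h3 := sz_mem hv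
    simp only [gstep, sz_cons, sz_pair]
    omega

@[fun_prop]
theorem ptime_dtree {x : α → Inst} {L : α → List ℕ} (hx : PTime x) (hL : PTime L) :
    PTime (fun a => dtree (x a) (L a)) := by
  unfold dtree
  refine ptime_asm (PTime.map (f := fun _ (c : List ℕ × (ℕ × Strat)) => c.2) ?_ (by fun_prop))
  refine ptime_gelim (g := fun _ => gS) hx hL (by unfold gS; fun_prop)
    (G := fun a => sz (L a) + 1) (hL.sz_le.add (PB.const 1)) ?_
  intro a v hv l
  have h1 := sz_asm l Strat.nil
  have h2 := sz_mem hv
  have h3 : sz (Strat.nil) = 1 := rfl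
  have h4 : sz (asm l) = sz l := by
    have : asm l = l.foldl (fun acc c => Strat.cons c.1 c.2 acc) Strat.nil := rfl
    rw [this]
    omega
  simp only [gS, sz_pair]
  omega

@[fun_prop]
theorem ptime_grow {x : α → Inst} {L : α → List ℕ} (hx : PTime x) (hL : PTime L) :
    PTime (fun a => grow (x a) (L a)) := by
  unfold grow
  refine PTime.append hL (PTime.take (PTime.filter (l := fun a => List.range (x a).1)
    (p := fun a v => !(memB v (L a)) && (L a).any fun u => adjB (x a) u v)
    (by fun_prop) ?_) (PTime.const 1))
  refine PTime.and (by fun_prop) ?_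
  exact PTime.any (l := fun y : α × ℕ => L y.1) (p := fun y u => adjB (x y.1) u y.2)
    (hL.comp PTime.fst) (by fun_prop)

@[fun_prop]
theorem ptime_sorder {x : α → Inst} (hx : PTime x) : PTime (fun a => sorder (x a)) := by
  unfold sorder
  refine PTime.foldlGrow (l := fun a => List.replicate (x a).1 ()) (s := fun _ => [0])
    (f := fun y : α × List ℕ × Unit => grow (x y.1) y.2.1) (by fun_prop) (PTime.const _)
    (ptime_grow (hx.comp PTime.fst) (by fun_prop))
    (G := fun a => sz (List.range (x a).1))
    (PTime.range (n := fun a => (x a).1) (by fun_prop)).sz_le ?_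
  intro a _ _ L
  simp only [grow]
  have h1 := sz_append L (((List.range (x a).1).filter fun v => !(memB v L) &&
    L.any fun u => adjB (x a) u v).take 1)
  have h2 := sz_prefix (List.take_prefix 1 ((List.range (x a).1).filter fun v => !(memB v L) &&
    L.any fun u => adjB (x a) u v))
  have h3 := sz_filter_le (fun v => !(memB v L) && L.any fun u => adjB (x a) u v)
    (List.range (x a).1)
  omega

/-! ### Numbers -/

theorem length_foldl_addB (l : List (List Bool)) (acc : List Bool) (B : ℕ)
    (hl : ∀ a ∈ l, a.length ≤ B) (hacc : acc.length ≤ B) :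
    (l.foldl addB acc).length ≤ B + l.length := by
  have key : ∀ (l : List (List Bool)) (acc : List Bool) (m : ℕ), (∀ a ∈ l, a.length ≤ B) →
      acc.length ≤ B + m → (l.foldl addB acc).length ≤ B + m + l.length := by
    intro l
    induction l with
    | nil => intro acc m _ h; simpa using h
    | cons a l ih =>
      intro acc m hl h
      rw [List.foldl_cons]
      have h1 := hl a (by simp)
      have h2 := ih (addB acc a) (m + 1) (fun b hb => hl b (by simp [hb]))
        (by rw [addB_length]; omega)
      simp only [List.length_cons]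
      omega
  simpa using key l acc 0 hl (by simpa using hacc)

@[fun_prop]
theorem ptime_addB {a b : α → List Bool} (ha : PTime a) (hb : PTime b) :
    PTime (fun x => addB (a x) (b x)) := Pool.Agent.Work.MP_63b90e_lc.PTime.addB ha hb

@[fun_prop]
theorem ptime_padTo {a b : α → List Bool} (ha : PTime a) (hb : PTime b) :
    PTime (fun x => padTo false (a x) (b x)) := Pool.Agent.Work.MP_63b90e_lc.PTime.padTo ha hb

@[fun_prop]
theorem ptime_shiftB {j : α → ℕ} {a : α → List Bool} (hj : PTime j) (ha : PTime a) :
    PTime (fun x => shiftB (j x) (a x)) := Pool.Agent.Work.MP_63b90e_lc.PTime.shiftB hj ha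

theorem ptime_sumB {l : α → List (List Bool)} (hl : PTime l) :
    PTime (fun a => (l a).foldl addB []) := by
  refine PTime.foldl (l := l) (s := fun _ => [])
    (f := fun y : α × List Bool × List Bool => addB y.2.1 y.2.2) hl (PTime.const _)
    (by fun_prop) (B := fun a => 1 + 4 * (2 * sz (l a)))
    ((PB.const 1).add ((PB.const 4).mul ((PB.const 2).mul hl.sz_le))) ?_
  intro a l' hl'
  have h1 := length_foldl_addB l' [] (sz (l a)) (fun b hb => by
    have h2 := sz_mem (hl'.subset hb)
    have h3 := length_lt_sz b
    omega) (by simp)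
  have h4 : l'.length ≤ sz (l a) := hl'.length_le.trans (length_lt_sz _).le
  have h5 := sz_bits_le (l'.foldl addB [])
  change sz (l'.foldl addB []) ≤ _
  omega

theorem mulN_eq (k : ℕ) (a : List Bool) : mulN k a = (List.replicate k a).foldl addB [] := by
  unfold mulN
  have key : ∀ (k : ℕ) (s : List Bool), (List.replicate k ()).foldl (fun s _ => addB s a) s =
      (List.replicate k a).foldl addB s := by
    intro k
    induction k with
    | zero => intro s; rfl
    | succ k ih => intro s; simp only [List.replicate_succ, List.foldl_cons]; exact ih _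
  exact key k []

@[fun_prop]
theorem ptime_mulN {k : α → ℕ} {a : α → List Bool} (hk : PTime k) (ha : PTime a) :
    PTime (fun x => mulN (k x) (a x)) := by
  simp only [mulN_eq]
  exact ptime_sumB (Pool.Agent.Work.MP_63b90e_lc.PTime.replicate hk ha)

theorem ucap_le (N : ℕ) (l : List Bool) (r : ℕ) (hr : r ≤ N) :
    l.foldl (fun r b => min (r + r + (bif b then 1 else 0)) N) r ≤ N := by
  induction l generalizing r with
  | nil => simpa using hr
  | cons b l ih => rw [List.foldl_cons]; exact ih _ (min_le_right _ _)

@[fun_prop]
theorem ptime_ucap {N : α → ℕ} {a : α → List Bool} (hN : PTime N) (ha : PTime a) :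
    PTime (fun x => ucap (N x) (a x)) := by
  unfold ucap
  refine PTime.foldl (l := fun x => (a x).reverse) (s := fun _ => 0)
    (f := fun y : α × ℕ × Bool => min (y.2.1 + y.2.1 + (bif y.2.2 then 1 else 0)) (N y.1))
    (by fun_prop) (PTime.const _)
    (PTime.natMin (by fun_prop) (hN.comp PTime.fst))
    (B := fun x => sz (N x)) hN.sz_le ?_
  intro x l' _
  simp only [sz_nat]
  have := ucap_le (N x) l' 0 (Nat.zero_le _)
  omega

@[fun_prop]
theorem ptime_leB {a b : α → List Bool} (ha : PTime a) (hb : PTime b) :
    PTime (fun x => leB (a x) (b x)) := by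
  unfold leB
  refine PTime.foldlGrow (l := fun x => (padTo false (a x) (b x)).zip (padTo false (b x) (a x)))
    (s := fun _ => true)
    (f := fun y : α × Bool × (Bool × Bool) =>
      bif y.2.2.1 then (y.2.2.2 && y.2.1) else (y.2.2.2 || y.2.1))
    (by fun_prop) (PTime.const _) (by fun_prop) (G := fun _ => 3) (PB.const 3) ?_
  intro x p _ s
  have h1 := sz_bool (bif p.1 then (p.2 && s) else (p.2 || s))
  simp only
  omega

@[fun_prop]
theorem ptime_dv (M : ℕ) {i : α → ℕ} (hi : PTime i) : PTime (fun x => dv M (i x)) := by
  unfold dv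
  exact PTime.length (PTime.filter (l := fun x => List.range (i x))
    (p := fun x q => decide ((q + 1) * M ≤ i x)) (by fun_prop)
    (PTime.natLe (by fun_prop) (hi.comp PTime.fst)))

@[fun_prop]
theorem ptime_payB (M : ℕ) {j : α → ℕ} {c : α → List Bool} (hj : PTime j) (hc : PTime c) :
    PTime (fun x => payB M (j x) (c x)) := by
  unfold payB
  fun_prop

@[fun_prop]
theorem ptime_costL (M : ℕ) {x : α → Inst} {lab : α → List ℕ} (hx : PTime x)
    (hl : PTime lab) : PTime (fun a => costL M (x a) (lab a)) := by
  unfold costL
  refine ptime_sumB (PTime.map (l := fun a => List.range (x a).1)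
    (f := fun a v => payB M ((lab a).getD v 0) ((x a).2.2.1.getD v [])) (by fun_prop) ?_)
  refine ptime_payB M (PTime.nth (hl.comp PTime.fst) PTime.snd (PTime.const 0)) ?_
  exact PTime.nth (l := fun y : α × ℕ => (x y.1).2.2.1) (by fun_prop) PTime.snd (PTime.const [])

/-! ### Picking -/

theorem pick_aux (le : β → β → Bool) (l : List β) (acc : List β) (hacc : acc.length ≤ 1) :
    (l.foldl (fun acc e => bif (acc.all fun b => le e b) then [e] else acc) acc).length ≤ 1 ∧
    ∀ a ∈ l.foldl (fun acc e => bif (acc.all fun b => le e b) then [e] else acc) acc,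
      a ∈ acc ∨ a ∈ l := by
  induction l generalizing acc with
  | nil => exact ⟨hacc, fun a ha => Or.inl ha⟩
  | cons e l ih =>
    rw [List.foldl_cons]
    cases h : (acc.all fun b => le e b)
    · have h1 := ih acc hacc
      rw [cond_false]
      exact ⟨h1.1, fun a ha => (h1.2 a ha).imp id fun h => List.mem_cons_of_mem _ h⟩
    · have h1 := ih [e] (by simp)
      rw [cond_true]
      refine ⟨h1.1, fun a ha => ?_⟩
      rcases h1.2 a ha with h2 | h2
      · right; rw [List.mem_singleton] at h2; subst h2; simp
      · right; exact List.mem_cons_of_mem _ h2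

theorem pick_length (le : β → β → Bool) (l : List β) : (pick le l).length ≤ 1 :=
  (pick_aux le l [] (by simp)).1

theorem mem_of_mem_pick {le : β → β → Bool} {l : List β} {a : β} (h : a ∈ pick le l) : a ∈ l := by
  rcases (pick_aux le l [] (by simp)).2 a h with h | h
  · simp at h
  · exact h

theorem ptime_pick {l : α → List β} {le : α → β → β → Bool} (hl : PTime l)
    (hle : PTime (fun y : α × β × β => le y.1 y.2.1 y.2.2)) :
    PTime (fun a => pick (le a) (l a)) := by
  unfold pick
  refine PTime.foldl (l := l) (s := fun _ => [])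
    (f := fun y : α × List β × β =>
      bif (y.2.1.all fun b => le y.1 y.2.2 b) then [y.2.2] else y.2.1) hl (PTime.const _)
    ?_ (B := fun a => 2 + sz (l a)) ((PB.const 2).add hl.sz_le) ?_
  · refine PTime.cond ?_ (PTime.cons (by fun_prop) (PTime.const [])) (by fun_prop)
    exact PTime.all (l := fun y : α × List β × β => y.2.1) (p := fun y b => le y.1 y.2.2 b)
      (by fun_prop) (hle.comp (f := fun z : (α × List β × β) × β => (z.1.1, z.1.2.2, z.2))
        (by fun_prop))
  · intro a l' hl'
    obtain ⟨h1, h2⟩ := pick_aux (le a) l' [] (by simp)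
    change sz (l'.foldl (fun acc e => bif (acc.all fun b => le a e b) then [e] else acc) []) ≤ _
    generalize l'.foldl (fun acc e => bif (acc.all fun b => le a e b) then [e] else acc) []
      = q at h1 h2
    match q, h1, h2 with
    | [], _, _ => rw [sz_nil]; omega
    | [b], _, h2 =>
      have h3 := h2 b (by simp)
      simp only [List.not_mem_nil, false_or] at h3
      have h4 := sz_mem (hl'.subset h3)
      simp only [sz_cons, sz_nil]
      omega
    | _ :: _ :: _, h1, _ => simp at h1

/-! ### Tables -/

@[fun_prop]
theorem ptime_states (K : ℕ) {N : α → ℕ} (hN : PTime N) : PTime (fun a => states (N a) K) := by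
  induction K with
  | zero => exact PTime.const _
  | succ K ih =>
    exact PTime.flatMap (f := fun a l => (List.range (N a + 1)).map fun i => i :: l) ih
      (PTime.map (l := fun y : α × List ℕ => List.range (N y.1 + 1)) (f := fun y i => i :: y.2)
        (by fun_prop) (by fun_prop))

@[fun_prop]
theorem ptime_ncap (M : ℕ) {x : α → Inst} (hx : PTime x) : PTime (fun a => ncap M (x a)) := by
  unfold ncap
  fun_prop

@[fun_prop]
theorem ptime_wgt (M B : ℕ) {x : α → Inst} {e v i : α → ℕ} (hx : PTime x) (he : PTime e)
    (hv : PTime v) (hi : PTime i) : PTime (fun a => wgt M B (x a) (e a) (v a) (i a)) := by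
  unfold wgt
  fun_prop

@[fun_prop]
theorem ptime_kap (M : ℕ) {x : α → Inst} {i : α → ℕ} (hx : PTime x) (hi : PTime i) :
    PTime (fun a => kap M (x a) (i a)) := by
  unfold kap
  fun_prop

theorem ptime_leC (M : ℕ) {x : α → Inst} {l m : α → List ℕ} (hx : PTime x) (hl : PTime l)
    (hm : PTime m) : PTime (fun a => leB (costL M (x a) (l a)) (costL M (x a) (m a))) :=
  ptime_leB (ptime_costL M hx hl) (ptime_costL M hx hm)

end Pool.Agent.Work.MP_62a643_lc
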