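import Pool.Agent.Work.MP_62a643_lc.TimeA

/-!
The approximation scheme for the tree search problem runs in polynomial time: tables.
-/

set_option autoImplicit false

namespace Pool.Agent.Work.MP_62a643_lc

open Pool.Agent.Work.PolyTime

variable {α β : Type} [Code α] [Code β]

/-- Comparison of the costs of two entries. -/
def leC (M : ℕ) (x : Inst) (e b : List ℕ × List ℕ) : Bool := leB (costL M x e.2) (costL M x b.2)

theorem ptime_leC2 (M : ℕ) {x : α → Inst} (hx : PTime x) :
    PTime (fun y : α × (List ℕ × List ℕ) × (List ℕ × List ℕ) => leC M (x y.1) y.2.1 y.2.2) :=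
  ptime_leC M (x := fun y : α × (List ℕ × List ℕ) × (List ℕ × List ℕ) => x y.1)
    (l := fun y => y.2.1.2) (m := fun y => y.2.2.2) (hx.comp PTime.fst) (by fun_prop)
    (by fun_prop)

theorem ptime_pickC (M : ℕ) {x : α → Inst} {t : α → Tab} (hx : PTime x) (ht : PTime t) :
    PTime (fun a => pick (leC M (x a)) (t a)) :=
  ptime_pick (l := t) (le := fun a => leC M (x a)) ht (ptime_leC2 M hx)

theorem ptime_sel {t : α → Tab} {s : α → List ℕ} (ht : PTime t) (hs : PTime s) :
    PTime (fun a => (t a).filter fun e => decide (e.1 = s a)) :=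
  PTime.filter (l := t) (p := fun a e => decide (e.1 = s a)) ht
    (PTime.eq (f := fun y : α × (List ℕ × List ℕ) => y.2.1) (g := fun y => s y.1)
      (by fun_prop) (hs.comp PTime.fst))

theorem prune_eq (M B : ℕ) (x : Inst) (t : Tab) : prune M B x t =
    (states (ncap M x) (B * M)).flatMap fun s =>
      pick (leC M x) (t.filter fun e => decide (e.1 = s)) := rfl

theorem ptime_prune (M B : ℕ) {x : α → Inst} {t : α → Tab} (hx : PTime x) (ht : PTime t) :
    PTime (fun a => prune M B (x a) (t a)) :=
  PTime.flatMap (l := fun a => states (ncap M (x a)) (B * M))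
    (f := fun a s => pick (leC M (x a)) ((t a).filter fun e => decide (e.1 = s)))
    (ptime_states _ (ptime_ncap M hx))
    (ptime_pickC M (x := fun y : α × List ℕ => x y.1) (hx.comp PTime.fst)
      (ptime_sel (t := fun y : α × List ℕ => t y.1) (s := fun y => y.2)
        (ht.comp PTime.fst) PTime.snd))

theorem ptime_okB (M B : ℕ) {x : α → Inst} {e q j : α → ℕ} {Q : α → List ℕ} (hx : PTime x)
    (he : PTime e) (hq : PTime q) (hQ : PTime Q) (hj : PTime j) :
    PTime (fun a => okB M B (x a) (e a) (q a) (Q a) (j a)) := by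
  refine PTime.all (l := fun _ => List.range (B * M))
    (p := fun a i => !(decide (j a ≤ i + 1)) ||
      decide (wgt M B (x a) (e a) (q a) i + (Q a).getD i 0 ≤ kap M (x a) i)) (PTime.const _) ?_
  refine PTime.or (PTime.not (PTime.natLe (hj.comp PTime.fst) (PTime.succ PTime.snd))) ?_
  refine PTime.natLe (PTime.natAdd ?_ ?_) ?_
  · exact ptime_wgt M B (hx.comp PTime.fst) (he.comp PTime.fst) (hq.comp PTime.fst) PTime.snd
  · exact PTime.nth (hQ.comp PTime.fst) PTime.snd (PTime.const 0)
  · exact ptime_kap M (hx.comp PTime.fst) PTime.snd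

theorem ptime_newP (M B : ℕ) {x : α → Inst} {e q j : α → ℕ} {Q : α → List ℕ} (hx : PTime x)
    (he : PTime e) (hq : PTime q) (hQ : PTime Q) (hj : PTime j) :
    PTime (fun a => newP M B (x a) (e a) (q a) (Q a) (j a)) := by
  refine PTime.map (l := fun _ => List.range (B * M))
    (f := fun a i => bif decide (j a ≤ i + 1) then
      min (ncap M (x a)) (wgt M B (x a) (e a) (q a) i + (Q a).getD i 0) else 0)
    (PTime.const _) ?_
  refine PTime.cond (PTime.natLe (hj.comp PTime.fst) (PTime.succ PTime.snd)) ?_ (PTime.const 0)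
  refine PTime.natMin (ptime_ncap M (hx.comp PTime.fst)) (PTime.natAdd ?_ ?_)
  · exact ptime_wgt M B (hx.comp PTime.fst) (he.comp PTime.fst) (hq.comp PTime.fst) PTime.snd
  · exact PTime.nth (hQ.comp PTime.fst) PTime.snd (PTime.const 0)

theorem ptime_newLab (M B : ℕ) {x : α → Inst} {q j : α → ℕ} {lab : α → List ℕ} (hx : PTime x)
    (hq : PTime q) (hl : PTime lab) (hj : PTime j) :
    PTime (fun a => newLab M B (x a) (q a) (lab a) (j a)) := by
  refine PTime.map (l := fun a => List.range (x a).1)
    (f := fun a v => bif decide (v = q a) then j a else min (B * M + 1) ((lab a).getD v 0))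
    (PTime.range (PTime.fst.comp hx)) ?_
  refine PTime.cond (PTime.eq PTime.snd (hq.comp PTime.fst)) (hj.comp PTime.fst) ?_
  exact PTime.natMin (PTime.const _) (PTime.nth (hl.comp PTime.fst) PTime.snd (PTime.const 0))

/-- The candidates for the table with the new root `q`. -/
def candT (M B : ℕ) (x : Inst) (e q : ℕ) (en : List ℕ × List ℕ) : Tab :=
  ((List.range (B * M + 2)).filter fun j => okB M B x e q en.1 j).map fun j =>
    (newP M B x e q en.1 j, newLab M B x q en.2 j)

theorem ptime_candT (M B : ℕ) {x : α → Inst} {e q : α → ℕ} {en : α → List ℕ × List ℕ}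
    (hx : PTime x) (he : PTime e) (hq : PTime q) (hen : PTime en) :
    PTime (fun a => candT M B (x a) (e a) (q a) (en a)) := by
  refine PTime.map (l := fun a => (List.range (B * M + 2)).filter fun j =>
      okB M B (x a) (e a) (q a) (en a).1 j)
    (f := fun a j => (newP M B (x a) (e a) (q a) (en a).1 j,
      newLab M B (x a) (q a) (en a).2 j)) ?_ ?_
  · exact PTime.filter (l := fun _ => List.range (B * M + 2))
      (p := fun a j => okB M B (x a) (e a) (q a) (en a).1 j) (PTime.const _)
      (ptime_okB M B (hx.comp PTime.fst) (he.comp PTime.fst) (hq.comp PTime.fst)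
        ((PTime.fst.comp hen).comp PTime.fst) PTime.snd)
  · exact PTime.prodMk (ptime_newP M B (hx.comp PTime.fst) (he.comp PTime.fst)
        (hq.comp PTime.fst) ((PTime.fst.comp hen).comp PTime.fst) PTime.snd)
      (ptime_newLab M B (hx.comp PTime.fst) (hq.comp PTime.fst)
        ((PTime.snd.comp hen).comp PTime.fst) PTime.snd)

theorem ptime_finT (M B : ℕ) {x : α → Inst} {e q : α → ℕ} {t : α → Tab}
    (hx : PTime x) (he : PTime e) (hq : PTime q) (ht : PTime t) :
    PTime (fun a => finT M B (x a) (e a) (q a) (t a)) := by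
  refine ptime_prune M B hx (t := fun a => (t a).flatMap fun en =>
    candT M B (x a) (e a) (q a) en) ?_
  exact PTime.flatMap (l := t) (f := fun a en => candT M B (x a) (e a) (q a) en) ht
    (ptime_candT M B (hx.comp PTime.fst) (he.comp PTime.fst) (hq.comp PTime.fst) PTime.snd)

/-- The union of two entries. -/
def joinE (M B : ℕ) (x : Inst) (a b : List ℕ × List ℕ) : List ℕ × List ℕ :=
  ((List.range (B * M)).map fun i => min (ncap M x) (a.1.getD i 0 + b.1.getD i 0),
    (List.range x.1).map fun v => min (B * M + 1) (max (a.2.getD v 0) (b.2.getD v 0)))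

theorem ptime_joinE (M B : ℕ) {x : α → Inst} {p q : α → List ℕ × List ℕ}
    (hx : PTime x) (hp : PTime p) (hq : PTime q) :
    PTime (fun a => joinE M B (x a) (p a) (q a)) := by
  refine PTime.prodMk ?_ ?_
  · refine PTime.map (l := fun _ => List.range (B * M))
      (f := fun a i => min (ncap M (x a)) ((p a).1.getD i 0 + (q a).1.getD i 0))
      (PTime.const _) ?_
    refine PTime.natMin (ptime_ncap M (hx.comp PTime.fst)) (PTime.natAdd ?_ ?_)
    · exact PTime.nth ((PTime.fst.comp hp).comp PTime.fst) PTime.snd (PTime.const 0)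
    · exact PTime.nth ((PTime.fst.comp hq).comp PTime.fst) PTime.snd (PTime.const 0)
  · refine PTime.map (l := fun a => List.range (x a).1)
      (f := fun a v => min (B * M + 1) (max ((p a).2.getD v 0) ((q a).2.getD v 0)))
      (PTime.range (PTime.fst.comp hx)) ?_
    refine PTime.natMin (PTime.const _) (PTime.natMax ?_ ?_)
    · exact PTime.nth ((PTime.snd.comp hp).comp PTime.fst) PTime.snd (PTime.const 0)
    · exact PTime.nth ((PTime.snd.comp hq).comp PTime.fst) PTime.snd (PTime.const 0)

theorem ptime_combT (M B : ℕ) {x : α → Inst} {t u : α → Tab}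
    (hx : PTime x) (ht : PTime t) (hu : PTime u) :
    PTime (fun a => combT M B (x a) (t a) (u a)) := by
  refine ptime_prune M B hx (t := fun a => (t a).flatMap fun p => (u a).map fun q =>
    joinE M B (x a) p q) ?_
  refine PTime.flatMap (l := t) (f := fun a p => (u a).map fun q => joinE M B (x a) p q) ht ?_
  exact PTime.map (l := fun y : α × (List ℕ × List ℕ) => u y.1)
    (f := fun y q => joinE M B (x y.1) y.2 q) (hu.comp PTime.fst)
    (ptime_joinE M B (x := fun z : (α × (List ℕ × List ℕ)) × (List ℕ × List ℕ) => x z.1.1)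
      (hx.comp (PTime.fst.comp PTime.fst)) (PTime.snd.comp PTime.fst) PTime.snd)

/-! ### Sizes -/

/-- A bound for the size of an entry. -/
def entB (M B : ℕ) (x : Inst) : ℕ :=
  1 + (1 + B * M * (1 + (2 * ncap M x + 1))) + (1 + x.1 * (1 + (2 * (B * M + 1) + 1)))

theorem sz_entry (M B : ℕ) (x : Inst) (P L : List ℕ) (hP : P.length = B * M)
    (hL : L.length = x.1) (h1 : ∀ a ∈ P, a ≤ ncap M x) (h2 : ∀ a ∈ L, a ≤ B * M + 1) :
    sz (P, L) ≤ entB M B x := by
  have h3 := sz_list_le P (2 * ncap M x + 1) (fun a ha => by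
    rw [sz_nat]; have := h1 a ha; omega)
  have h4 := sz_list_le L (2 * (B * M + 1) + 1) (fun a ha => by
    rw [sz_nat]; have := h2 a ha; omega)
  rw [hP] at h3
  rw [hL] at h4
  rw [sz_pair]
  unfold entB
  omega

theorem sz_joinE (M B : ℕ) (x : Inst) (a b : List ℕ × List ℕ) :
    sz (joinE M B x a b) ≤ entB M B x := by
  refine sz_entry M B x _ _ (by simp) (by simp) ?_ ?_
  · intro c hc
    rw [List.mem_map] at hc
    obtain ⟨i, _, rfl⟩ := hc
    exact min_le_left _ _
  · intro c hc
    rw [List.mem_map] at hc
    obtain ⟨i, _, rfl⟩ := hc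
    exact min_le_left _ _

theorem sz_candT (M B : ℕ) (x : Inst) (e q : ℕ) (en : List ℕ × List ℕ)
    (f : List ℕ × List ℕ) (hf : f ∈ candT M B x e q en) : sz f ≤ entB M B x := by
  unfold candT at hf
  rw [List.mem_map] at hf
  obtain ⟨j, hj, rfl⟩ := hf
  have hj' : j ≤ B * M + 1 := by
    have := List.mem_range.1 (List.mem_of_mem_filter hj)
    omega
  refine sz_entry M B x _ _ (by simp [newP]) (by simp [newLab]) ?_ ?_
  · intro c hc
    unfold newP at hc
    rw [List.mem_map] at hc
    obtain ⟨i, _, rfl⟩ := hc
    by_cases h : j ≤ i + 1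
    · simp only [h, decide_true, cond_true]; exact min_le_left _ _
    · simp only [h, decide_false, cond_false]; exact Nat.zero_le _
  · intro c hc
    unfold newLab at hc
    rw [List.mem_map] at hc
    obtain ⟨v, _, rfl⟩ := hc
    by_cases h : v = q
    · simp only [h, decide_true, cond_true]; exact hj'
    · simp only [h, decide_false, cond_false]; exact min_le_left _ _

/-- A bound for the size of a table. -/
def tabB (M B : ℕ) (x : Inst) : ℕ :=
  1 + sz (states (ncap M x) (B * M)) * (1 + entB M B x) + (1 + entB M B x)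

theorem length_flatMap_le {γ δ : Type} (L : List γ) (f : γ → List δ)
    (h : ∀ s, (f s).length ≤ 1) : (L.flatMap f).length ≤ L.length := by
  induction L with
  | nil => simp
  | cons a L ih =>
    rw [List.flatMap_cons, List.length_append, List.length_cons]
    have := h a
    omega

theorem sz_prune (M B : ℕ) (x : Inst) (t : Tab) (h : ∀ en ∈ t, sz en ≤ entB M B x) :
    sz (prune M B x t) ≤ tabB M B x := by
  rw [prune_eq]
  have h1 := sz_list_le ((states (ncap M x) (B * M)).flatMap fun s =>
      pick (leC M x) (t.filter fun e => decide (e.1 = s))) (entB M B x) (fun en hen => by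
    rw [List.mem_flatMap] at hen
    obtain ⟨s, _, hs⟩ := hen
    exact h en (List.mem_of_mem_filter (mem_of_mem_pick hs)))
  have h2 := length_flatMap_le (states (ncap M x) (B * M)) (fun s =>
      pick (leC M x) (t.filter fun e => decide (e.1 = s))) (fun s => pick_length _ _)
  have h3 := length_lt_sz (states (ncap M x) (B * M))
  have h4 : ((states (ncap M x) (B * M)).flatMap fun s =>
      pick (leC M x) (t.filter fun e => decide (e.1 = s))).length * (1 + entB M B x) ≤
      sz (states (ncap M x) (B * M)) * (1 + entB M B x) :=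
    Nat.mul_le_mul_right _ (by omega)
  unfold tabB
  omega

theorem sz_combT (M B : ℕ) (x : Inst) (t u : Tab) : sz (combT M B x t u) ≤ tabB M B x := by
  refine sz_prune M B x (t.flatMap fun p => u.map fun q => joinE M B x p q) ?_
  intro en hen
  rw [List.mem_flatMap] at hen
  obtain ⟨p, _, hp⟩ := hen
  rw [List.mem_map] at hp
  obtain ⟨q, _, rfl⟩ := hp
  exact sz_joinE M B x p q

theorem sz_finT (M B : ℕ) (x : Inst) (e q : ℕ) (t : Tab) :
    sz (finT M B x e q t) ≤ tabB M B x := by
  refine sz_prune M B x (t.flatMap fun en => candT M B x e q en) ?_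
  intro en hen
  rw [List.mem_flatMap] at hen
  obtain ⟨p, _, hp⟩ := hen
  exact sz_candT M B x e q p en hp

theorem sz_t0 (M B : ℕ) (x : Inst) : sz (t0 M B x) ≤ tabB M B x := by
  have h := sz_entry M B x (List.replicate (B * M) 0) (List.replicate x.1 0) (by simp) (by simp)
    (fun a ha => by rw [List.eq_of_mem_replicate ha]; exact Nat.zero_le _)
    (fun a ha => by rw [List.eq_of_mem_replicate ha]; exact Nat.zero_le _)
  unfold t0 tabB
  rw [sz_cons, sz_nil]
  omega

theorem pb_tabB (M B : ℕ) {x : α → Inst} (hx : PTime x) : PB (fun a => tabB M B (x a)) := by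
  have h1 : PB (fun a => ncap M (x a)) := PB.nat (ptime_ncap M hx)
  have h2 : PB (fun a => (x a).1) := PB.nat (PTime.fst.comp hx)
  have h3 : PB (fun a => sz (states (ncap M (x a)) (B * M))) :=
    (ptime_states _ (ptime_ncap M hx)).sz_le
  have h4 : PB (fun a => entB M B (x a)) := by
    unfold entB
    exact ((PB.const 1).add ((PB.const 1).add ((PB.const _).mul ((PB.const 1).add
      (((PB.const 2).mul h1).add (PB.const 1)))))).add ((PB.const 1).add (h2.mul (PB.const _)))
  unfold tabB
  exact ((PB.const 1).add (h3.mul ((PB.const 1).add h4))).add ((PB.const 1).add h4)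

theorem asmT_aux (M B : ℕ) (x : Inst) (l : List Tab) (acc : Tab)
    (h : sz acc ≤ tabB M B x) : sz (l.foldl (fun acc t => combT M B x t acc) acc) ≤
      tabB M B x := by
  induction l generalizing acc with
  | nil => exact h
  | cons a l ih => rw [List.foldl_cons]; exact ih _ (sz_combT M B x _ _)

theorem ptime_t0 (M B : ℕ) {x : α → Inst} (hx : PTime x) : PTime (fun a => t0 M B (x a)) := by
  unfold t0
  exact PTime.cons (PTime.prodMk (PTime.const _)
    (Pool.Agent.Work.MP_63b90e_lc.PTime.replicate (PTime.fst.comp hx) (PTime.const 0)))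
    (PTime.const [])

theorem ptime_asmT (M B : ℕ) {x : α → Inst} {l : α → List Tab} (hx : PTime x)
    (hl : PTime l) : PTime (fun a => asmT M B (x a) (l a)) := by
  refine PTime.foldl (l := l) (s := fun a => t0 M B (x a))
    (f := fun y : α × Tab × Tab => combT M B (x y.1) y.2.2 y.2.1) hl (ptime_t0 M B hx)
    (ptime_combT M B (hx.comp PTime.fst) (by fun_prop) (by fun_prop))
    (B := fun a => tabB M B (x a)) (pb_tabB M B hx) ?_
  intro a l' _
  exact asmT_aux M B (x a) l' _ (sz_t0 M B (x a))

theorem ptime_solve (M B : ℕ) {x : α → Inst} {e : α → ℕ} (hx : PTime x) (he : PTime e) :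
    PTime (fun a => solve M B (x a) (e a)) := by
  have h1 : PTime (fun a => gelim (x a) (gT M B (x a) (e a)) (sorder (x a)).reverse) := by
    refine ptime_gelim (g := fun a => gT M B (x a) (e a)) (L := fun a => (sorder (x a)).reverse)
      hx (PTime.reverse (ptime_sorder hx)) ?_ (G := fun a => tabB M B (x a)) (pb_tabB M B hx) ?_
    · exact ptime_finT M B (x := fun y : α × ℕ × List Tab => x y.1) (e := fun y => e y.1)
        (q := fun y => y.2.1) (t := fun y => asmT M B (x y.1) y.2.2) (hx.comp PTime.fst)
        (he.comp PTime.fst) (by fun_prop)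
        (ptime_asmT M B (hx.comp PTime.fst) (by fun_prop))
    · intro a v _ l
      exact (sz_finT M B (x a) (e a) v _).trans (Nat.le_add_left _ _)
  have h2 : PTime (fun a => asmT M B (x a)
      ((gelim (x a) (gT M B (x a) (e a)) (sorder (x a)).reverse).map Prod.snd)) :=
    ptime_asmT M B hx (PTime.map (f := fun _ (c : List ℕ × Tab) => c.2) h1 (by fun_prop))
  have h3 : PTime (fun a => pick (leC M (x a)) (asmT M B (x a)
      ((gelim (x a) (gT M B (x a) (e a)) (sorder (x a)).reverse).map Prod.snd))) :=
    ptime_pickC M hx h2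
  have h4 : PTime (fun a => ((pick (leC M (x a)) (asmT M B (x a)
      ((gelim (x a) (gT M B (x a) (e a)) (sorder (x a)).reverse).map Prod.snd))).map
        Prod.snd)) :=
    PTime.map (f := fun _ (c : List ℕ × List ℕ) => c.2) h3 (by fun_prop)
  have h5 := PTime.flatMap (f := fun _ (c : List ℕ) => c) h4 (by fun_prop)
  refine h5.code_congr fun a => ?_
  rw [List.flatMap_id']
  rfl

end Pool.Agent.Work.MP_62a643_lc
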