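import Pool.Agent.Work.MP_62a643_lc.Spec

/-!
Module Values: the values of the arithmetical functions of the algorithm. See
`Pool/Agent/Work/MP_63b90e_lc/Coef.lean` for `addB`, `shiftB`, `padTo` (`valL` there is `binVal`).
-/

set_option autoImplicit false

namespace Pool.Agent.Work.MP_62a643_lc

open Pool.Agent.Work.PolyTime
open Pool.Agent.Work.MP_63b90e_lc (addB padTo shiftB)

private theorem bv_eq : binVal = valL := by
  funext l
  induction l with
  | nil => rfl
  | cons b l ih =>
    simp only [binVal, valL, ih]
    cases b <;> simp <;> omega

private theorem bv_addB (a b : List Bool) : binVal (addB a b) = binVal a + binVal b := by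
  rw [bv_eq]; exact Pool.Agent.Work.MP_63b90e_lc.addB_val a b

private theorem bv_shiftB (j : ℕ) (a : List Bool) : binVal (shiftB j a) = 2 ^ j * binVal a := by
  rw [bv_eq]; exact Pool.Agent.Work.MP_63b90e_lc.shiftB_val j a

theorem binVal_mulN (k : ℕ) (a : List Bool) : binVal (mulN k a) = k * binVal a := by
  unfold mulN
  have key : ∀ (k : ℕ) (s : List Bool), binVal ((List.replicate k ()).foldl (fun s _ => addB s a) s)
      = binVal s + k * binVal a := by
    intro k
    induction k with
    | zero => intro s; simp
    | succ k ih =>
      intro s
      rw [List.replicate_succ, List.foldl_cons, ih, bv_addB]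
      ring
  rw [key]
  simp [binVal]

private theorem binVal_append (a b : List Bool) :
    binVal (a ++ b) = binVal a + 2 ^ a.length * binVal b := by
  induction a with
  | nil => simp [binVal]
  | cons c a ih =>
    simp only [List.cons_append, binVal, ih, List.length_cons, pow_succ]
    ring

theorem ucap_eq (N : ℕ) (a : List Bool) : ucap N a = min (binVal a) N := by
  unfold ucap
  have key : ∀ (l : List Bool), l.foldl (fun r b => min (r + r + (bif b then 1 else 0)) N) 0
      = min (binVal l.reverse) N := by
    intro l
    induction l using List.reverseRecOn with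
    | nil => simp [binVal]
    | append_singleton l b ih =>
      rw [List.foldl_append, List.foldl_cons, List.foldl_nil, ih, List.reverse_append,
        List.reverse_singleton, List.singleton_append]
      simp only [binVal]
      cases b <;> simp <;> omega
  rw [key, List.reverse_reverse]

theorem binVal_drop (k : ℕ) (a : List Bool) : binVal (a.drop k) = binVal a / 2 ^ k := by
  induction k generalizing a with
  | zero => simp
  | succ k ih =>
    cases a with
    | nil => simp [binVal]
    | cons b a =>
      rw [List.drop_succ_cons, ih]
      simp only [binVal]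
      rw [pow_succ, mul_comm (2 ^ k) 2, ← Nat.div_div_eq_div_mul]
      congr 1
      cases b <;> simp <;> omega

theorem dv_eq {M : ℕ} (hM : 0 < M) (i : ℕ) : dv M i = i / M := by
  unfold dv
  have h1 : ((List.range i).filter fun q => decide ((q + 1) * M ≤ i)) = List.range (i / M) := by
    have h2 : ∀ q, ((q + 1) * M ≤ i) ↔ q < i / M := by
      intro q
      rw [← Nat.le_div_iff_mul_le hM]
      omega
    simp only [h2]
    have h3 : i / M ≤ i := Nat.div_le_self _ _
    have h4 : List.range i = List.range (i / M) ++ (List.range (i - i / M)).map (i / M + ·) := by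
      rw [← List.range_add]
      congr 1
      omega
    rw [h4, List.filter_append]
    have h5 : (List.range (i / M)).filter (fun q => decide (q < i / M)) = List.range (i / M) := by
      rw [List.filter_eq_self]
      intro q hq
      simpa using hq
    have h6 : ((List.range (i - i / M)).map (i / M + ·)).filter (fun q => decide (q < i / M)) = [] := by
      rw [List.filter_eq_nil_iff]
      intro q hq
      simp only [List.mem_map] at hq
      obtain ⟨r, -, rfl⟩ := hq
      simp
    rw [h5, h6, List.append_nil]
  rw [h1, List.length_range]

private theorem leB_aux (l m : List Bool) (h : l.length = m.length) : ∀ s : Bool,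
    ((l.zip m).foldl (fun s p => bif p.1 then (p.2 && s) else (p.2 || s)) s = true ↔
      (binVal l < binVal m ∨ (binVal l = binVal m ∧ s = true))) := by
  induction l generalizing m with
  | nil =>
    intro s
    cases m with
    | nil => simp [binVal]
    | cons b m => simp at h
  | cons a l ih =>
    intro s
    cases m with
    | nil => simp at h
    | cons b m =>
      simp only [List.length_cons, Nat.add_right_cancel_iff] at h
      rw [List.zip_cons_cons, List.foldl_cons, ih m h]
      simp only [binVal]
      cases a <;> cases b <;> cases s <;> simp <;> omega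

theorem leB_iff (a b : List Bool) : leB a b = true ↔ binVal a ≤ binVal b := by
  unfold leB
  rw [leB_aux _ _ (by
    rw [Pool.Agent.Work.MP_63b90e_lc.padTo_length, Pool.Agent.Work.MP_63b90e_lc.padTo_length,
      max_comm])]
  rw [bv_eq, Pool.Agent.Work.MP_63b90e_lc.valL_padTo, Pool.Agent.Work.MP_63b90e_lc.valL_padTo]
  simp only [and_true]
  omega

theorem binVal_payB {M : ℕ} (hM : 0 < M) (j : ℕ) (c : List Bool) :
    binVal (payB M j c) = pay M j * binVal c := by
  unfold payB
  cases j with
  | zero => simp [binVal, pay]
  | succ j =>
    rw [if_neg (by omega), bv_shiftB, binVal_mulN, Nat.add_sub_cancel, dv_eq hM]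
    simp only [pay]
    have h1 : j - j / M * M = j % M := by
      have := Nat.div_add_mod j M
      rw [mul_comm] at this
      omega
    rw [h1, mul_assoc]

theorem binVal_costL {M : ℕ} (hM : 0 < M) (x : Inst) (lab : List ℕ) :
    binVal (costL M x lab) = cst M x (lf lab) := by
  unfold costL cst
  have key : ∀ (l : List (List Bool)) (s : List Bool), binVal (l.foldl addB s) =
      binVal s + (l.map binVal).sum := by
    intro l
    induction l with
    | nil => intro s; simp
    | cons a l ih =>
      intro s
      rw [List.foldl_cons, ih, bv_addB, List.map_cons, List.sum_cons]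
      ring
  rw [key, List.map_map]
  simp only [binVal, zero_add]
  rw [Finset.sum_range]
  have h2 : ((List.range x.1).map (binVal ∘ fun v => payB M (lab.getD v 0) (x.2.2.1.getD v []))).sum
      = ∑ i : Fin x.1, entry x.2.2.1 i * pay M (lf lab i) := by
    rw [← Finset.sum_range (fun v => entry x.2.2.1 v * pay M (lf lab v))]
    have h3 : ∀ n : ℕ, ((List.range n).map
        (binVal ∘ fun v => payB M (lab.getD v 0) (x.2.2.1.getD v []))).sum =
        ∑ v ∈ Finset.range n, entry x.2.2.1 v * pay M (lf lab v) := by
      intro n
      induction n with
      | zero => simp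
      | succ n ih =>
        rw [List.range_succ, List.map_append, List.sum_append, ih, Finset.sum_range_succ]
        congr 1
        simp only [List.map_cons, List.map_nil, List.sum_cons, List.sum_nil, Function.comp_apply,
          add_zero]
        rw [binVal_payB hM, mul_comm]
        rfl
    exact h3 x.1
  exact h2

theorem kap_eq {M : ℕ} (hM : 0 < M) (x : Inst) (i : ℕ) : kap M x i = x.1 * (M + i % M) := by
  unfold kap
  rw [dv_eq hM]
  have h1 : i - i / M * M = i % M := by
    have := Nat.div_add_mod i M
    rw [mul_comm] at this
    omega
  rw [h1]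

theorem wgt_eq {M : ℕ} (hM : 0 < M) (B : ℕ) (x : Inst) (e v i : ℕ) :
    wgt M B x e v i =
      min (2 ^ B * (x.1 * M * entry x.2.2.2 v) / 2 ^ (e + i / M)) (ncap M x) := by
  unfold wgt
  rw [ucap_eq, binVal_drop, bv_shiftB, binVal_mulN, dv_eq hM]
  rfl

/-- `pick` finds a minimum. -/
theorem pick_spec {β : Type} (le : β → β → Bool) (val : β → ℕ)
    (h : ∀ a b, le a b = true ↔ val a ≤ val b) (l : List β) (hl : l ≠ []) :
    ∃ m ∈ l, pick le l = [m] ∧ ∀ a ∈ l, val m ≤ val a := by
  unfold pick
  induction l using List.reverseRecOn with
  | nil => exact absurd rfl hl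
  | append_singleton l b ih =>
    rw [List.foldl_append, List.foldl_cons, List.foldl_nil]
    by_cases hl' : l = []
    · subst hl'
      refine ⟨b, by simp, by simp, ?_⟩
      intro a ha
      simp only [List.nil_append, List.mem_singleton] at ha
      rw [ha]
    · obtain ⟨m, hm, hp, hmin⟩ := ih hl'
      rw [hp]
      by_cases hle : le b m = true
      · refine ⟨b, by simp, by simp [hle], ?_⟩
        intro a ha
        rw [h] at hle
        rcases List.mem_append.1 ha with ha | ha
        · exact hle.trans (hmin a ha)
        · rw [List.mem_singleton] at ha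
          rw [ha]
      · refine ⟨m, List.mem_append_left _ hm, by simp [hle], ?_⟩
        intro a ha
        rcases List.mem_append.1 ha with ha | ha
        · exact hmin a ha
        · rw [List.mem_singleton] at ha
          rw [ha]
          rw [h] at hle
          omega

theorem mem_states {N K : ℕ} {l : List ℕ} :
    l ∈ states N K ↔ l.length = K ∧ ∀ a ∈ l, a ≤ N := by
  induction K generalizing l with
  | zero =>
    simp only [states, List.mem_singleton]
    constructor
    · rintro rfl; simp
    · rintro ⟨h, -⟩; exact List.length_eq_zero_iff.1 h
  | succ K ih =>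
    simp only [states, List.mem_flatMap, List.mem_map, List.mem_range]
    constructor
    · rintro ⟨l', hl', i, hi, rfl⟩
      rw [ih] at hl'
      refine ⟨by simp [hl'.1], ?_⟩
      intro a ha
      rcases List.mem_cons.1 ha with rfl | ha
      · omega
      · exact hl'.2 a ha
    · rintro ⟨h1, h2⟩
      cases l with
      | nil => simp at h1
      | cons i l' =>
        refine ⟨l', ?_, i, ?_, rfl⟩
        · rw [ih]
          exact ⟨by simpa using h1, fun a ha => h2 a (List.mem_cons_of_mem _ ha)⟩
        · have := h2 i (by simp)
          omega

private theorem binVal_lt (l : List Bool) : binVal l + 1 ≤ 2 ^ l.length := by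
  induction l with
  | nil => simp [binVal]
  | cons b l ih =>
    simp only [binVal, List.length_cons, pow_succ]
    cases b <;> simp <;> omega

/-- The total weight is small. -/
theorem weight_lt (x : Inst) :
    ∑ v ∈ Finset.range x.1, entry x.2.2.2 v ≤ 2 ^ (nblk x - 1) := by
  have h0 : nblk x - 1 = x.1 + (x.2.2.2.map List.length).sum := by
    unfold nblk; omega
  rw [h0]
  have h1 : ∀ v, entry x.2.2.2 v ≤ 2 ^ (x.2.2.2.map List.length).sum := by
    intro v
    unfold entry
    have h2 := binVal_lt (x.2.2.2.getD v [])
    have h3 : (x.2.2.2.getD v []).length ≤ (x.2.2.2.map List.length).sum := by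
      by_cases hv : v < x.2.2.2.length
      · rw [List.getD_eq_getElem _ _ hv]
        apply List.single_le_sum (fun _ _ => Nat.zero_le _)
        exact List.mem_map.2 ⟨_, List.getElem_mem hv, rfl⟩
      · rw [List.getD_eq_default _ _ (by omega)]
        simp
    have h4 : 2 ^ (x.2.2.2.getD v []).length ≤ 2 ^ (x.2.2.2.map List.length).sum :=
      Nat.pow_le_pow_right (by norm_num) h3
    omega
  calc ∑ v ∈ Finset.range x.1, entry x.2.2.2 v
      ≤ ∑ _v ∈ Finset.range x.1, 2 ^ (x.2.2.2.map List.length).sum :=
        Finset.sum_le_sum fun v _ => h1 v
    _ = x.1 * 2 ^ (x.2.2.2.map List.length).sum := by simp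
    _ ≤ 2 ^ x.1 * 2 ^ (x.2.2.2.map List.length).sum :=
        Nat.mul_le_mul_right _ Nat.lt_two_pow_self.le
    _ = 2 ^ (x.1 + (x.2.2.2.map List.length).sum) := by rw [pow_add]

end Pool.Agent.Work.MP_62a643_lc
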